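import Pool.Agent.Lib.MP_c0e0de_co.AF.A8
import Pool.Agent.Lib.MP_c0e0de_co.AF.A2
import Pool.Agent.Lib.MP_c0e0de_co.AF.A3

section

/-!
# TASK AF B2: nilpotent groups which are transitive on the points (`m` a prime power)

PROOF of `prime_factors`. Let `m = p ^ a`. Every prime `q` dividing `v = Nat.card P = μ m m` is `p`:
otherwise the hypothesis gives an automorphism without fixed points and `τ ^ q = 1`, so `q ∣ m`
(`Par.prime_dvd`), `q = p`.  So every prime divisor of `μ` is `p`, `μ = p ^ c`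
(`Nat.eq_prime_pow_of_unique_prime_dvd`), and `(p^a - 1) ∣ (p^c - 1)` by `Par.exists_lam0`
(`μ - 1 = (m - 1) lam0`), so `a ∣ c` (`arith_one`) and `μ = m ^ (c / a)`.

PROOF of `nilpotent`. Let `G'` be the image of `G` in `Equiv.Perm P × Equiv.Perm Bl` (range of
`(MulAction.toPermHom G P).prod (MulAction.toPermHom G Bl)`), a finite nilpotent group, transitive
on `P`.  Let `q ≠ p` be a prime dividing `Nat.card P`; then `q ∣ Nat.card G'` (orbit-stabiliser).  A
finite nilpotent group has, for every prime `q` dividing its order, a CENTRAL element `z` of order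
`q`: let `Q` be a Sylow `q`-subgroup, it is normal (`Sylow.normal_of_normalizerCondition` and
`normalizerCondition_of_isNilpotent`, or `isNilpotent_of_finite_tfae`); a non-trivial normal
subgroup of a nilpotent group meets the centre non-trivially (or: the centre of `G'` is the product
of the centres of the Sylow subgroups: an element of the centre of `Q` commutes with `Q` and with
every Sylow subgroup for another prime because both are normal with trivial intersection; these
subgroups generate `G'`); `Q ∩ Z(G')` is then a non-trivial `q`-group; take `z` of order `q` in it.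
`z = (σ, τ)`.  If `σ x = x` for one `x` then, `z` being central and `G'` transitive, `σ = 1`; then
`I p (τ c) ↔ I p c` for all `p`, so `τ c = c` by `h.ext_block`, `z = 1`, a contradiction.  So `σ`
has no fixed point, `τ ^ q = 1`; apply `prime_factors`.
-/

namespace Pool.Agent.AF

variable {P Bl : Type} [Finite P] [Finite Bl] {I : P → Bl → Prop} {par : Bl → Bl → Prop}
  {k lam μ m r : ℕ}

theorem Par.prime_factors (h : Par I par k lam μ m r) (p a : ℕ) (hp : p.Prime) (ha : 1 ≤ a)
    (hm : m = p ^ a)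
    (H : ∀ q : ℕ, q.Prime → q ≠ p → q ∣ Nat.card P → ∃ (σ : Equiv.Perm P) (τ : Equiv.Perm Bl),
      (∀ x c, I (σ x) (τ c) ↔ I x c) ∧ τ ^ q = 1 ∧ ∀ x, σ x ≠ x) :
    ∃ n : ℕ, μ = m ^ n := by
  have hμ0 : μ ≠ 0 := h.aff.mu_pos.ne'
  have hμ : μ = p ^ μ.primeFactorsList.length := by
    refine Nat.eq_prime_pow_of_unique_prime_dvd hμ0 fun {q} hq hqd => ?_
    by_contra hne
    have h1 : q ∣ Nat.card P := by
      rw [h.hv, mul_assoc]
      exact hqd.mul_right _
    obtain ⟨σ, τ, hI, hτ, hσ⟩ := H q hq hne h1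
    have h2 := h.prime_dvd σ τ hI q hq hτ hσ
    rw [hm] at h2
    exact hne ((Nat.prime_dvd_prime_iff_eq hq hp).1 (hq.dvd_of_dvd_pow h2))
  obtain ⟨l0, -, hl⟩ := h.exists_lam0
  have hd : (p ^ a - 1) ∣ (p ^ μ.primeFactorsList.length - 1) := by
    rw [← hμ, ← hm]
    exact ⟨l0, by omega⟩
  obtain ⟨u, hu⟩ := arith_one p a _ hp ha hd
  exact ⟨u, by rw [hμ, hu, pow_mul, hm]⟩

open scoped commutatorElement in
/-- A nontrivial normal subgroup of a nilpotent group meets the centre. -/
private theorem B2_meet {G : Type} [Group G] [Group.IsNilpotent G] (Q : Subgroup G) [Q.Normal]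
    (hQ : Q ≠ ⊥) : ∃ x ∈ Q, x ∈ Subgroup.center G ∧ x ≠ 1 := by
  classical
  obtain ⟨c, hc⟩ := Group.IsNilpotent.nilpotent G
  have hex : ∃ n, ∃ x ∈ Q, x ∈ Subgroup.upperCentralSeries G n ∧ x ≠ 1 := by
    obtain ⟨x, hx⟩ := Q.ne_bot_iff_exists_ne_one.1 hQ
    exact ⟨c, x.1, x.2, by rw [hc]; exact Subgroup.mem_top x.1, fun h1 => hx (Subtype.ext h1)⟩
  obtain ⟨x, hx, hxn, hx1⟩ := Nat.find_spec hex
  refine ⟨x, hx, ?_, hx1⟩
  rcases Nat.eq_zero_or_pos (Nat.find hex) with h0 | h0
  · rw [h0, Subgroup.upperCentralSeries_zero, Subgroup.mem_bot] at hxn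
    exact absurd hxn hx1
  · obtain ⟨n, hn⟩ := Nat.exists_eq_succ_of_ne_zero h0.ne'
    rw [hn, Nat.succ_eq_add_one, Subgroup.mem_upperCentralSeries_succ_iff] at hxn
    have hmin := Nat.find_min hex (m := n) (by omega)
    rw [Subgroup.mem_center_iff]
    intro y
    by_contra hne
    refine hmin ⟨⁅x, y⁆, ?_, hxn y, ?_⟩
    · have h1 : ⁅x, y⁆ = x * (y * x⁻¹ * y⁻¹) := by
        rw [commutatorElement_def]
        group
      rw [h1]
      exact Q.mul_mem hx (Subgroup.Normal.conj_mem inferInstance _ (Q.inv_mem hx) y)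
    · rw [Ne, commutatorElement_eq_one_iff_mul_comm]
      exact fun h1 => hne h1.symm

/-- A finite nilpotent group has central elements of every prime order dividing its order. -/
private theorem B2_central {G : Type} [Group G] [Finite G] [Group.IsNilpotent G] (q : ℕ)
    [Fact q.Prime] (hq : q ∣ Nat.card G) : ∃ z ∈ Subgroup.center G, orderOf z = q := by
  obtain ⟨Q⟩ : Nonempty (Sylow q G) := inferInstance
  obtain ⟨x, hx, hxc, hx1⟩ := B2_meet (Q : Subgroup G) (Q.ne_bot_of_dvd_card hq)
  obtain ⟨j, hj⟩ := IsPGroup.iff_orderOf.1 Q.isPGroup' ⟨x, hx⟩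
  rw [Subgroup.orderOf_mk] at hj
  have hj0 : j ≠ 0 := by
    intro h0
    rw [h0, pow_zero, orderOf_eq_one_iff] at hj
    exact hx1 hj
  have h1 : q ∣ orderOf x := by
    rw [hj]
    exact dvd_pow_self q hj0
  exact ⟨x ^ (orderOf x / q), Subgroup.pow_mem _ hxc _,
    orderOf_pow_orderOf_div (orderOf_pos x).ne' h1⟩

theorem Par.nilpotent (h : Par I par k lam μ m r) (G : Type) [Group G] [Group.IsNilpotent G]
    [MulAction G P] [MulAction G Bl] (ha : ∀ (g : G) (p : P) (c : Bl), I (g • p) (g • c) ↔ I p c)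
    (htr : ∀ p q : P, ∃ g : G, g • p = q) (hm : IsPrimePow m) :
    ∃ n : ℕ, μ = m ^ n := by
  obtain ⟨p, a, hp, ha0, hpm⟩ := hm
  refine h.prime_factors p a hp.nat_prime (by omega) hpm.symm fun q hq hqp hqd => ?_
  have hfq : Fact q.Prime := ⟨hq⟩
  set φ : G →* Equiv.Perm P × Equiv.Perm Bl :=
    (MulAction.toPermHom G P).prod (MulAction.toPermHom G Bl) with hφ
  have hnil : Group.IsNilpotent φ.range :=
    Group.nilpotent_of_surjective φ.rangeRestrict φ.rangeRestrict_surjective
  obtain ⟨x₀⟩ : Nonempty P := by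
    refine (Nat.card_pos_iff.1 ?_).1
    have h1 := h.aff.mu_pos
    have h2 := h.m2
    rw [h.hv]
    positivity
  have hcard : q ∣ Nat.card φ.range := by
    have hpre : MulAction.IsPretransitive (MulAction.toPermHom G P).range P := by
      refine ⟨fun x y => ?_⟩
      obtain ⟨g, hg⟩ := htr x y
      exact ⟨⟨MulAction.toPermHom G P g, ⟨g, rfl⟩⟩, hg⟩
    have h1 := MulAction.index_stabilizer_of_transitive (MulAction.toPermHom G P).range x₀
    have h2 : Nat.card P ∣ Nat.card (MulAction.toPermHom G P).range := by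
      rw [← h1]
      exact Subgroup.index_dvd_card _
    have h3 : (MulAction.toPermHom G P).range =
        ((MonoidHom.fst (Equiv.Perm P) (Equiv.Perm Bl)).comp φ.range.subtype).range := by
      ext s
      constructor
      · rintro ⟨g, rfl⟩
        exact ⟨⟨φ g, ⟨g, rfl⟩⟩, rfl⟩
      · rintro ⟨⟨_, ⟨g, rfl⟩⟩, rfl⟩
        exact ⟨g, rfl⟩
    have h4 : Nat.card (MulAction.toPermHom G P).range ∣ Nat.card φ.range := by
      rw [h3]
      exact Subgroup.card_range_dvd _
    exact hqd.trans (h2.trans h4)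
  obtain ⟨z, hz, hzq⟩ := B2_central (G := φ.range) q hcard
  obtain ⟨g₀, hg₀⟩ := z.2
  have hσ : ∀ x, z.1.1 x = g₀ • x := fun x => by rw [← hg₀]; rfl
  have hτ : ∀ c, z.1.2 c = g₀ • c := fun c => by rw [← hg₀]; rfl
  have hI : ∀ x c, I (z.1.1 x) (z.1.2 c) ↔ I x c := fun x c => by rw [hσ, hτ]; exact ha g₀ x c
  refine ⟨z.1.1, z.1.2, hI, ?_, ?_⟩
  · have h1 : z ^ q = 1 := by rw [← hzq, pow_orderOf_eq_one]
    have h2 := congrArg (fun w : φ.range => w.1.2) h1
    exact h2
  · intro x hx
    have h1 : z.1.1 = 1 := by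
      ext y
      obtain ⟨g, hg⟩ := htr x y
      have h2 := Subgroup.mem_center_iff.1 hz ⟨φ g, ⟨g, rfl⟩⟩
      have h3 := congrArg (fun w : φ.range => w.1.1 x) h2
      have h4 : g • (z.1.1 x) = z.1.1 (g • x) := h3
      rw [hx, hg] at h4
      rw [Equiv.Perm.one_apply]
      exact h4.symm
    have h5 : z.1.2 = 1 := by
      ext c
      rw [Equiv.Perm.one_apply]
      refine h.ext_block _ _ fun y => ?_
      have h6 := hI y c
      rw [h1, Equiv.Perm.one_apply] at h6
      exact h6
    have h7 : z = 1 := Subtype.ext (Prod.ext h1 h5)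
    rw [h7, orderOf_one] at hzq
    exact hq.one_lt.ne hzq

end Pool.Agent.AF
end

section

/-!
# TASK AF B3: if all lines through one point are full, the companion symmetric design exists

The line through `x` and `q` is the set of the points which are on every block through `x` and `q`.

PROOF.  For `q ≠ x` let `b q = {c | I x c ∧ I q c}`, a set with `lam` elements (`h.aff.pair`).
A point `z ≠ x` is on the line `x q` iff `b q ⊆ b z` iff `b q = b z` (same cardinality, finite
sets).  So on `{q // q ≠ x}` 'same line' is the equivalence relation `b q = b z`, and every class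
has `m - 1` elements (the line has `m` points by hypothesis, one of them is `x`).
`X := {c : Bl // I x c}` (`r` elements, `h.deg`), `Y := ` quotient of `{q // q ≠ x}` by this relation;
`Nat.card P - 1 = (m - 1) r` (`hv`, `hr`, `hlam`), so `Nat.card Y = r`.
`R c [q] := I q c` (well defined: `c ∈ b q`).
* `blk`: `(b q).ncard = lam`.
* `deg`: `c ∋ x`: the points `q ≠ x` of `c`: `k - 1 = μ m - 1 = lam (m - 1)`, so `lam` classes.
* `two`: `c ≠ c'` through `x`: `¬ par c c'` (`par_iff`), they have `μ` common points, one is `x`;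
  `μ - 1 = (m - 1) lam0`, so `lam0` classes.
(The file A6.lean contains the same argument for the orbits of a group of homotheties; its text is
in the store: MP_c0e0de_AF_A6.lean.)
-/

namespace Pool.Agent.AF

variable {P Bl : Type} [Finite P] [Finite Bl] {I : P → Bl → Prop} {par : Bl → Bl → Prop}
  {k lam μ m r : ℕ}

/-- the relation to be on the same line through `x` -/
private def B3_setoid {P Bl : Type} (I : P → Bl → Prop) (x : P) : Setoid {q : P // q ≠ x} where
  r q q' := {c | I x c ∧ I q.1 c} = {c | I x c ∧ I q'.1 c}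
  iseqv :=
    { refl := fun _ => rfl
      symm := fun h => h.symm
      trans := fun h h' => h.trans h' }

private theorem B3_count {P Bl : Type} [Finite P] (I : P → Bl → Prop) (x : P) (N : ℕ)
    (hN : ∀ q : P, q ≠ x →
      {z : P | z ≠ x ∧ {c | I x c ∧ I q c} = {c | I x c ∧ I z c}}.ncard = N)
    (S : Set P) (hS : x ∉ S) (T : Set (Quotient (B3_setoid I x)))
    (hST : ∀ q : {q : P // q ≠ x}, q.1 ∈ S ↔ Quotient.mk (B3_setoid I x) q ∈ T) :
    S.ncard = N * T.ncard := by
  classical
  have hne : ∀ q : S, q.1 ≠ x := fun q h => hS (h ▸ q.2)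
  let F : S → T := fun q => ⟨Quotient.mk (B3_setoid I x) ⟨q.1, hne q⟩, (hST ⟨q.1, hne q⟩).1 q.2⟩
  have hfinY : Finite (Quotient (B3_setoid I x)) := Quotient.finite _
  have hfT : Fintype T := Fintype.ofFinite _
  have hfib : ∀ y : T, Nat.card {q : S // F q = y} = N := by
    intro y
    let q := Quotient.out y.1
    rw [← hN q.1 q.2, ← Nat.card_coe_set_eq]
    refine Nat.card_congr
      { toFun := fun z => ⟨z.1.1, hne z.1, ?_⟩
        invFun := fun z => ⟨⟨z.1, ?_⟩, ?_⟩
        left_inv := fun z => rfl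
        right_inv := fun z => rfl }
    · have h1 : Quotient.mk (B3_setoid I x) ⟨z.1.1, hne z.1⟩ = y.1 := congrArg Subtype.val z.2
      have h2 : (B3_setoid I x).r (Quotient.out y.1) ⟨z.1.1, hne z.1⟩ :=
        Quotient.exact ((Quotient.out_eq y.1).trans h1.symm)
      exact h2
    · have h1 : Quotient.mk (B3_setoid I x) (Quotient.out y.1) = Quotient.mk (B3_setoid I x) ⟨z.1, z.2.1⟩ :=
        Quotient.sound (s := B3_setoid I x) z.2.2
      have h2 : Quotient.mk (B3_setoid I x) ⟨z.1, z.2.1⟩ = y.1 := h1.symm.trans (Quotient.out_eq y.1)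
      have h3 := (hST ⟨z.1, z.2.1⟩).2
      rw [h2] at h3
      exact h3 y.2
    · have h1 : Quotient.mk (B3_setoid I x) (Quotient.out y.1) = Quotient.mk (B3_setoid I x) ⟨z.1, z.2.1⟩ :=
        Quotient.sound (s := B3_setoid I x) z.2.2
      exact Subtype.ext (h1.symm.trans (Quotient.out_eq y.1))
  have h1 := Nat.card_congr (Equiv.sigmaFiberEquiv F)
  rw [Nat.card_sigma, Finset.sum_congr rfl fun y _ => hfib y, Finset.sum_const, Finset.card_univ,
    smul_eq_mul, Nat.card_coe_set_eq, ← Nat.card_eq_fintype_card, Nat.card_coe_set_eq] at h1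
  rw [← h1, mul_comm]

theorem Par.full_lines (h : Par I par k lam μ m r) (x : P)
    (hx : ∀ q : P, q ≠ x → {z : P | ∀ c, I x c → I q c → I z c}.ncard = m)
    (lam0 : ℕ) (hl : lam = m * lam0 + 1) (hmu : μ = (m - 1) * lam0 + 1) :
    ∃ (X Y : Type) (R : X → Y → Prop), IsSym X Y R r lam lam0 := by
  classical
  have hm2 := h.m2
  obtain ⟨n, hn⟩ : ∃ n, m = n + 2 := ⟨m - 2, by omega⟩
  have hN : ∀ q : P, q ≠ x →
      {z : P | z ≠ x ∧ {c | I x c ∧ I q c} = {c | I x c ∧ I z c}}.ncard = n + 1 := by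
    intro q hq
    have h1 := hx q hq
    have h2 : insert x {z : P | z ≠ x ∧ {c | I x c ∧ I q c} = {c | I x c ∧ I z c}} =
        {z : P | ∀ c, I x c → I q c → I z c} := by
      ext z
      simp only [Set.mem_insert_iff, Set.mem_ofPred_eq]
      constructor
      · rintro (rfl | h3)
        · intro c hc _
          exact hc
        · intro c hc hqc
          have h4 : c ∈ {c | I x c ∧ I q c} := ⟨hc, hqc⟩
          rw [h3.2] at h4
          exact h4.2
      · intro h3
        by_cases h4 : z = x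
        · left; exact h4
        · right
          refine ⟨h4, ?_⟩
          refine Set.eq_of_subset_of_ncard_le (fun c hc => ⟨hc.1, h3 c hc.1 hc.2⟩) ?_ (Set.toFinite _)
          rw [h.aff.pair x q hq.symm, h.aff.pair x z (Ne.symm h4)]
    rw [← h2, Set.ncard_insert_of_notMem (fun h => h.1 rfl)] at h1
    omega
  have hcount := B3_count I x (n + 1) hN
  have hk := h.hk
  have hv := h.hv
  have hr := h.hr
  have hlam := h.hlam
  subst hn
  let X : Type := {c : Bl // I x c}
  let Y : Type := Quotient (B3_setoid I x)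
  let R : X → Y → Prop := fun c y => Quotient.lift (fun q : {q : P // q ≠ x} => I q.1 c.1)
    (fun q q' hqq => by
      have h1 : {c | I x c ∧ I q.1 c} = {c | I x c ∧ I q'.1 c} := hqq
      have h2 : c.1 ∈ {c | I x c ∧ I q.1 c} ↔ c.1 ∈ {c | I x c ∧ I q'.1 c} := by rw [h1]
      exact propext ⟨fun h3 => (h2.1 ⟨c.2, h3⟩).2, fun h3 => (h2.2 ⟨c.2, h3⟩).2⟩) y
  have hR : ∀ (c : X) (q : {q : P // q ≠ x}),
      R c (Quotient.mk (B3_setoid I x) q) ↔ I q.1 c.1 := fun c q => Iff.rfl
  refine ⟨X, Y, R, ?_, ?_, ?_, ?_, ?_⟩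
  · -- cardX
    have h1 := h.deg x
    rw [← Nat.card_coe_set_eq] at h1
    exact h1
  · -- cardY
    have h1 := hcount {q | q ≠ x} (fun h => h rfl) Set.univ (fun q => by simp)
    rw [Set.ncard_univ] at h1
    have h2 : ({q | q ≠ x} : Set P).ncard + 1 = Nat.card P := by
      have h3 := Set.ncard_add_ncard_compl ({x} : Set P)
      rw [Set.ncard_singleton] at h3
      have h4 : ({x} : Set P)ᶜ = {q | q ≠ x} := by ext q; simp
      rw [h4] at h3
      omega
    change Nat.card (Quotient (B3_setoid I x)) = r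
    have h5 : (n + 1) * Nat.card (Quotient (B3_setoid I x)) = (n + 1) * r := by
      rw [← h1]
      have h6 : ({q | q ≠ x} : Set P).ncard + 1 = (n + 1) * r + 1 := by
        rw [h2, hv, hr]
        nlinarith
      omega
    exact Nat.eq_of_mul_eq_mul_left (Nat.succ_pos n) h5
  · -- blk
    intro y
    induction y using Quotient.inductionOn with
    | h q =>
      have h1 := h.aff.pair x q.1 q.2.symm
      have h2 : (Subtype.val '' {c : X | R c (Quotient.mk (B3_setoid I x) q)}) =
          {c : Bl | I x c ∧ I q.1 c} := by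
        ext c
        constructor
        · rintro ⟨c', hc', rfl⟩
          exact ⟨c'.2, hc'⟩
        · rintro ⟨h3, h4⟩
          exact ⟨⟨c, h3⟩, h4, rfl⟩
      rw [← h1, ← h2, Set.ncard_image_of_injective _ Subtype.val_injective]
  · -- deg
    intro c
    have h1 := hcount {q | q ≠ x ∧ I q c.1} (fun h => h.1 rfl) {y | R c y}
      (fun q => by
        constructor
        · intro h2
          exact h2.2
        · intro h2
          exact ⟨q.2, h2⟩)
    have h2 : ({q | q ≠ x ∧ I q c.1} : Set P).ncard + 1 = k := by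
      have h3 := h.aff.block c.1
      have h4 : insert x ({q | q ≠ x ∧ I q c.1} : Set P) = {p | I p c.1} := by
        ext q
        simp only [Set.mem_insert_iff, Set.mem_ofPred_eq]
        constructor
        · rintro (rfl | h5)
          · exact c.2
          · exact h5.2
        · intro h5
          by_cases h6 : q = x
          · left; exact h6
          · right; exact ⟨h6, h5⟩
      rw [← h3, ← h4, Set.ncard_insert_of_notMem (fun h => h.1 rfl)]
    have h5 : (n + 1) * ({y | R c y} : Set Y).ncard = (n + 1) * lam := by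
      rw [← h1]
      have h6 : ({q | q ≠ x ∧ I q c.1} : Set P).ncard + 1 = (n + 1) * lam + 1 := by
        rw [h2, hk]
        nlinarith
      omega
    exact Nat.eq_of_mul_eq_mul_left (Nat.succ_pos n) h5
  · -- two
    intro c c' hcc
    have hnp : ¬ par c.1 c'.1 := by
      intro hp
      rcases (h.par_iff c.1 c'.1).1 hp with h3 | h3
      · exact hcc (Subtype.ext h3)
      · exact h3 x ⟨c.2, c'.2⟩
    have h1 := hcount {q | q ≠ x ∧ I q c.1 ∧ I q c'.1} (fun h => h.1 rfl)
      {y | R c y ∧ R c' y}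
      (fun q => by
        constructor
        · intro h2
          exact h2.2
        · intro h2
          exact ⟨q.2, h2⟩)
    have h2 : ({q | q ≠ x ∧ I q c.1 ∧ I q c'.1} : Set P).ncard + 1 = μ := by
      have h3 := h.aff.meet c.1 c'.1 hnp
      have h4 : insert x ({q | q ≠ x ∧ I q c.1 ∧ I q c'.1} : Set P) =
          {p | I p c.1 ∧ I p c'.1} := by
        ext q
        simp only [Set.mem_insert_iff, Set.mem_ofPred_eq]
        constructor
        · rintro (rfl | h5)
          · exact ⟨c.2, c'.2⟩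
          · exact h5.2
        · intro h5
          by_cases h6 : q = x
          · left; exact h6
          · right; exact ⟨h6, h5⟩
      rw [← h3, ← h4, Set.ncard_insert_of_notMem (fun h => h.1 rfl)]
    have h5 : (n + 1) * ({y | R c y ∧ R c' y} : Set Y).ncard = (n + 1) * lam0 := by
      rw [← h1]
      have h6 : n + 2 - 1 = n + 1 := by omega
      rw [h6] at hmu
      omega
    exact Nat.eq_of_mul_eq_mul_left (Nat.succ_pos n) h5

end Pool.Agent.AF
end

section

/-!
# TASK AF A5: homotheties are semiregular outside the centre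

Let `(σ, τ)` be an automorphism such that every block through the point `x` is fixed by `τ`.

PROOF of `hom_center`: `σ x = x`.  If `σ x ≠ x`: every block `c` through `x` is fixed, so
`I (σ x) c`; then `{c | I x c} = {c | I x c ∧ I (σ x) c}` has `r` and `lam` elements, but
`r = m lam + 1 > lam`.

PROOF of `hom_semireg`: let `q ≠ x`, `σ q = q`; we show `σ = 1` (all points are fixed).
(1) every block `c` through `q` is fixed: let `d` be the block through `x` parallel to `c`
(`euclid`), `τ d = d`; `par (τ c) (τ d)` (`par_map`) so `par (τ c) c`, and `q = σ q` is on `τ c` and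
on `c`; by `par_iff` `τ c = c`.
(2) let `y` be a point with `σ y ≠ y`.  `{c | I x c ∧ I y c} ⊆ {c | I y c ∧ I (σ y) c}` (fixed
blocks), both have `lam` elements (`y ≠ x`, `y ≠ σ y`), so they are equal.  By (1) in the same way
`{c | I q c ∧ I y c} = {c | I y c ∧ I (σ y) c}` (`y ≠ q`).  Hence every block through `x` and `y`
contains `q`, and `{c | I x c ∧ I y c} ⊆ {c | I x c ∧ I q c}`, equal by cardinality.
(3) take a block `c` through `x` and `q` (`lam > 0`) and a point `z` not on `c`
(`k < Nat.card P`), `z ≠ x`.  By (2) if `σ z ≠ z` then `{c | I x c ∧ I z c} = {c | I x c ∧ I q c}`,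
but `c` is only in the second.  So `σ z = z`.  Now (2) holds also for `z` in place of `q`:
`{c | I x c ∧ I y c} = {c | I x c ∧ I z c}`; so `{c | I x c ∧ I q c} = {c | I x c ∧ I z c}`,
a contradiction with the choice of `z`.
-/

namespace Pool.Agent.AF

variable {P Bl : Type} [Finite P] [Finite Bl] {I : P → Bl → Prop} {par : Bl → Bl → Prop}
  {k lam μ m r : ℕ}

theorem Par.hom_center (h : Par I par k lam μ m r) (σ : Equiv.Perm P) (τ : Equiv.Perm Bl)
    (ha : ∀ p c, I (σ p) (τ c) ↔ I p c) (x : P) (hx : ∀ c, I x c → τ c = c) : σ x = x := by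
  by_contra hne
  have h1 := h.aff.pair x (σ x) (fun he => hne he.symm)
  have h2 : {c : Bl | I x c ∧ I (σ x) c} = {c : Bl | I x c} := by
    ext c
    constructor
    · intro hc
      exact hc.1
    · intro hc
      refine ⟨hc, ?_⟩
      have h3 := (ha x c).2 hc
      rwa [hx c hc] at h3
  rw [h2, h.deg x] at h1
  have h4 := h.hr
  have h5 := h.m2
  have h6 : 1 * lam ≤ m * lam := Nat.mul_le_mul_right lam (by omega)
  omega

omit [Finite P] in
private theorem A5_E (h : Par I par k lam μ m r) (σ : Equiv.Perm P) (τ : Equiv.Perm Bl)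
    (ha : ∀ p c, I (σ p) (τ c) ↔ I p c) (p : P) (hp : ∀ c, I p c → τ c = c) (y : P)
    (hy : σ y ≠ y) (hpy : p ≠ y) :
    {c : Bl | I p c ∧ I y c} = {c : Bl | I y c ∧ I (σ y) c} := by
  apply Set.eq_of_subset_of_ncard_le
  · rintro c ⟨h1, h2⟩
    refine ⟨h2, ?_⟩
    have h3 := (ha y c).2 h2
    rwa [hp c h1] at h3
  · rw [h.aff.pair p y hpy, h.aff.pair y (σ y) (fun he => hy he.symm)]
  · exact Set.toFinite _

private theorem A5_F (h : Par I par k lam μ m r) (σ : Equiv.Perm P) (τ : Equiv.Perm Bl)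
    (ha : ∀ p c, I (σ p) (τ c) ↔ I p c) (x : P) (hx : ∀ c, I x c → τ c = c)
    (q : P) (hσ : σ q = q) (c : Bl) (hc : I q c) : τ c = c := by
  obtain ⟨d, ⟨hd1, hd2⟩, _⟩ := h.aff.euclid c x
  have hτd : τ d = d := hx d hd2
  have h1 : par (τ c) (τ d) := (h.par_map σ τ ha c d).2 hd1
  rw [hτd] at h1
  have h2 : par (τ c) c := h.aff.equiv.trans h1 (h.aff.equiv.symm hd1)
  have h3 : I q (τ c) := by
    have h4 := (ha q c).2 hc
    rwa [hσ] at h4
  rcases (h.par_iff (τ c) c).1 h2 with h5 | h5
  · exact h5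
  · exact absurd ⟨h3, hc⟩ (h5 q)

private theorem A5_G (h : Par I par k lam μ m r) (σ : Equiv.Perm P) (τ : Equiv.Perm Bl)
    (ha : ∀ p c, I (σ p) (τ c) ↔ I p c) (x : P) (hx : ∀ c, I x c → τ c = c)
    (q : P) (hq : q ≠ x) (hσ : σ q = q) (y : P) (hy : σ y ≠ y) :
    {c : Bl | I x c ∧ I y c} = {c : Bl | I x c ∧ I q c} := by
  have hxx := h.hom_center σ τ ha x hx
  have hxy : x ≠ y := by
    rintro rfl
    exact hy hxx
  have hqy : q ≠ y := by
    rintro rfl
    exact hy hσ
  have h1 := A5_E h σ τ ha x hx y hy hxy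
  have h2 := A5_E h σ τ ha q (A5_F h σ τ ha x hx q hσ) y hy hqy
  have h3 : {c : Bl | I x c ∧ I y c} = {c : Bl | I q c ∧ I y c} := h1.trans h2.symm
  apply Set.eq_of_subset_of_ncard_le
  · rintro c hc
    have h4 : c ∈ {c : Bl | I q c ∧ I y c} := h3 ▸ hc
    exact ⟨hc.1, h4.1⟩
  · rw [h.aff.pair x q hq.symm, h.aff.pair x y hxy]
  · exact Set.toFinite _

theorem Par.hom_semireg (h : Par I par k lam μ m r) (σ : Equiv.Perm P) (τ : Equiv.Perm Bl)
    (ha : ∀ p c, I (σ p) (τ c) ↔ I p c) (x : P) (hx : ∀ c, I x c → τ c = c)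
    (q : P) (hq : q ≠ x) (hσ : σ q = q) (y : P) : σ y = y := by
  by_contra hy
  have hS := A5_G h σ τ ha x hx q hq hσ y hy
  -- a block through x and q
  have hne : {c : Bl | I x c ∧ I q c}.Nonempty := by
    rw [← Set.ncard_pos (Set.toFinite _), h.aff.pair x q hq.symm]
    exact h.aff.lam_pos
  obtain ⟨c0, hc1, hc2⟩ := hne
  have hz : ∃ z : P, ¬ I z c0 := by
    by_contra hcon
    push Not at hcon
    have h1 : {p : P | I p c0} = Set.univ := by
      ext p
      simp [hcon p]
    have h2 := h.aff.block c0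
    rw [h1, Set.ncard_univ] at h2
    have h3 := h.aff.k_lt
    omega
  obtain ⟨z, hz⟩ := hz
  have hzx : z ≠ x := by
    rintro rfl
    exact hz hc1
  have hmem : c0 ∈ {c : Bl | I x c ∧ I q c} := ⟨hc1, hc2⟩
  by_cases hzz : σ z = z
  · have h1 := A5_G h σ τ ha x hx z hzx hzz y hy
    have h2 : {c : Bl | I x c ∧ I q c} = {c : Bl | I x c ∧ I z c} := hS.symm.trans h1
    have h3 : c0 ∈ {c : Bl | I x c ∧ I z c} := h2 ▸ hmem
    exact hz h3.2
  · have h1 := A5_G h σ τ ha x hx q hq hσ z hzz
    have h3 : c0 ∈ {c : Bl | I x c ∧ I z c} := h1.symm ▸ hmem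
    exact hz h3.2

end Pool.Agent.AF
end

section

/-!
# TASK AF B4: a translation (`m` prime) gives a partition of the points into full parallel lines

A dilatation is an automorphism `(σ, τ)` with `par c (τ c)` for every block `c`; it is a translation
if `σ` has no fixed point.

PROOF of `dil_fix`: a dilatation with `σ x = x` fixes every block through `x` (`τ c` is parallel to
`c` and contains `σ x = x`, so `τ c = c` by `par_iff`).

PROOF of `exists_pi`.  (1) Let `(σ, τ)` be a translation (`P` is not empty, so `σ ≠ 1`) and let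
`σ ^ i ≠ 1`; then `σ ^ i` has no fixed point: if `σ^i x = x` then `σ^i (σ x) = σ x`, `σ x ≠ x`;
`(σ^i, τ^i)` is a dilatation which fixes all blocks through `x` and fixes `σ x ≠ x`, so it is the
identity on points by `Par.hom_semireg`.
(2) Let `ℓ` be a prime divisor of the order of `σ` and replace `(σ, τ)` by its power of order `ℓ`:
`σ' ^ ℓ = 1`, `σ'` has no fixed point, and `τ' ^ ℓ = 1` since blocks are determined by their points
(`h.ext_block`).  `Par.prime_dvd`: `ℓ ∣ m`, so `ℓ = m`.  So we may assume: `σ ^ m = 1`, `τ ^ m = 1`,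
`σ` has no fixed point, and then every `σ ^ i` with `0 < i < m` has no fixed point (by (1), since
`σ ^ i = 1`, `σ ^ m = 1`, `gcd(i, m) = 1` would give `σ = 1`).
(3) `P' := ` orbits of `Subgroup.zpowers σ` on `P` (or of the equivalence relation `∃ i, σ^i p = q`),
`π` the quotient map.  The fibre of `p` is `{σ^i p | 0 ≤ i < m}`, with exactly `m` elements.
(4) Let `c` be a block.  If `τ c = c` then `I (σ p) c ↔ I p c`, so the first alternative holds.  If
`τ c ≠ c`: then the blocks `τ^i c`, `0 ≤ i < m`, are pairwise different (`τ^m = 1`, `m` prime) and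
parallel to `c`; the class has `m` blocks, so these are all of them.  For `p : P` exactly one block
of the class contains `p` (`euclid`), i.e. there is exactly one `i < m` with `I p (τ^i c)`, that is
`I (σ^(m-i) p) c`: exactly one of the `m` points of the fibre of `p` is on `c`.
-/

namespace Pool.Agent.AF

variable {P Bl : Type} [Finite P] [Finite Bl] {I : P → Bl → Prop} {par : Bl → Bl → Prop}
  {k lam μ m r : ℕ}

private theorem B4_free {α : Type} {m : ℕ} (hm : m.Prime) (f : Equiv.Perm α) (hf : f ^ m = 1)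
    {x : α} (hx : f x ≠ x) {i j : ℕ} (hi : i < m) (hj : j < m) (hij : (f ^ i) x = (f ^ j) x) :
    i = j := by
  have h1 : Function.IsPeriodicPt f m x := by
    change f^[m] x = x
    rw [← Equiv.Perm.coe_pow, hf]
    rfl
  have h2 : Function.minimalPeriod f x = m := by
    rcases (Nat.dvd_prime hm).1 h1.minimalPeriod_dvd with h3 | h3
    · exact absurd (Function.minimalPeriod_eq_one_iff_isFixedPt.1 h3) hx
    · exact h3
  have h3 := Function.iterate_injOn_Iio_minimalPeriod (f := f) (x := x)
  rw [h2] at h3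
  refine h3 hi hj ?_
  change f^[i] x = f^[j] x
  rw [← Equiv.Perm.coe_pow, ← Equiv.Perm.coe_pow]
  exact hij

private theorem B4_pow_ha {P Bl : Type} {I : P → Bl → Prop} (σ : Equiv.Perm P) (τ : Equiv.Perm Bl)
    (ha : ∀ p c, I (σ p) (τ c) ↔ I p c) (i : ℕ) : ∀ p c, I ((σ ^ i) p) ((τ ^ i) c) ↔ I p c := by
  induction i with
  | zero => exact fun p c => Iff.rfl
  | succ i ih =>
    intro p c
    rw [pow_succ, pow_succ, Equiv.Perm.mul_apply, Equiv.Perm.mul_apply, ih, ha]

private theorem B4_pow_hd {Bl : Type} {par : Bl → Bl → Prop} (he : Equivalence par)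
    (τ : Equiv.Perm Bl) (hd : ∀ c, par c (τ c)) (i : ℕ) : ∀ c, par c ((τ ^ i) c) := by
  induction i with
  | zero => exact fun c => he.refl c
  | succ i ih =>
    intro c
    rw [pow_succ, Equiv.Perm.mul_apply]
    exact he.trans (hd c) (ih (τ c))

theorem Par.dil_fix (h : Par I par k lam μ m r) (σ : Equiv.Perm P) (τ : Equiv.Perm Bl)
    (ha : ∀ p c, I (σ p) (τ c) ↔ I p c) (hd : ∀ c, par c (τ c)) (x : P) (hx : σ x = x)
    (c : Bl) (hc : I x c) : τ c = c := by
  have h1 : I x (τ c) := by
    have h2 := (ha x c).2 hc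
    rwa [hx] at h2
  rcases (h.par_iff c (τ c)).1 (hd c) with h2 | h2
  · exact h2.symm
  · exact absurd ⟨hc, h1⟩ (h2 x)

private theorem B4_aux (h : Par I par k lam μ m r) (hm : m.Prime) (σ : Equiv.Perm P)
    (τ : Equiv.Perm Bl) (ha : ∀ p c, I (σ p) (τ c) ↔ I p c) (hd : ∀ c, par c (τ c))
    (hfix : ∀ p, σ p ≠ p) (hσ : σ ^ m = 1) (hτ : τ ^ m = 1) :
    ∃ (P' : Type) (_ : Finite P') (π : P → P'), (∀ a : P', {p : P | π p = a}.ncard = m) ∧
      ∀ c : Bl, (∀ p p', π p = π p' → (I p c ↔ I p' c)) ∨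
        (∀ a : P', {p : P | π p = a ∧ I p c}.ncard = 1) := by
  classical
  have hmpos : 0 < m := hm.pos
  have hpa := B4_pow_ha σ τ ha
  have hpd := B4_pow_hd h.aff.equiv τ hd
  let s : Setoid P := {
    r := fun p q => ∃ i : ℕ, (σ ^ i) p = q
    iseqv := {
      refl := fun p => ⟨0, rfl⟩
      symm := by
        rintro p q ⟨i, rfl⟩
        refine ⟨(m - 1) * i, ?_⟩
        rw [← Equiv.Perm.mul_apply, ← pow_add]
        have e : (m - 1) * i + i = m * i := by
          obtain ⟨n, rfl⟩ : ∃ n, m = n + 1 := ⟨m - 1, by omega⟩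
          rw [Nat.add_sub_cancel]
          ring
        rw [e, pow_mul, hσ, one_pow]
        rfl
      trans := by
        rintro p q t ⟨i, rfl⟩ ⟨j, rfl⟩
        exact ⟨j + i, by rw [pow_add]; rfl⟩ } }
  have hs : ∀ p q : P, (Quotient.mk s p = Quotient.mk s q) ↔ ∃ i < m, (σ ^ i) p = q := by
    intro p q
    rw [Quotient.eq]
    constructor
    · rintro ⟨i, hi⟩
      exact ⟨i % m, Nat.mod_lt _ hmpos, by rw [← pow_eq_pow_mod i hσ]; exact hi⟩
    · rintro ⟨i, _, hi⟩
      exact ⟨i, hi⟩
  refine ⟨Quotient s, inferInstance, Quotient.mk s, ?_, fun c => ?_⟩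
  · intro a
    obtain ⟨p, rfl⟩ := Quotient.exists_rep a
    have h1 : {q : P | Quotient.mk s q = Quotient.mk s p} =
        ((Finset.range m).image fun i => (σ ^ i) p : Finset P) := by
      ext q
      rw [Finset.coe_image, Set.mem_image]
      constructor
      · intro hq
        obtain ⟨i, hi, h2⟩ := (hs p q).1 (Eq.symm hq)
        exact ⟨i, Finset.mem_coe.2 (Finset.mem_range.2 hi), h2⟩
      · rintro ⟨i, hi, h2⟩
        exact ((hs p q).2 ⟨i, Finset.mem_range.1 (Finset.mem_coe.1 hi), h2⟩).symm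
    rw [h1, Set.ncard_coe_finset, Finset.card_image_of_injOn, Finset.card_range]
    intro i hi j hj hij
    exact B4_free hm σ hσ (hfix p) (Finset.mem_range.1 (Finset.mem_coe.1 hi))
      (Finset.mem_range.1 (Finset.mem_coe.1 hj)) hij
  · by_cases hc : τ c = c
    · refine Or.inl fun p p' hpp => ?_
      obtain ⟨i, _, rfl⟩ := (hs p p').1 hpp
      have h1 : ∀ i : ℕ, (τ ^ i) c = c := by
        intro i
        induction i with
        | zero => rfl
        | succ i ih => rw [pow_succ, Equiv.Perm.mul_apply, hc, ih]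
      have h2 := hpa i p c
      rw [h1 i] at h2
      exact h2.symm
    · refine Or.inr fun a => ?_
      obtain ⟨p, rfl⟩ := Quotient.exists_rep a
      have hcls : ((Finset.range m).image fun i => (τ ^ i) c : Finset Bl) =
          ({d : Bl | par c d} : Set Bl) := by
        refine Set.eq_of_subset_of_ncard_le ?_ ?_ (Set.toFinite _)
        · intro d hd'
          rw [Finset.coe_image] at hd'
          obtain ⟨i, _, rfl⟩ := hd'
          exact hpd i c
        · rw [h.cls c, Set.ncard_coe_finset, Finset.card_image_of_injOn, Finset.card_range]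
          intro i hi j hj hij
          exact B4_free hm τ hτ hc (Finset.mem_range.1 (Finset.mem_coe.1 hi))
            (Finset.mem_range.1 (Finset.mem_coe.1 hj)) hij
      obtain ⟨d, ⟨hd1, hd2⟩, _⟩ := h.aff.euclid c p
      have hd3 : d ∈ ((((Finset.range m).image fun i => (τ ^ i) c : Finset Bl)) : Set Bl) := by
        rw [hcls]
        exact hd1
      rw [Finset.coe_image] at hd3
      obtain ⟨j, hj, rfl⟩ := hd3
      have hj' : j < m := Finset.mem_range.1 (Finset.mem_coe.1 hj)
      have h4 : I ((σ ^ (m - j)) p) c := by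
        have h5 := (hpa (m - j) p ((τ ^ j) c)).2 hd2
        rw [← Equiv.Perm.mul_apply (τ ^ (m - j)), ← pow_add, Nat.sub_add_cancel hj'.le, hτ] at h5
        exact h5
      have h6 : {q : P | Quotient.mk s q = Quotient.mk s p ∧ I q c} = {(σ ^ (m - j)) p} := by
        ext q
        rw [Set.mem_singleton_iff]
        constructor
        · rintro ⟨hq1, hq2⟩
          have h7 : Quotient.mk s ((σ ^ (m - j)) p) = Quotient.mk s q := by
            rw [hq1]
            exact (Quotient.sound (s := s) (show ∃ i : ℕ, (σ ^ i) p = (σ ^ (m - j)) p from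
              ⟨m - j, rfl⟩)).symm
          obtain ⟨i, hi, h8⟩ := (hs _ _).1 h7
          have h9 : I q ((τ ^ i) c) := by
            rw [← h8]
            exact (hpa i _ c).2 h4
          have h10 : (τ ^ i) c = c := by
            rcases (h.par_iff c ((τ ^ i) c)).1 (hpd i c) with h11 | h11
            · exact h11.symm
            · exact absurd ⟨hq2, h9⟩ (h11 q)
          have h12 : i = 0 := B4_free hm τ hτ hc hi hmpos (by rw [h10, pow_zero]; rfl)
          rw [← h8, h12]
          rfl
        · rintro rfl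
          exact ⟨(Quotient.sound (s := s) (show ∃ i : ℕ, (σ ^ i) p = (σ ^ (m - j)) p from
              ⟨m - j, rfl⟩)).symm, h4⟩
      rw [h6, Set.ncard_singleton]

theorem Par.exists_pi (h : Par I par k lam μ m r) (hm : m.Prime) (σ : Equiv.Perm P)
    (τ : Equiv.Perm Bl) (ha : ∀ p c, I (σ p) (τ c) ↔ I p c) (hd : ∀ c, par c (τ c))
    (hfix : ∀ p, σ p ≠ p) :
    ∃ (P' : Type) (_ : Finite P') (π : P → P'), (∀ a : P', {p : P | π p = a}.ncard = m) ∧
      ∀ c : Bl, (∀ p p', π p = π p' → (I p c ↔ I p' c)) ∨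
        (∀ a : P', {p : P | π p = a ∧ I p c}.ncard = 1) := by
  classical
  have hPpos : 0 < Nat.card P := by
    rw [h.hv]
    have h1 := h.aff.mu_pos
    have h2 := hm.pos
    positivity
  obtain ⟨p0⟩ : Nonempty P := (Nat.card_pos_iff.1 hPpos).1
  have hσ1 : σ ≠ 1 := fun h1 => hfix p0 (by rw [h1]; rfl)
  have hnpos : 0 < orderOf σ := orderOf_pos σ
  have hn1 : orderOf σ ≠ 1 := fun h1 => hσ1 (orderOf_eq_one_iff.1 h1)
  have hℓ : (orderOf σ).minFac.Prime := Nat.minFac_prime hn1
  set ℓ := (orderOf σ).minFac with hℓdef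
  obtain ⟨e, he⟩ : ℓ ∣ orderOf σ := Nat.minFac_dvd _
  have he0 : 0 < e := Nat.pos_of_ne_zero fun h0 => by rw [h0, mul_zero] at he; omega
  have hlt : e < orderOf σ := by
    rw [he]
    have := hℓ.two_le
    nlinarith
  have hpa := B4_pow_ha σ τ ha e
  have hpd := B4_pow_hd h.aff.equiv τ hd e
  have hfix' : ∀ p, (σ ^ e) p ≠ p := by
    intro x hx
    have hx2 : (σ ^ e) (σ x) = σ x := by
      rw [← Equiv.Perm.mul_apply, ← pow_succ, pow_succ', Equiv.Perm.mul_apply, hx]
    have h1 : ∀ y, (σ ^ e) y = y := h.hom_semireg (σ ^ e) (τ ^ e) hpa x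
      (fun c hc => h.dil_fix (σ ^ e) (τ ^ e) hpa hpd x hx c hc) (σ x) (hfix x) hx2
    have h2 : σ ^ e = 1 := Equiv.ext h1
    exact absurd (Nat.le_of_dvd he0 (orderOf_dvd_of_pow_eq_one h2)) (not_le.2 hlt)
  have hσℓ : (σ ^ e) ^ ℓ = 1 := by
    rw [← pow_mul, mul_comm, ← he, pow_orderOf_eq_one]
  have hτℓ : (τ ^ e) ^ ℓ = 1 := by
    refine Equiv.ext fun c => ?_
    refine h.ext_block _ _ fun p => ?_
    have h1 := B4_pow_ha (σ ^ e) (τ ^ e) hpa ℓ p c
    rw [hσℓ] at h1
    exact h1
  have hdvd := h.prime_dvd (σ ^ e) (τ ^ e) hpa ℓ hℓ hτℓ hfix'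
  have hlm : ℓ = m := (Nat.prime_dvd_prime_iff_eq hℓ hm).1 hdvd
  rw [hlm] at hσℓ hτℓ
  exact B4_aux h hm (σ ^ e) (τ ^ e) hpa hpd hfix' hσℓ hτℓ

end Pool.Agent.AF
end

section

/-!
# TASK AF B5: the quotient of an affine design by a spread of full parallel lines

`π : P → P'` has fibres with `m` points, and every block is either a union of fibres
('vertical') or meets every fibre in exactly one point ('transversal').

PROOF.  `π` is surjective (fibres are not empty), `Nat.card P' = Nat.card P / m = μ m`.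
(1) If `c` is vertical and `par c d` then `d` is vertical: for `d = c` clear; otherwise `c` and `d`
have no common point; take a point `p` of `c`; no point of its fibre is on `d`, so `d` is not
transversal.
(2) The number of vertical blocks through a point `p` is `lam`: let `p' ≠ p` be in the same fibre
(`m ≥ 2`).  A vertical block through `p` contains `p'`; a block through `p` and `p'` is not
transversal.  So the vertical blocks through `p` are the blocks through `p` and `p'`.
(3) `Bl' := {c : Bl // c vertical}`, `I' a c := ∃ p, π p = a ∧ I p c` (equivalently for all `p` with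
`π p = a`), `par' c d := par c d`.
* blocks: a vertical block has `μ m` points, so `μ` fibres: `k' := μ`.  `2 ≤ μ`, `μ < μ m`.
* two points `a ≠ a'` of `P'`, `p ∈ a`: for every `q ∈ a'` there are `lam` blocks through `p` and
  `q`.  Count the pairs `(q, c)`, `q ∈ a'`, `c` a block through `p` and `q`: `m * lam`.  A vertical
  block `c` through `p` which contains `a'` gives `m` pairs, a vertical block through `p` not
  containing `a'` gives none, a transversal block through `p` gives exactly one.  The number of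
  transversal blocks through `p` is `r - lam` by (2).  So `m * lam = m * x + (r - lam)`, `x` the
  number wanted; `r = m lam + 1`, so `m * x = lam - 1 = m * lam0`: `x = lam0`; here
  `lam = m lam0 + 1`, `μ = (m-1) lam0 + 1` (`Par.exists_lam0`), and `lam0 > 0` since `μ > 1`.
  `lam' := lam0`.
* `euclid`: for vertical `c` and `a = π p` the block `d` parallel to `c` through `p` is vertical
  by (1).
* two non-parallel vertical blocks (they exist: `lam ≥ 2` vertical blocks through a point, since
  `lam0 ≥ 1`) have `μ` common points, a union of fibres, so `m ∣ μ`, and `μ' := μ / m` common points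
  in the quotient.  `μ = m * μ'`, `μ' > 0`.
* classes of `par'`: by (1) the same as the classes of `par`: `m` blocks.
-/

namespace Pool.Agent.AF

variable {P Bl : Type} [Finite P] [Finite Bl] {I : P → Bl → Prop} {par : Bl → Bl → Prop}
  {k lam μ m r : ℕ}

private theorem B5_fiber {A Y : Type} [Finite A] [Finite Y] (g : A → Y) (n : ℕ)
    (h : ∀ y, {a : A | g a = y}.ncard = n) (T : Set Y) :
    {a : A | g a ∈ T}.ncard = n * T.ncard := by
  classical
  have := Fintype.ofFinite A
  have := Fintype.ofFinite Y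
  rw [Set.ncard_eq_toFinset_card', Set.ncard_eq_toFinset_card',
    Finset.card_eq_sum_card_fiberwise (f := g) (t := T.toFinset)]
  · rw [Finset.sum_const_nat (m := n), mul_comm]
    intro y hy
    have h1 := h y
    rw [Set.ncard_eq_toFinset_card'] at h1
    rw [← h1]
    congr 1
    ext a
    simp only [Finset.mem_filter, Set.mem_toFinset, Set.mem_ofPred_eq]
    constructor
    · exact fun h2 => h2.2
    · intro h2
      refine ⟨?_, h2⟩
      rw [h2]
      exact Set.mem_toFinset.1 hy
  · intro a ha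
    simpa using ha

/-- The map to the parallel classes. -/
private theorem B5_sub {α : Type} (V S : α → Prop) :
    {c : {c : α // V c} | S c.1}.ncard = {c : α | V c ∧ S c}.ncard := by
  have e1 : {c : α | V c ∧ S c} = Subtype.val '' {c : {c : α // V c} | S c.1} := by
    ext c
    constructor
    · rintro ⟨h1, h2⟩
      exact ⟨⟨c, h1⟩, h2, rfl⟩
    · rintro ⟨⟨d, h1⟩, h2, rfl⟩
      exact ⟨h1, h2⟩
  rw [e1, Set.ncard_image_of_injective _ Subtype.val_injective]

private theorem B5_ncard {α : Type} [Fintype α] (q : α → Prop) [DecidablePred q] :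
    {x | q x}.ncard = (Finset.univ.filter q).card := by
  rw [Set.ncard_eq_toFinset_card', Set.toFinset_ofPred]

/-- vertical blocks -/
private def B5_V {P P' Bl : Type} (I : P → Bl → Prop) (π : P → P') (c : Bl) : Prop :=
  ∀ p p', π p = π p' → (I p c ↔ I p' c)

private theorem B5_par (h : Par I par k lam μ m r) {P' : Type} (π : P → P')
    (hc : ∀ c : Bl, B5_V I π c ∨ (∀ a : P', {p : P | π p = a ∧ I p c}.ncard = 1)) {c d : Bl}
    (hV : B5_V I π c) (hcd : par c d) : B5_V I π d := by
  rcases (h.par_iff c d).1 hcd with rfl | hdis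
  · exact hV
  · rcases hc d with hd | hd
    · exact hd
    · exfalso
      have hne : {p : P | I p c}.Nonempty := by
        rw [Set.nonempty_iff_ne_empty]
        intro h0
        have h1 := h.aff.block c
        have h2 := h.aff.two_le
        rw [h0, Set.ncard_empty] at h1
        omega
      obtain ⟨p, hp⟩ := hne
      obtain ⟨q, hq⟩ := Set.ncard_eq_one.1 (hd (π p))
      have hq' : q ∈ {q' : P | π q' = π p ∧ I q' d} := by rw [hq]; rfl
      exact hdis q ⟨(hV p q hq'.1.symm).1 hp, hq'.2⟩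

private theorem B5_vp (h : Par I par k lam μ m r) {P' : Type} (π : P → P')
    (hπ : ∀ a : P', {p : P | π p = a}.ncard = m)
    (hc : ∀ c : Bl, B5_V I π c ∨ (∀ a : P', {p : P | π p = a ∧ I p c}.ncard = 1)) (p : P) :
    {c : Bl | B5_V I π c ∧ I p c}.ncard = lam := by
  have hm := h.m2
  have h1 : 1 < {q : P | π q = π p}.ncard := by rw [hπ]; omega
  obtain ⟨p', hp', hne⟩ := Set.exists_ne_of_one_lt_ncard h1 p
  rw [← h.aff.pair p p' hne.symm]
  congr 1
  ext c
  constructor
  · rintro ⟨hV, hp⟩
    exact ⟨hp, (hV p p' hp'.symm).1 hp⟩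
  · rintro ⟨hp, hpc'⟩
    refine ⟨?_, hp⟩
    rcases hc c with hV | hT
    · exact hV
    · exfalso
      obtain ⟨q, hq⟩ := Set.ncard_eq_one.1 (hT (π p))
      have e1 : p ∈ {q' : P | π q' = π p ∧ I q' c} := ⟨rfl, hp⟩
      have e2 : p' ∈ {q' : P | π q' = π p ∧ I q' c} := ⟨hp', hpc'⟩
      rw [hq] at e1 e2
      exact hne (e2.trans e1.symm)

private theorem B5_pair (h : Par I par k lam μ m r) {P' : Type} [Finite P'] (π : P → P')
    (hπ : ∀ a : P', {p : P | π p = a}.ncard = m)
    (hc : ∀ c : Bl, B5_V I π c ∨ (∀ a : P', {p : P | π p = a ∧ I p c}.ncard = 1)) (p : P) (a' : P')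
    (hne : π p ≠ a') :
    m * {c : Bl | B5_V I π c ∧ (I p c ∧ ∃ q, π q = a' ∧ I q c)}.ncard + 1 = lam := by
  classical
  have := Fintype.ofFinite P
  have := Fintype.ofFinite Bl
  have e0 : ∑ q ∈ Finset.univ.filter (fun q : P => π q = a'), (Finset.univ.filter fun c : Bl => I p c ∧ I q c).card =
      ∑ c : Bl, ((Finset.univ.filter (fun q : P => π q = a')).filter fun q : P => I p c ∧ I q c).card :=
    Finset.sum_card_bipartiteAbove_eq_sum_card_bipartiteBelow (fun (q : P) (c : Bl) => I p c ∧ I q c)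
  have e1 : ∑ q ∈ Finset.univ.filter (fun q : P => π q = a'), (Finset.univ.filter fun c : Bl => I p c ∧ I q c).card =
      m * lam := by
    rw [Finset.sum_congr rfl (g := fun _ => lam) (fun q hq => by
      rw [← B5_ncard]
      refine h.aff.pair p q ?_
      rintro rfl
      exact hne (Finset.mem_filter.1 hq).2), Finset.sum_const, smul_eq_mul, ← B5_ncard, hπ]
  have e2 : ∀ c : Bl, ((Finset.univ.filter (fun q : P => π q = a')).filter fun q : P => I p c ∧ I q c).card =
      (if B5_V I π c ∧ (I p c ∧ ∃ q, π q = a' ∧ I q c) then m else 0) +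
        (if I p c ∧ ¬ B5_V I π c then 1 else 0) := by
    intro c
    rw [Finset.filter_filter, ← B5_ncard]
    by_cases hp : I p c
    · by_cases hV : B5_V I π c
      · rw [if_neg (fun h : I p c ∧ ¬ B5_V I π c => h.2 hV), add_zero]
        by_cases hq : ∃ q, π q = a' ∧ I q c
        · rw [if_pos ⟨hV, hp, hq⟩, ← hπ a']
          congr 1
          ext q'
          obtain ⟨q, hq1, hq2⟩ := hq
          constructor
          · rintro ⟨h1, _⟩
            exact h1
          · intro h1
            exact ⟨h1, hp, (hV q q' (hq1.trans (Eq.symm h1))).1 hq2⟩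
        · rw [if_neg (fun h => hq h.2.2), Set.ncard_eq_zero (Set.toFinite _), Set.eq_empty_iff_forall_notMem]
          rintro q ⟨h1, _, h2⟩
          exact hq ⟨q, h1, h2⟩
      · rw [if_neg (fun h => hV h.1), if_pos ⟨hp, hV⟩, zero_add]
        rcases hc c with h1 | h1
        · exact absurd h1 hV
        · rw [← h1 a']
          congr 1
          ext q
          constructor
          · rintro ⟨h2, _, h3⟩
            exact ⟨h2, h3⟩
          · rintro ⟨h2, h3⟩
            exact ⟨h2, hp, h3⟩
    · rw [if_neg (fun h => hp h.2.1), if_neg (fun h => hp h.1), add_zero, Set.ncard_eq_zero (Set.toFinite _),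
        Set.eq_empty_iff_forall_notMem]
      rintro q ⟨_, h1, _⟩
      exact hp h1
  have e3 : {c : Bl | B5_V I π c ∧ I p c}.ncard + {c : Bl | I p c ∧ ¬ B5_V I π c}.ncard = r := by
    rw [← h.deg p, ← Set.ncard_union_eq ?_ (Set.toFinite _) (Set.toFinite _)]
    · congr 1
      ext c
      constructor
      · rintro (⟨h1, h2⟩ | ⟨h1, h2⟩)
        · exact h2
        · exact h1
      · intro h1
        by_cases h2 : B5_V I π c
        · exact Or.inl ⟨h2, h1⟩
        · exact Or.inr ⟨h1, h2⟩
    · rw [Set.disjoint_left]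
      rintro c ⟨h1, _⟩ ⟨_, h2⟩
      exact h2 h1
  rw [B5_vp h π hπ hc p] at e3
  rw [e1, Finset.sum_congr rfl (fun c _ => e2 c), Finset.sum_add_distrib, ← Finset.sum_filter, ← Finset.sum_filter,
    Finset.sum_const, Finset.sum_const, smul_eq_mul, smul_eq_mul, mul_one, ← B5_ncard, ← B5_ncard] at e0
  have hr := h.hr
  rw [mul_comm m {c : Bl | B5_V I π c ∧ (I p c ∧ ∃ q, π q = a' ∧ I q c)}.ncard]
  omega

theorem Par.quotient (h : Par I par k lam μ m r) (hmu : 1 < μ) {P' : Type} [Finite P']
    (π : P → P') (hπ : ∀ a : P', {p : P | π p = a}.ncard = m)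
    (hc : ∀ c : Bl, (∀ p p', π p = π p' → (I p c ↔ I p' c)) ∨
        (∀ a : P', {p : P | π p = a ∧ I p c}.ncard = 1)) :
    ∃ (Bl' : Type) (_ : Finite Bl') (I' : P' → Bl' → Prop) (par' : Bl' → Bl' → Prop)
      (k' lam' μ' : ℕ), IsAffine I' par' k' lam' μ' ∧ μ = m * μ' ∧
        (∀ c : Bl', {d : Bl' | par' c d}.ncard = m) ∧ Nat.card P' < Nat.card P := by
  have hc' : ∀ c : Bl, B5_V I π c ∨ (∀ a : P', {p : P | π p = a ∧ I p c}.ncard = 1) := hc
  have hm := h.m2
  have hfib := fun T => B5_fiber π m hπ T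
  have hcard : m * Nat.card P' = Nat.card P := by
    have h1 := hfib Set.univ
    rw [Set.ncard_univ] at h1
    rw [← h1, ← Set.ncard_univ]
    rfl
  have hcP : Nat.card P' = μ * m := by
    have h1 : m * Nat.card P' = m * (μ * m) := by rw [hcard, h.hv]; ring
    exact Nat.eq_of_mul_eq_mul_left (by omega) h1
  obtain ⟨lam0, hl1, hl2⟩ := h.exists_lam0
  have hl0 : 0 < lam0 := by
    rcases Nat.eq_zero_or_pos lam0 with h0 | h0
    · rw [h0] at hl2
      omega
    · exact h0
  have hsurj : ∀ a : P', ∃ p, π p = a := by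
    intro a
    have h1 : {p : P | π p = a}.Nonempty := by
      rw [Set.nonempty_iff_ne_empty]
      intro h0
      have h1 := hπ a
      rw [h0, Set.ncard_empty] at h1
      omega
    exact h1
  have hI' : ∀ (c : Bl), B5_V I π c → ∀ p, (∃ q, π q = π p ∧ I q c) ↔ I p c := by
    intro c hV p
    constructor
    · rintro ⟨q, h1, h2⟩
      exact (hV q p h1).1 h2
    · intro h1
      exact ⟨p, rfl, h1⟩
  have hmeet : ∀ c d : Bl, B5_V I π c → B5_V I π d → ¬ par c d →
      m * {a : P' | (∃ p, π p = a ∧ I p c) ∧ (∃ p, π p = a ∧ I p d)}.ncard = μ := by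
    intro c d hVc hVd hcd
    rw [← hfib, ← h.aff.meet c d hcd]
    congr 1
    ext p
    exact and_congr (hI' c hVc p) (hI' d hVd p)
  -- two vertical blocks which are not parallel
  have hex : ∃ c d : Bl, B5_V I π c ∧ B5_V I π d ∧ ¬ par c d := by
    have hP : 0 < Nat.card P := by rw [h.hv]; positivity
    have hne : Nonempty P := (Nat.card_pos_iff.1 hP).1
    obtain ⟨p⟩ := hne
    have h1 : 1 < {c : Bl | B5_V I π c ∧ I p c}.ncard := by
      rw [B5_vp h π hπ hc' p, hl1]
      have : 0 < m * lam0 := Nat.mul_pos (by omega) hl0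
      omega
    obtain ⟨c, hcS, d, hdS, hcd⟩ := (Set.one_lt_ncard (Set.toFinite _)).1 h1
    refine ⟨c, d, hcS.1, hdS.1, ?_⟩
    intro hpar
    rcases (h.par_iff c d).1 hpar with h2 | h2
    · exact hcd h2
    · exact h2 p ⟨hcS.2, hdS.2⟩
  obtain ⟨c₀, d₀, hc₀, hd₀, hcd₀⟩ := hex
  obtain ⟨μ', hμ'⟩ : ∃ μ', {a : P' | (∃ p, π p = a ∧ I p c₀) ∧ (∃ p, π p = a ∧ I p d₀)}.ncard = μ' := ⟨_, rfl⟩
  have hμ : m * μ' = μ := by
    rw [← hμ']
    exact hmeet c₀ d₀ hc₀ hd₀ hcd₀
  have hm0 : 0 < m := by omega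
  refine ⟨{c : Bl // B5_V I π c}, inferInstance, fun a c => ∃ p, π p = a ∧ I p c.1,
    fun c d => par c.1 d.1, μ, lam0, μ', ?_, hμ.symm, ?_, ?_⟩
  · refine ⟨by omega, ?_, hl0, ?_, ?_, ?_, ?_, ?_, ?_⟩
    · rw [hcP]
      nlinarith
    · rintro ⟨c, hV⟩
      have h1 : m * {a : P' | ∃ p, π p = a ∧ I p c}.ncard = m * μ := by
        rw [← hfib, mul_comm m μ, ← h.hk, ← h.aff.block c]
        congr 1
        ext p
        exact hI' c hV p
      exact Nat.eq_of_mul_eq_mul_left hm0 h1
    · intro a a' haa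
      obtain ⟨p, rfl⟩ := hsurj a
      have h1 := B5_pair h π hπ hc' p a' haa
      have h2 : {c : {c : Bl // B5_V I π c} | (∃ q, π q = π p ∧ I q c.1) ∧ ∃ q, π q = a' ∧ I q c.1}.ncard =
          {c : Bl | B5_V I π c ∧ (I p c ∧ ∃ q, π q = a' ∧ I q c)}.ncard := by
        rw [B5_sub (B5_V I π) (fun c => (∃ q, π q = π p ∧ I q c) ∧ ∃ q, π q = a' ∧ I q c)]
        congr 1
        ext c
        refine and_congr_right fun hV => and_congr_left fun _ => ?_
        exact hI' c hV p
      rw [h2]
      have h3 : m * {c : Bl | B5_V I π c ∧ (I p c ∧ ∃ q, π q = a' ∧ I q c)}.ncard = m * lam0 := by omega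
      exact Nat.eq_of_mul_eq_mul_left hm0 h3
    · exact ⟨fun c => h.aff.equiv.refl _, fun hcd => h.aff.equiv.symm hcd,
        fun h1 h2 => h.aff.equiv.trans h1 h2⟩
    · rintro ⟨c, hV⟩ a
      obtain ⟨p, rfl⟩ := hsurj a
      obtain ⟨d, ⟨hd1, hd2⟩, hd3⟩ := h.aff.euclid c p
      have hVd := B5_par h π hc' hV hd1
      refine ⟨⟨d, hVd⟩, ⟨hd1, (hI' d hVd p).2 hd2⟩, ?_⟩
      rintro ⟨e, hVe⟩ ⟨he1, he2⟩
      exact Subtype.ext (hd3 e ⟨he1, (hI' e hVe p).1 he2⟩)
    · rcases Nat.eq_zero_or_pos μ' with h0 | h0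
      · rw [h0] at hμ
        omega
      · exact h0
    · rintro ⟨c, hVc⟩ ⟨d, hVd⟩ hcd
      have h1 : m * {a : P' | (∃ p, π p = a ∧ I p c) ∧ (∃ p, π p = a ∧ I p d)}.ncard = m * μ' := by
        rw [hμ]
        exact hmeet c d hVc hVd hcd
      exact Nat.eq_of_mul_eq_mul_left hm0 h1
  · rintro ⟨c, hV⟩
    rw [← h.cls c, B5_sub (B5_V I π) (fun d => par c d)]
    congr 1
    ext d
    exact ⟨fun h1 => h1.2, fun h1 => ⟨B5_par h π hc' hV h1, h1⟩⟩
  · rw [← hcard]
    have h1 : 0 < Nat.card P' := by rw [hcP]; positivity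
    nlinarith

end Pool.Agent.AF
end

section

/-!
# TASK AF B7: lines have at most `m` points; one homothety is enough if `m - 1` is prime

The line through `x` and `q` is `{z | ∀ c, I x c → I q c → I z c}`.  Write `b y z` for the set of
blocks through `y` and `z`, `lam` elements if `y ≠ z`.

PROOF of `line_le`.  If `y ≠ z` are two points of the line `x q` then `b x q ⊆ b y z`, so
`b x q = b y z`.  There is a block `c` through `x`, not through `q` (`r > lam`).  Map every point `z`
of the line to the block of the class of `c` through `z` (`euclid`).  This is injective: if `y ≠ z`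
are on `d`, `par c d`, then `d ∈ b y z = b x q`, so `x` is on `d`, `d = c` (`par_iff`), `q` is on `c`,
contradiction.  The class of `c` has `m` blocks (`h.cls`).

PROOF of `full_of_hom`.  `(σ, τ)` fixes every block through `x`, `σ ≠ 1`.
(1) If `σ ^ i ≠ 1` (as a permutation of the points) then `σ ^ i` has no fixed point except `x`
(`Par.hom_center`, `Par.hom_semireg` for `(σ^i, τ^i)`).
(2) If `σ ^ i ≠ 1` then `τ ^ i` fixes no block `d` with `¬ I x d`: let `y` be a point of `d`; then
`y ≠ x`, `σ^i y ≠ y` by (1), and `σ^i y` is on `τ^i d = d`.  The blocks through `x` and `y` are fixed by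
`τ ^ i`, so they contain `σ^i y`: `b x y ⊆ b y (σ^i y)`, equal by cardinality.  So `d ∈ b x y`,
contradiction.
(3) Let `n` be the order of `σ`, `n > 1`.  Take a block `c0` through `x`.  The set
`S = {d | par c0 d, d ≠ c0}` has `m - 1` elements, none of them contains `x`, and `τ` maps `S` to
itself (`par_map`, `τ c0 = c0`).  `τ ^ n = 1` (blocks are determined by their points), and `τ ^ i`,
`0 < i < n`, has no fixed point in `S`.  So all `τ`-orbits on `S` have length `n`, `n ∣ m - 1`.
`m - 1` is prime, so `n = m - 1`.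
(4) Let `q ≠ x`.  The points `σ^i q`, `0 ≤ i < m - 1`, are pairwise different by (1), different from
`x`, and they are on the line `x q` (the blocks through `x` and `q` are fixed).  So the line has at
least `m` points, and at most `m` by `line_le`.
-/

namespace Pool.Agent.AF

variable {P Bl : Type} [Finite P] [Finite Bl] {I : P → Bl → Prop} {par : Bl → Bl → Prop}
  {k lam μ m r : ℕ}

theorem Par.line_le (h : Par I par k lam μ m r) (x q : P) (hq : q ≠ x) :
    {z : P | ∀ c, I x c → I q c → I z c}.ncard ≤ m := by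
  classical
  have hlr : lam < r := by
    have h1 := h.hr
    have h2 := h.m2
    have h3 := h.aff.lam_pos
    nlinarith
  have hex : ∃ c, I x c ∧ ¬ I q c := by
    by_contra hcon
    have h1 : {c : Bl | I x c} ⊆ {c : Bl | I x c ∧ I q c} := by
      intro c hc
      refine ⟨hc, ?_⟩
      by_contra h2
      exact hcon ⟨c, hc, h2⟩
    have h2 := Set.ncard_le_ncard h1 (Set.toFinite _)
    rw [h.deg x, h.aff.pair x q hq.symm] at h2
    omega
  obtain ⟨c, hxc, hqc⟩ := hex
  have hf : ∀ z : P, ∃ d, par c d ∧ I z d := fun z => (h.aff.euclid c z).exists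
  choose f hf1 hf2 using hf
  rw [← h.cls c]
  refine Set.ncard_le_ncard_of_injOn f (fun z _ => hf1 z) ?_ (Set.toFinite _)
  intro y hy z hz hyz
  by_contra hne
  have h1 : {e : Bl | I x e ∧ I q e} = {e : Bl | I y e ∧ I z e} := by
    refine Set.eq_of_subset_of_ncard_le ?_ ?_ (Set.toFinite _)
    · rintro e ⟨he1, he2⟩
      exact ⟨hy e he1 he2, hz e he1 he2⟩
    · rw [h.aff.pair x q hq.symm, h.aff.pair y z hne]
  have h2 : f y ∈ {e : Bl | I y e ∧ I z e} := ⟨hf2 y, by rw [hyz]; exact hf2 z⟩
  rw [← h1] at h2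
  rcases (h.par_iff c (f y)).1 (hf1 y) with h3 | h3
  · exact hqc (by rw [h3]; exact h2.2)
  · exact h3 x ⟨hxc, h2.1⟩

/-- The group of the automorphisms which fix all blocks through `x`. -/
private def B7_H (I : P → Bl → Prop) (x : P) : Subgroup (Equiv.Perm P × Equiv.Perm Bl) where
  carrier := {g | (∀ p c, I (g.1 p) (g.2 c) ↔ I p c) ∧ ∀ c, I x c → g.2 c = c}
  one_mem' := ⟨fun _ _ => Iff.rfl, fun _ _ => rfl⟩
  mul_mem' := by
    rintro g g' ⟨h1, h2⟩ ⟨h1', h2'⟩
    refine ⟨fun p c => ?_, fun c hc => ?_⟩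
    · show I (g.1 (g'.1 p)) (g.2 (g'.2 c)) ↔ _
      rw [h1, h1']
    · show g.2 (g'.2 c) = c
      rw [h2' c hc, h2 c hc]
  inv_mem' := by
    rintro g ⟨h1, h2⟩
    refine ⟨fun p c => ?_, fun c hc => ?_⟩
    · show I (g.1.symm p) (g.2.symm c) ↔ _
      rw [← h1, Equiv.apply_symm_apply, Equiv.apply_symm_apply]
    · show g.2⁻¹ c = c
      rw [Equiv.Perm.inv_eq_iff_eq, h2 c hc]

private theorem B7_one (h : Par I par k lam μ m r) (x : P) (g : Equiv.Perm P × Equiv.Perm Bl)
    (hg : g ∈ B7_H I x) (q : P) (hq : q ≠ x) (hgq : g.1 q = q) : g = 1 := by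
  obtain ⟨h1, h2⟩ := hg
  have h3 := h.hom_semireg g.1 g.2 h1 x h2 q hq hgq
  refine Prod.ext (Equiv.ext h3) (Equiv.ext fun c => ?_)
  show g.2 c = c
  refine h.ext_block _ _ fun p => ?_
  rw [← h1 p c, h3 p]

private theorem B7_blk (h : Par I par k lam μ m r) (x : P) (g : Equiv.Perm P × Equiv.Perm Bl)
    (hg : g ∈ B7_H I x) (d : Bl) (hd : ¬ I x d) (hgd : g.2 d = d) : g = 1 := by
  by_contra hg1
  have hne : {p : P | I p d}.Nonempty := by
    rw [Set.nonempty_iff_ne_empty]
    intro h0
    have h1 := h.aff.block d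
    have h2 := h.aff.two_le
    rw [h0, Set.ncard_empty] at h1
    omega
  obtain ⟨y, hy⟩ := hne
  have hyx : y ≠ x := by
    rintro rfl
    exact hd hy
  have hgy : g.1 y ≠ y := fun h4 => hg1 (B7_one h x g hg y hyx h4)
  obtain ⟨h1, h2⟩ := hg
  have h3 : {e : Bl | I x e ∧ I y e} = {e : Bl | I y e ∧ I (g.1 y) e} := by
    refine Set.eq_of_subset_of_ncard_le ?_ ?_ (Set.toFinite _)
    · rintro e ⟨he1, he2⟩
      refine ⟨he2, ?_⟩
      have h4 := (h1 y e).2 he2
      rwa [h2 e he1] at h4
    · rw [h.aff.pair x y hyx.symm, h.aff.pair y (g.1 y) hgy.symm]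
  have h4 : d ∈ {e : Bl | I y e ∧ I (g.1 y) e} := by
    refine ⟨hy, ?_⟩
    have h5 := (h1 y d).2 hy
    rwa [hgd] at h5
  rw [← h3] at h4
  exact hd h4.1

private theorem B7_dvd (h : Par I par k lam μ m r) (x : P) :
    Nat.card (B7_H I x) ∣ m - 1 := by
  classical
  have := Fintype.ofFinite P
  have := Fintype.ofFinite Bl
  have hne : {c : Bl | I x c}.Nonempty := by
    rw [Set.nonempty_iff_ne_empty]
    intro h0
    have h1 := h.deg x
    have h2 := h.hr
    rw [h0, Set.ncard_empty] at h1
    omega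
  obtain ⟨c0, hc0⟩ := hne
  have hc0' : I x c0 := hc0
  have hS : ∀ d, par c0 d ∧ d ≠ c0 → ¬ I x d := by
    rintro d ⟨h1, h2⟩ h3
    rcases (h.par_iff c0 d).1 h1 with h4 | h4
    · exact h2 h4.symm
    · exact h4 x ⟨hc0', h3⟩
  let act : MulAction (B7_H I x) {d : Bl // par c0 d ∧ d ≠ c0} :=
    { smul := fun g d => ⟨g.1.2 d.1, by
        have h5 := (h.par_map g.1.1 g.1.2 g.2.1 c0 d.1).2 d.2.1
        rw [g.2.2 c0 hc0'] at h5
        refine ⟨h5, fun h6 => d.2.2 (g.1.2.injective ?_)⟩
        rw [g.2.2 c0 hc0']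
        exact h6⟩
      one_smul := fun d => rfl
      mul_smul := fun g g' d => rfl }
  have hst : ∀ d : {d : Bl // par c0 d ∧ d ≠ c0}, MulAction.stabilizer (B7_H I x) d = ⊥ := by
    intro d
    rw [eq_bot_iff]
    intro g hg
    have h1 : g • d = d := hg
    have h2 : g.1.2 d.1 = d.1 := congrArg Subtype.val h1
    exact Subgroup.mem_bot.2 (Subtype.ext (B7_blk h x g.1 g.2 d.1 (hS d.1 d.2) h2))
  have hcard := MulAction.card_eq_sum_card_group_div_card_stabilizer (B7_H I x)
    {d : Bl // par c0 d ∧ d ≠ c0}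
  have hS2 : Fintype.card {d : Bl // par c0 d ∧ d ≠ c0} = m - 1 := by
    rw [← Nat.card_eq_fintype_card]
    have h1 : Nat.card {d : Bl // par c0 d ∧ d ≠ c0} = ({d : Bl | par c0 d} \ {c0}).ncard :=
      Nat.card_coe_set_eq _
    have h2 := Set.ncard_sdiff_singleton_add_one (s := {d : Bl | par c0 d}) (a := c0)
      (h.aff.equiv.refl c0) (Set.toFinite _)
    rw [h.cls c0] at h2
    omega
  rw [hS2] at hcard
  rw [hcard]
  refine Finset.dvd_sum ?_
  intro ω _
  have h1 : Fintype.card (MulAction.stabilizer (B7_H I x) ω.out) = 1 := by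
    rw [← Nat.card_eq_fintype_card, hst, Subgroup.card_bot]
  rw [h1, Nat.div_one, Nat.card_eq_fintype_card]

theorem Par.full_of_card (h : Par I par k lam μ m r) (x : P)
    (hcard : Nat.card (B7_H I x) = m - 1) (q : P) (hq : q ≠ x) :
    {z : P | ∀ c, I x c → I q c → I z c}.ncard = m := by
  refine le_antisymm (h.line_le x q hq) ?_
  have hx0 : ∀ g ∈ B7_H I x, g.1 x = x := fun g hg => h.hom_center g.1 g.2 hg.1 x hg.2
  have hinj : Function.Injective (fun g : B7_H I x => g.1.1 q) := by
    intro g g' hgg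
    have h1 : (g⁻¹ * g').1.1 q = q := by
      show g.1.1⁻¹ (g'.1.1 q) = q
      rw [Equiv.Perm.inv_eq_iff_eq]
      exact hgg.symm
    have h2 := B7_one h x (g⁻¹ * g').1 (g⁻¹ * g').2 q hq h1
    have h3 : g⁻¹ * g' = 1 := Subtype.ext h2
    exact inv_mul_eq_one.1 h3
  have hsub : Set.range (fun g : B7_H I x => g.1.1 q) ⊆ {z : P | ∀ c, I x c → I q c → I z c} \ {x} := by
    rintro _ ⟨g, rfl⟩
    refine ⟨?_, ?_⟩
    · intro c hc1 hc2
      have h1 := (g.2.1 q c).2 hc2
      rwa [g.2.2 c hc1] at h1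
    · intro h1
      have h2 : g.1.1 q = g.1.1 x := by
        rw [hx0 g.1 g.2]
        exact h1
      exact hq (g.1.1.injective h2)
  have h1 := Set.ncard_le_ncard hsub (Set.toFinite _)
  have h2 : (Set.range (fun g : B7_H I x => g.1.1 q)).ncard = m - 1 := by
    rw [← Set.image_univ, Set.ncard_image_of_injective _ hinj, Set.ncard_univ, hcard]
  have h3 := Set.ncard_sdiff_singleton_add_one (s := {z : P | ∀ c, I x c → I q c → I z c}) (a := x)
    (fun c h1 _ => h1) (Set.toFinite _)
  omega

/-- The number of homotheties with centre `x`, as permutations of the points. -/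
theorem Par.card_hom (h : Par I par k lam μ m r) (x : P) :
    {σ : Equiv.Perm P | ∃ τ : Equiv.Perm Bl, (∀ p c, I (σ p) (τ c) ↔ I p c) ∧
      ∀ c, I x c → τ c = c}.ncard = Nat.card (B7_H I x) := by
  have h1 : {σ : Equiv.Perm P | ∃ τ : Equiv.Perm Bl, (∀ p c, I (σ p) (τ c) ↔ I p c) ∧
      ∀ c, I x c → τ c = c} = Prod.fst '' (B7_H I x : Set (Equiv.Perm P × Equiv.Perm Bl)) := by
    ext σ
    constructor
    · rintro ⟨τ, h1, h2⟩
      exact ⟨(σ, τ), ⟨h1, h2⟩, rfl⟩
    · rintro ⟨⟨σ', τ⟩, ⟨h1, h2⟩, rfl⟩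
      exact ⟨τ, h1, h2⟩
  rw [h1, Set.ncard_image_of_injOn]
  · exact (Nat.card_coe_set_eq _).symm
  · rintro ⟨σ, τ⟩ ⟨h2, _⟩ ⟨σ', τ'⟩ ⟨h3, _⟩ he
    have he' : σ = σ' := he
    subst he'
    refine Prod.ext rfl (Equiv.ext fun c => ?_)
    show τ c = τ' c
    refine h.ext_block _ _ fun p => ?_
    obtain ⟨y, rfl⟩ := σ.surjective p
    rw [show I (σ y) (τ c) ↔ I y c from h2 y c, show I (σ y) (τ' c) ↔ I y c from h3 y c]

/-- `|H| ∣ m - 1` for the number of homotheties with one centre. -/
theorem Par.hom_dvd (h : Par I par k lam μ m r) (x : P) :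
    {σ : Equiv.Perm P | ∃ τ : Equiv.Perm Bl, (∀ p c, I (σ p) (τ c) ↔ I p c) ∧
      ∀ c, I x c → τ c = c}.ncard ∣ m - 1 := by
  rw [h.card_hom x]
  exact B7_dvd h x

/-- Many homotheties: all lines through the centre are full. -/
theorem Par.full_of_many (h : Par I par k lam μ m r) (x : P) (N : ℕ)
    (hN : {σ : Equiv.Perm P | ∃ τ : Equiv.Perm Bl, (∀ p c, I (σ p) (τ c) ↔ I p c) ∧
      ∀ c, I x c → τ c = c}.ncard = N)
    (hh : m - 1 < 2 * N ∨ ((m - 1).Prime ∧ 1 < N)) (q : P) (hq : q ≠ x) :
    {z : P | ∀ c, I x c → I q c → I z c}.ncard = m := by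
  have hd := h.hom_dvd x
  rw [hN] at hd
  have hm2 := h.m2
  refine h.full_of_card x ?_ q hq
  rw [← h.card_hom x, hN]
  rcases hh with hh | ⟨hpr, h1⟩
  · obtain ⟨t, ht⟩ := hd
    rcases Nat.lt_or_ge t 2 with h2 | h2
    · interval_cases t
      · omega
      · omega
    · have h3 : N * 2 ≤ N * t := Nat.mul_le_mul_left N h2
      omega
  · rcases (Nat.dvd_prime hpr).1 hd with h2 | h2
    · omega
    · exact h2

theorem Par.full_of_hom (h : Par I par k lam μ m r) (hm : (m - 1).Prime) (σ : Equiv.Perm P)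
    (τ : Equiv.Perm Bl) (ha : ∀ p c, I (σ p) (τ c) ↔ I p c) (x : P) (hx : ∀ c, I x c → τ c = c)
    (hne : ∃ y, σ y ≠ y) (q : P) (hq : q ≠ x) :
    {z : P | ∀ c, I x c → I q c → I z c}.ncard = m := by
  refine le_antisymm (h.line_le x q hq) ?_
  have hg : (σ, τ) ∈ B7_H I x := ⟨ha, hx⟩
  have hcard : Nat.card (B7_H I x) = m - 1 := by
    rcases (Nat.dvd_prime hm).1 (B7_dvd h x) with h1 | h1
    · exfalso
      have h2 : Subsingleton (B7_H I x) := (Nat.card_eq_one_iff_unique.1 h1).1
      have h3 : (⟨(σ, τ), hg⟩ : B7_H I x) = 1 := Subsingleton.elim _ _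
      have h4 : (σ, τ) = 1 := congrArg Subtype.val h3
      obtain ⟨y, hy⟩ := hne
      exact hy (by rw [show σ = 1 from congrArg Prod.fst h4]; rfl)
    · exact h1
  exact (h.full_of_card x hcard q hq).ge

end Pool.Agent.AF
end

section

/-!
# TASK AF A6: `m - 1` homotheties at one point give the companion symmetric design

`H` acts on points and blocks, preserves incidence, is faithful on points, fixes every block
through `x`, and `|H| = m - 1`.

PROOF. By `hom_center`/`hom_semireg` (applied to `MulAction.toPerm g`) `g • q = q` with `q ≠ x`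
implies `g = 1`; `g • x = x`.  `H` is finite (`Nat.card H = m - 1 ≥ 1`).
`X := {c : Bl // I x c}` (`r` elements, `h.deg`).
`Y := ` the set of `H`-orbits on `{q : P // q ≠ x}`, e.g. the quotient of `{q : P // q ≠ x}` by
`q ~ q' ↔ ∃ g : H, g • q = q'`.
Every orbit has exactly `m - 1` elements (free action), and `Nat.card P - 1 = (m - 1) r`
(from `hv`, `hr`, `hlam`), so `Nat.card Y = r`.
`R c [q] := I q c` (well defined: `g • c = c` for `c ∋ x`).
* `blk`: for `q ≠ x` the blocks through `x` and `q`: `lam`.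
* `deg`: `c ∋ x`: the points `q ≠ x` of `c`: `k - 1 = μ m - 1 = lam (m - 1)`, so `lam` orbits.
* `two`: `c ≠ c'` through `x`: `¬ par c c'` (`par_iff`), they have `μ` common points, one is `x`;
  `μ - 1 = (m - 1) lam0`, so `lam0` orbits.
-/

namespace Pool.Agent.AF

variable {P Bl : Type} [Finite P] [Finite Bl] {I : P → Bl → Prop} {par : Bl → Bl → Prop}
  {k lam μ m r : ℕ}

/-- the orbit relation on the points different from `x` -/
private def A6_setoid {P H : Type} [Group H] [MulAction H P] (x : P) : Setoid {q : P // q ≠ x} where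
  r q q' := ∃ g : H, g • q.1 = q'.1
  iseqv :=
    { refl := fun q => ⟨1, one_smul _ _⟩
      symm := fun {q q'} ⟨g, hg⟩ => ⟨g⁻¹, by rw [← hg, inv_smul_smul]⟩
      trans := fun {q q' q''} ⟨g, hg⟩ ⟨g', hg'⟩ => ⟨g' * g, by rw [mul_smul, hg, hg']⟩ }

private theorem A6_count {P H : Type} [Group H] [MulAction H P] (x : P)
    (hgx : ∀ g : H, g • x = x) (hfree : ∀ (g : H) (q : P), q ≠ x → g • q = q → g = 1)
    (S : Set P) (hS : x ∉ S) (T : Set (Quotient (A6_setoid (H := H) x)))
    (hST : ∀ q : {q : P // q ≠ x}, q.1 ∈ S ↔ Quotient.mk (A6_setoid (H := H) x) q ∈ T) :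
    S.ncard = Nat.card H * T.ncard := by
  have hne : ∀ (g : H) (q : {q : P // q ≠ x}), g • q.1 ≠ x := by
    intro g q h
    apply q.2
    have h1 : g⁻¹ • (g • q.1) = g⁻¹ • x := by rw [h]
    rwa [inv_smul_smul, hgx] at h1
  have hcls : ∀ (g : H) (q : {q : P // q ≠ x}),
      Quotient.mk (A6_setoid (H := H) x) ⟨g • q.1, hne g q⟩ = Quotient.mk _ q := by
    intro g q
    apply Quotient.sound
    exact ⟨g⁻¹, inv_smul_smul g q.1⟩
  have hmem : ∀ (g : H) (y : T), g • (Quotient.out y.1).1 ∈ S := by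
    intro g y
    have h1 := (hST ⟨g • (Quotient.out y.1).1, hne g _⟩).2
    apply h1
    rw [hcls, Quotient.out_eq]
    exact y.2
  let f : H × T → S := fun z => ⟨z.1 • (Quotient.out z.2.1).1, hmem z.1 z.2⟩
  have hf : Function.Bijective f := by
    constructor
    · rintro ⟨g, y⟩ ⟨g', y'⟩ h
      have h1 : g • (Quotient.out y.1).1 = g' • (Quotient.out y'.1).1 := congrArg Subtype.val h
      have h2 : y.1 = y'.1 := by
        have h3 : Quotient.mk (A6_setoid (H := H) x) ⟨g • (Quotient.out y.1).1, hne g _⟩ =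
            Quotient.mk _ ⟨g' • (Quotient.out y'.1).1, hne g' _⟩ := by
          congr 1
          exact Subtype.ext h1
        rwa [hcls, hcls, Quotient.out_eq, Quotient.out_eq] at h3
      have h4 : y = y' := Subtype.ext h2
      subst h4
      have h5 : (g'⁻¹ * g) • (Quotient.out y.1).1 = (Quotient.out y.1).1 := by
        rw [mul_smul, h1, inv_smul_smul]
      have h6 := hfree _ _ (Quotient.out y.1).2 h5
      have h7 : g = g' := by
        have := congrArg (fun a => g' * a) h6
        simpa using this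
      rw [h7]
    · rintro ⟨q, hq⟩
      have hqx : q ≠ x := fun h => hS (h ▸ hq)
      have hT := (hST ⟨q, hqx⟩).1 hq
      have h1 : (A6_setoid (H := H) x).r
          (Quotient.out (Quotient.mk (A6_setoid (H := H) x) ⟨q, hqx⟩)) ⟨q, hqx⟩ :=
        Quotient.exact (Quotient.out_eq _)
      obtain ⟨g, hg⟩ := h1
      exact ⟨(g, ⟨_, hT⟩), Subtype.ext hg⟩
  have h1 := Nat.card_congr (Equiv.ofBijective f hf)
  rw [Nat.card_prod, Nat.card_coe_set_eq, Nat.card_coe_set_eq] at h1
  exact h1.symm

theorem Par.homothety (h : Par I par k lam μ m r) (H : Type) [Group H] [MulAction H P]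
    [MulAction H Bl] (ha : ∀ (g : H) (p : P) (c : Bl), I (g • p) (g • c) ↔ I p c)
    (hfaith : ∀ g : H, (∀ p : P, g • p = p) → g = 1) (x : P)
    (hx : ∀ (g : H) (c : Bl), I x c → g • c = c) (hcard : Nat.card H + 1 = m)
    (lam0 : ℕ) (hl : lam = m * lam0 + 1) (hmu : μ = (m - 1) * lam0 + 1) :
    ∃ (X Y : Type) (R : X → Y → Prop), IsSym X Y R r lam lam0 := by
  classical
  have hgx : ∀ g : H, g • x = x := fun g =>
    h.hom_center (MulAction.toPerm g) (MulAction.toPerm g) (fun p c => ha g p c) x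
      (fun c hc => hx g c hc)
  have hfree : ∀ (g : H) (q : P), q ≠ x → g • q = q → g = 1 := by
    intro g q hq hgq
    apply hfaith
    intro y
    exact h.hom_semireg (MulAction.toPerm g) (MulAction.toPerm g) (fun p c => ha g p c) x
      (fun c hc => hx g c hc) q hq hgq y
  have hcount := A6_count (P := P) (H := H) x hgx hfree
  have hm2 := h.m2
  obtain ⟨n, hn⟩ : ∃ n, m = n + 2 := ⟨m - 2, by omega⟩
  have hHc : Nat.card H = n + 1 := by omega
  rw [hHc] at hcount
  have hk := h.hk
  have hv := h.hv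
  have hr := h.hr
  have hlam := h.hlam
  subst hn
  let X : Type := {c : Bl // I x c}
  let Y : Type := Quotient (A6_setoid (H := H) x)
  have hinv : ∀ (c : X) (g : H) (q : P), I (g • q) c.1 ↔ I q c.1 := by
    intro c g q
    have h1 := ha g q c.1
    rwa [hx g c.1 c.2] at h1
  let R : X → Y → Prop := fun c y => Quotient.lift (fun q : {q : P // q ≠ x} => I q.1 c.1)
    (fun q q' hqq => by
      obtain ⟨g, hg⟩ := hqq
      rw [← hg]
      exact (propext (hinv c g q.1)).symm) y
  have hR : ∀ (c : X) (q : {q : P // q ≠ x}),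
      R c (Quotient.mk (A6_setoid (H := H) x) q) ↔ I q.1 c.1 := fun c q => Iff.rfl
  refine ⟨X, Y, R, ?_, ?_, ?_, ?_, ?_⟩
  · -- cardX
    have h1 := h.deg x
    rw [← Nat.card_coe_set_eq] at h1
    exact h1
  · -- cardY
    have h1 := hcount {q | q ≠ x} (fun h => h rfl) Set.univ (fun q => by simp)
    rw [Set.ncard_univ] at h1
    have h2 : ({q | q ≠ x} : Set P).ncard + 1 = Nat.card P := by
      have h3 := Set.ncard_add_ncard_compl ({x} : Set P)
      rw [Set.ncard_singleton] at h3
      have h4 : ({x} : Set P)ᶜ = {q | q ≠ x} := by ext q; simp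
      rw [h4] at h3
      omega
    change Nat.card (Quotient (A6_setoid (H := H) x)) = r
    have h5 : (n + 1) * Nat.card (Quotient (A6_setoid (H := H) x)) = (n + 1) * r := by
      rw [← h1]
      have h6 : ({q | q ≠ x} : Set P).ncard + 1 = (n + 1) * r + 1 := by
        rw [h2, hv, hr]
        nlinarith
      omega
    exact Nat.eq_of_mul_eq_mul_left (Nat.succ_pos n) h5
  · -- blk
    intro y
    induction y using Quotient.inductionOn with
    | h q =>
      have h1 := h.aff.pair x q.1 q.2.symm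
      have h2 : (Subtype.val '' {c : X | R c (Quotient.mk (A6_setoid (H := H) x) q)}) =
          {c : Bl | I x c ∧ I q.1 c} := by
        ext c
        constructor
        · rintro ⟨c', hc', rfl⟩
          exact ⟨c'.2, hc'⟩
        · rintro ⟨h3, h4⟩
          exact ⟨⟨c, h3⟩, h4, rfl⟩
      rw [← h1, ← h2, Set.ncard_image_of_injective _ Subtype.val_injective]
  · -- deg
    intro c
    have h1 := hcount {q | q ≠ x ∧ I q c.1} (fun h => h.1 rfl) {y | R c y}
      (fun q => by
        constructor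
        · intro h2
          exact h2.2
        · intro h2
          exact ⟨q.2, h2⟩)
    have h2 : ({q | q ≠ x ∧ I q c.1} : Set P).ncard + 1 = k := by
      have h3 := h.aff.block c.1
      have h4 : insert x ({q | q ≠ x ∧ I q c.1} : Set P) = {p | I p c.1} := by
        ext q
        simp only [Set.mem_insert_iff, Set.mem_ofPred_eq]
        constructor
        · rintro (rfl | h5)
          · exact c.2
          · exact h5.2
        · intro h5
          by_cases h6 : q = x
          · left; exact h6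
          · right; exact ⟨h6, h5⟩
      rw [← h3, ← h4, Set.ncard_insert_of_notMem (fun h => h.1 rfl)]
    have h5 : (n + 1) * ({y | R c y} : Set Y).ncard = (n + 1) * lam := by
      rw [← h1]
      have h6 : ({q | q ≠ x ∧ I q c.1} : Set P).ncard + 1 = (n + 1) * lam + 1 := by
        rw [h2, hk]
        nlinarith
      omega
    exact Nat.eq_of_mul_eq_mul_left (Nat.succ_pos n) h5
  · -- two
    intro c c' hcc
    have hnp : ¬ par c.1 c'.1 := by
      intro hp
      rcases (h.par_iff c.1 c'.1).1 hp with h3 | h3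
      · exact hcc (Subtype.ext h3)
      · exact h3 x ⟨c.2, c'.2⟩
    have h1 := hcount {q | q ≠ x ∧ I q c.1 ∧ I q c'.1} (fun h => h.1 rfl)
      {y | R c y ∧ R c' y}
      (fun q => by
        constructor
        · intro h2
          exact h2.2
        · intro h2
          exact ⟨q.2, h2⟩)
    have h2 : ({q | q ≠ x ∧ I q c.1 ∧ I q c'.1} : Set P).ncard + 1 = μ := by
      have h3 := h.aff.meet c.1 c'.1 hnp
      have h4 : insert x ({q | q ≠ x ∧ I q c.1 ∧ I q c'.1} : Set P) =
          {p | I p c.1 ∧ I p c'.1} := by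
        ext q
        simp only [Set.mem_insert_iff, Set.mem_ofPred_eq]
        constructor
        · rintro (rfl | h5)
          · exact ⟨c.2, c'.2⟩
          · exact h5.2
        · intro h5
          by_cases h6 : q = x
          · left; exact h6
          · right; exact ⟨h6, h5⟩
      rw [← h3, ← h4, Set.ncard_insert_of_notMem (fun h => h.1 rfl)]
    have h5 : (n + 1) * ({y | R c y ∧ R c' y} : Set Y).ncard = (n + 1) * lam0 := by
      rw [← h1]
      have h6 : n + 2 - 1 = n + 1 := by omega
      rw [h6] at hmu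
      omega
    exact Nat.eq_of_mul_eq_mul_left (Nat.succ_pos n) h5

end Pool.Agent.AF
end
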