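import Mathlib
import Pool.Agent.Lib.MP_c0e0de_co.AF.Defs
import Pool.Agent.Lib.MP_c0e0de_co.AF.A2
import Pool.Agent.Lib.MP_c0e0de_co.AF.A11

section

/-!
# TASK AF A4: Shrikhande's embedding

PROOF. Let `K := Quotient (⟨par, h.aff.equiv⟩ : Setoid Bl)` be the set of parallel classes.
`Nat.card K = r`: every class has `m` elements (`h.cls`) and `Nat.card Bl = m * r`.
`Nat.card Y = r`, so choose a bijection `f : K ≃ Y`.
`Q := P ⊕ X`, `C := Bl ⊕ Unit`, `B := inr ()`;
`J (inl p) (inl c) := I p c`, `J (inr x) (inl c) := R x (f ⟦c⟧)`, `J (inl p) (inr _) := False`,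
`J (inr x) (inr _) := True`.  `k' := r`, `lam' := lam`.
* `Nat.card Q = μ m m + r`, `Nat.card C = m r + 1`; equal because `(m - 1) r + 1 = μ m m`
  (from `hr`, `hlam`: `m * r + 1 = μ*m*m + r`).
* block `inl c`: `k + lam = μ m + lam = lam m + 1 = r` points; block `inr ()`: `r` points.
* two points of `P`: `lam` blocks.  `inl p`, `inr x`: the blocks `c ∋ p` with `R x (f ⟦c⟧)`: every
  class contains exactly one block through `p`, so this is the number of `y` with `R x y`, `lam`.
  `inr x ≠ inr x'`: `m * lam0` blocks `inl c` (each class has `m` blocks) and `inr ()`: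
  `m * lam0 + 1 = lam`.
* `2 ≤ r` (`r = m lam + 1`), `r < Nat.card Q` (`Nat.card P > 0`), `0 < lam`.
* `φ : P ≃ {q // ¬ J q B}` and `ψ : Bl ≃ {c // c ≠ B}` are obvious.
-/

namespace Pool.Agent.AF

variable {P Bl : Type} [Finite P] [Finite Bl] {I : P → Bl → Prop} {par : Bl → Bl → Prop}
  {k lam μ m r : ℕ}

private theorem A4_sum {A B : Type} [Finite A] [Finite B] (S : Set (A ⊕ B)) :
    S.ncard = {a : A | Sum.inl a ∈ S}.ncard + {b : B | Sum.inr b ∈ S}.ncard := by
  have h : S = Sum.inl '' {a : A | Sum.inl a ∈ S} ∪ Sum.inr '' {b : B | Sum.inr b ∈ S} := by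
    ext (a | b) <;> simp
  conv_lhs => rw [h]
  rw [Set.ncard_union_eq ?_ (Set.toFinite _) (Set.toFinite _),
    Set.ncard_image_of_injective _ Sum.inl_injective,
    Set.ncard_image_of_injective _ Sum.inr_injective]
  rw [Set.disjoint_left]
  rintro _ ⟨a, _, rfl⟩ ⟨b, _, h⟩
  cases h

private theorem A4_fiber {A Y : Type} [Finite A] [Finite Y] (g : A → Y) (n : ℕ)
    (h : ∀ y, {a : A | g a = y}.ncard = n) (T : Set Y) :
    {a : A | g a ∈ T}.ncard = n * T.ncard := by
  classical
  have := Fintype.ofFinite A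
  have := Fintype.ofFinite Y
  rw [Set.ncard_eq_toFinset_card', Set.ncard_eq_toFinset_card',
    Finset.card_eq_sum_card_fiberwise (f := g) (t := T.toFinset)]
  · rw [Finset.sum_const_nat (m := n), mul_comm]
    intro y hy
    have h1 := h y
    rw [Set.ncard_eq_toFinset_card'] at h1
    rw [← h1]
    congr 1
    ext a
    simp only [Finset.mem_filter, Set.mem_toFinset, Set.mem_setOf_eq]
    constructor
    · exact fun h2 => h2.2
    · intro h2
      refine ⟨?_, h2⟩
      rw [h2]
      exact Set.mem_toFinset.1 hy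
  · intro a ha
    simpa using ha

/-- The map to the parallel classes. -/
private theorem A4_g (h : Par I par k lam μ m r) {Y : Type} [Finite Y] (hY : Nat.card Y = r)
    (p0 : P) : ∃ g : Bl → Y, (∀ c d, g c = g d ↔ par c d) ∧ Function.Surjective g := by
  let s : Setoid Bl := ⟨par, h.aff.equiv⟩
  have hK : Nat.card (Quotient s) = r := by
    rw [← h.deg p0, ← Nat.card_coe_set_eq]
    refine (Nat.card_congr (Equiv.ofBijective
      (fun c : {c : Bl | I p0 c} => (Quotient.mk s c.1)) ⟨?_, ?_⟩)).symm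
    · rintro ⟨c, hc⟩ ⟨d, hd⟩ hcd
      have h1 : par c d := Quotient.exact (s := s) hcd
      obtain ⟨e, _, he⟩ := h.aff.euclid c p0
      have h2 := he c ⟨h.aff.equiv.refl c, hc⟩
      have h3 := he d ⟨h1, hd⟩
      exact Subtype.ext (h2.trans h3.symm)
    · intro q
      obtain ⟨c, rfl⟩ := Quotient.exists_rep q
      obtain ⟨e, he, _⟩ := h.aff.euclid c p0
      exact ⟨⟨e, he.2⟩, Quotient.sound (s := s) (h.aff.equiv.symm he.1)⟩
  have f : Quotient s ≃ Y := Nonempty.some ((Finite.card_eq).1 (hK.trans hY.symm))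
  refine ⟨fun c => f (Quotient.mk s c), fun c d => ?_, ?_⟩
  · rw [f.injective.eq_iff]
    exact ⟨fun h1 => Quotient.exact (s := s) h1, fun h1 => Quotient.sound (s := s) h1⟩
  · exact f.surjective.comp Quotient.mk_surjective

/-- The incidence of the symmetric design. -/
private def A4_J {P Bl X Y : Type} (I : P → Bl → Prop) (R : X → Y → Prop) (g : Bl → Y) :
    P ⊕ X → Bl ⊕ Unit → Prop
  | Sum.inl p, Sum.inl c => I p c
  | Sum.inl _, Sum.inr _ => False
  | Sum.inr x, Sum.inl c => R x (g c)
  | Sum.inr _, Sum.inr _ => True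

theorem Par.embeddable (h : Par I par k lam μ m r) {X Y : Type} (R : X → Y → Prop) (lam0 : ℕ)
    (hS : IsSym X Y R r lam lam0) (hl : lam = m * lam0 + 1) : Embeddable I := by
  have hm2 := h.m2
  have hlp := h.aff.lam_pos
  have hmup := h.aff.mu_pos
  have hr := h.hr
  have hmlp : 0 < m * lam := Nat.mul_pos (by omega) hlp
  have hr2 : 2 ≤ r := by omega
  have : Finite X := Nat.finite_of_card_ne_zero (by rw [hS.cardX]; omega)
  have : Finite Y := Nat.finite_of_card_ne_zero (by rw [hS.cardY]; omega)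
  have hm0 : 0 < m := by omega
  have hPpos : 0 < Nat.card P := by
    rw [h.hv]
    positivity
  obtain ⟨p0⟩ : Nonempty P := (Nat.card_pos_iff.1 hPpos).1
  obtain ⟨g, hg, hgs⟩ := A4_g h hS.cardY p0
  have hfib : ∀ y, {c : Bl | g c = y}.ncard = m := by
    intro y
    obtain ⟨c, rfl⟩ := hgs y
    rw [← h.cls c]
    congr 1
    ext d
    simp only [Set.mem_setOf_eq]
    rw [hg]
    exact ⟨h.aff.equiv.symm, h.aff.equiv.symm⟩
  have hcard : Nat.card (P ⊕ X) = Nat.card (Bl ⊕ Unit) := by
    rw [Nat.card_sum, Nat.card_sum, hS.cardX, h.hv, h.hb, Nat.card_unique, hr]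
    have h1 := h.hlam
    nlinarith
  have hmix : ∀ (p : P) (x : X), {c : Bl | I p c ∧ R x (g c)}.ncard = lam := by
    intro p x
    rw [← hS.deg x]
    have h1 : {y : Y | R x y} = g '' {c : Bl | I p c ∧ R x (g c)} := by
      ext y
      constructor
      · intro hy
        obtain ⟨c, rfl⟩ := hgs y
        obtain ⟨d, hd, _⟩ := h.aff.euclid c p
        have h2 : g c = g d := (hg c d).2 hd.1
        refine ⟨d, ⟨hd.2, ?_⟩, h2.symm⟩
        rw [← h2]
        exact hy
      · rintro ⟨c, hc, rfl⟩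
        exact hc.2
    rw [h1, Set.ncard_image_of_injOn]
    intro c hc d hd hcd
    have h2 : par c d := (hg c d).1 hcd
    obtain ⟨e, _, he⟩ := h.aff.euclid c p
    exact (he c ⟨h.aff.equiv.refl c, hc.1⟩).trans (he d ⟨h2, hd.1⟩).symm
  refine ⟨P ⊕ X, Bl ⊕ Unit, inferInstance, inferInstance, A4_J I R g, r, lam, Sum.inr (),
    Equiv.ofBijective (fun p => ⟨Sum.inl p, fun h1 => h1⟩) ⟨?_, ?_⟩,
    Equiv.ofBijective (fun c => ⟨Sum.inl c, by simp⟩) ⟨?_, ?_⟩, hcard, hr2, ?_, hlp, ?_, ?_, ?_⟩
  · intro p q hpq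
    exact Sum.inl_injective (congrArg Subtype.val hpq)
  · rintro ⟨p | x, hq⟩
    · exact ⟨p, rfl⟩
    · exact absurd trivial hq
  · intro p q hpq
    exact Sum.inl_injective (congrArg Subtype.val hpq)
  · rintro ⟨c | u, hc⟩
    · exact ⟨c, rfl⟩
    · exact absurd rfl hc
  · rw [Nat.card_sum, hS.cardX]
    omega
  · rintro (c | u)
    · rw [A4_sum]
      have e1 : {a : P | Sum.inl a ∈ {q : P ⊕ X | A4_J I R g q (Sum.inl c)}} = {p : P | I p c} := rfl
      have e2 : {b : X | Sum.inr b ∈ {q : P ⊕ X | A4_J I R g q (Sum.inl c)}} =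
        {x : X | R x (g c)} := rfl
      rw [e1, e2, h.aff.block, hS.blk, h.hk, hr]
      have h1 := h.hlam
      linarith [mul_comm lam m]
    · rw [A4_sum]
      have e1 : {a : P | Sum.inl a ∈ {q : P ⊕ X | A4_J I R g q (Sum.inr u)}} = (∅ : Set P) := by
        ext a
        exact Iff.rfl
      have e2 : {b : X | Sum.inr b ∈ {q : P ⊕ X | A4_J I R g q (Sum.inr u)}} =
        (Set.univ : Set X) := by
        ext a
        exact Iff.rfl
      rw [e1, e2, Set.ncard_empty, Set.ncard_univ, hS.cardX, zero_add]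
  · have hswap : ∀ a b : P ⊕ X, {c : Bl ⊕ Unit | A4_J I R g a c ∧ A4_J I R g b c} =
        {c : Bl ⊕ Unit | A4_J I R g b c ∧ A4_J I R g a c} := by
      intro a b
      ext c
      exact and_comm
    have hpx : ∀ (p : P) (x : X),
        {c : Bl ⊕ Unit | A4_J I R g (Sum.inl p) c ∧ A4_J I R g (Sum.inr x) c}.ncard = lam := by
      intro p x
      rw [A4_sum]
      have e1 : {a : Bl | Sum.inl a ∈ {c : Bl ⊕ Unit |
          A4_J I R g (Sum.inl p) c ∧ A4_J I R g (Sum.inr x) c}} =
          {c : Bl | I p c ∧ R x (g c)} := rfl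
      have e2 : {b : Unit | Sum.inr b ∈ {c : Bl ⊕ Unit |
          A4_J I R g (Sum.inl p) c ∧ A4_J I R g (Sum.inr x) c}} = (∅ : Set Unit) := by
        ext b
        exact ⟨fun h1 => h1.1, fun h1 => h1.elim⟩
      rw [e1, e2, Set.ncard_empty, hmix, add_zero]
    rintro (p | x) (q | x') hne
    · rw [A4_sum]
      have e1 : {a : Bl | Sum.inl a ∈ {c : Bl ⊕ Unit |
          A4_J I R g (Sum.inl p) c ∧ A4_J I R g (Sum.inl q) c}} =
          {c : Bl | I p c ∧ I q c} := rfl
      have e2 : {b : Unit | Sum.inr b ∈ {c : Bl ⊕ Unit |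
          A4_J I R g (Sum.inl p) c ∧ A4_J I R g (Sum.inl q) c}} = (∅ : Set Unit) := by
        ext b
        exact ⟨fun h1 => h1.1, fun h1 => h1.elim⟩
      rw [e1, e2, Set.ncard_empty, h.aff.pair p q (fun h1 => hne (congrArg _ h1)), add_zero]
    · exact hpx p x'
    · rw [hswap]
      exact hpx q x
    · rw [A4_sum]
      have e1 : {a : Bl | Sum.inl a ∈ {c : Bl ⊕ Unit |
          A4_J I R g (Sum.inr x) c ∧ A4_J I R g (Sum.inr x') c}} =
          {c : Bl | g c ∈ {y : Y | R x y ∧ R x' y}} := rfl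
      have e2 : {b : Unit | Sum.inr b ∈ {c : Bl ⊕ Unit |
          A4_J I R g (Sum.inr x) c ∧ A4_J I R g (Sum.inr x') c}} = (Set.univ : Set Unit) := by
        ext b
        exact ⟨fun _ => trivial, fun _ => ⟨trivial, trivial⟩⟩
      rw [e1, e2, A4_fiber g m hfib, hS.two x x' (fun h1 => hne (congrArg _ h1)),
        Set.ncard_univ, Nat.card_unique, hl]
  · intro p c
    exact Iff.rfl

end Pool.Agent.AF
end

section

/-!
# TASK AF B6: the ladder: an embeddable affine design `(m, μ)` makes all `(m, m μ)` embeddable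

PROOF of `isSym_of_embeddable`.  Let `Q, C, J, k', lam', B, φ, ψ` be as in `Embeddable`.
`Nat.card C = Nat.card Bl + 1 = m r + 1` (`ψ`), `Nat.card Q = m r + 1`.
For `x : Q` let `ρ x = {c | J x c}.ncard`.  Counting pairs `(y, c)`, `y ≠ x`, `J x c`, `J y c`:
`ρ x * (k' - 1) = lam' * (Nat.card Q - 1)`; so `ρ` is constant, `= ρ`, and counting flags
`Nat.card Q * ρ = Nat.card C * k'`, so `ρ = k'`.  For `p : P`: `¬ J (φ p) B`, so `ρ (φ p)` is the
number of `c : Bl` with `I p c`, `r`.  (`P` is not empty.)  So `k' = ρ = r`.  For `p ≠ q` in `P` the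
blocks through `φ p` and `φ q` are not `B` and correspond to the blocks of `I` through `p` and `q`:
`lam' = lam` (`Nat.card P ≥ 2`).  So `J` is `IsSym Q C J (m * r + 1) r lam`.

PROOF of `ladder`.  Let `h2` be the parameters of the second design, `μ2 = m * μ`.  From
`lam2 * m + 1 = μ2 * m + lam2` and `lam * m + 1 = μ * m + lam`, `r = m lam + 1`: `lam2 = r`
(`(m - 1) lam2 = m (m μ) - 1 = (m - 1) r`) and `r2 = m * lam2 + 1 = m * r + 1`.  Apply
`Par.embeddable` with `lam0 := lam` (`lam2 = r = m * lam + 1`).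

PROOF of `embeddable_plane` (`μ = 1`): `lam = 1` (`hlam`), take `X = Y = Fin r`, `R := (· = ·)`,
`lam0 = 0`.
-/

namespace Pool.Agent.AF

variable {P Bl : Type} [Finite P] [Finite Bl] {I : P → Bl → Prop} {par : Bl → Bl → Prop}
  {k lam μ m r : ℕ}

private theorem B6_ncard {α : Type} [Fintype α] (q : α → Prop) [DecidablePred q] :
    {x | q x}.ncard = (Finset.univ.filter q).card := by
  rw [Set.ncard_eq_toFinset_card', Set.toFinset_ofPred]

private theorem B6_deg {Q C : Type} [Finite Q] [Finite C] (J : Q → C → Prop) (k' lam' : ℕ)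
    (hcard : Nat.card Q = Nat.card C) (hk : 2 ≤ k') (hQ : 0 < Nat.card Q)
    (blk : ∀ c : C, {q : Q | J q c}.ncard = k')
    (pair : ∀ q r : Q, q ≠ r → {c : C | J q c ∧ J r c}.ncard = lam') (x : Q) :
    {c : C | J x c}.ncard = k' := by
  classical
  have := Fintype.ofFinite Q
  have := Fintype.ofFinite C
  have h1 : ∀ x : Q, {c : C | J x c}.ncard * k' = {c : C | J x c}.ncard + (Nat.card Q - 1) * lam' := by
    intro x
    have e1 : ∑ y : Q, (Finset.univ.filter fun c : C => J x c ∧ J y c).card =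
        ∑ c : C, (Finset.univ.filter fun y : Q => J x c ∧ J y c).card :=
      Finset.sum_card_bipartiteAbove_eq_sum_card_bipartiteBelow (fun (y : Q) (c : C) => J x c ∧ J y c)
    have e2 : ∀ c : C, (Finset.univ.filter fun y : Q => J x c ∧ J y c).card = if J x c then k' else 0 := by
      intro c
      split_ifs with hc
      · rw [← blk c, B6_ncard]
        congr 1
        ext y
        simp [hc]
      · rw [Finset.card_eq_zero, Finset.filter_eq_empty_iff]
        intro y _ hy
        exact hc hy.1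
    have e3 : ∑ c : C, (Finset.univ.filter fun y : Q => J x c ∧ J y c).card = {c : C | J x c}.ncard * k' := by
      rw [Finset.sum_congr rfl fun c _ => e2 c, Finset.sum_ite, Finset.sum_const, Finset.sum_const_zero, add_zero,
        B6_ncard, smul_eq_mul]
    have e4 : ∑ y : Q, (Finset.univ.filter fun c : C => J x c ∧ J y c).card =
        {c : C | J x c}.ncard + (Nat.card Q - 1) * lam' := by
      rw [← Finset.add_sum_erase Finset.univ _ (Finset.mem_univ x)]
      congr 1
      · rw [B6_ncard]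
        congr 1
        ext c
        simp
      · rw [Finset.sum_congr rfl (g := fun _ => lam') (fun y hy => by
          rw [← pair x y (Finset.ne_of_mem_erase hy).symm, B6_ncard]), Finset.sum_const,
          Finset.card_erase_of_mem (Finset.mem_univ x), Finset.card_univ, Nat.card_eq_fintype_card, smul_eq_mul]
    rw [← e3, ← e1, e4]
  have h2 : ∀ y : Q, {c : C | J y c}.ncard = {c : C | J x c}.ncard := by
    intro y
    obtain ⟨n, hn⟩ : ∃ n, k' = n + 2 := ⟨k' - 2, by omega⟩
    have a1 := h1 x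
    have a2 := h1 y
    rw [hn] at a1 a2
    have a3 : {c : C | J y c}.ncard * (n + 1) = {c : C | J x c}.ncard * (n + 1) := by
      have b1 : {c : C | J y c}.ncard * (n + 2) = {c : C | J y c}.ncard * (n + 1) + {c : C | J y c}.ncard := by ring
      have b2 : {c : C | J x c}.ncard * (n + 2) = {c : C | J x c}.ncard * (n + 1) + {c : C | J x c}.ncard := by ring
      omega
    exact Nat.eq_of_mul_eq_mul_right (Nat.succ_pos n) a3
  have h3 : ∑ y : Q, (Finset.univ.filter fun c : C => J y c).card =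
      ∑ c : C, (Finset.univ.filter fun y : Q => J y c).card :=
    Finset.sum_card_bipartiteAbove_eq_sum_card_bipartiteBelow J
  have h4 : ∑ y : Q, (Finset.univ.filter fun c : C => J y c).card = Nat.card Q * {c : C | J x c}.ncard := by
    rw [Finset.sum_congr rfl (g := fun _ => {c : C | J x c}.ncard) (fun y _ => by rw [← h2 y, B6_ncard]),
      Finset.sum_const, Finset.card_univ, Nat.card_eq_fintype_card, smul_eq_mul]
  have h5 : ∑ c : C, (Finset.univ.filter fun y : Q => J y c).card = Nat.card Q * k' := by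
    rw [Finset.sum_congr rfl (g := fun _ => k') (fun c _ => by rw [← blk c, B6_ncard]),
      Finset.sum_const, Finset.card_univ, hcard, Nat.card_eq_fintype_card, smul_eq_mul]
  rw [h4, h5] at h3
  exact Nat.eq_of_mul_eq_mul_left hQ h3

theorem Par.isSym_of_embeddable (h : Par I par k lam μ m r) (he : Embeddable I) :
    ∃ (X Y : Type) (R : X → Y → Prop), IsSym X Y R (m * r + 1) r lam := by
  obtain ⟨Q, C, fQ, fC, J, k', lam', B, φ, ψ, hcard, hk', hkQ, hl', blk, pair, hI⟩ := he
  have hC : Nat.card C = m * r + 1 := by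
    have e1 : Nat.card {c : C // c ≠ B} = Nat.card Bl := (Nat.card_congr ψ).symm
    have e2 : Nat.card {c : C // c ≠ B} + 1 = Nat.card C := by
      have e3 : ({B}ᶜ : Set C).ncard = Nat.card {c : C // c ≠ B} := (Nat.card_coe_set_eq _).symm
      have e4 := Set.ncard_add_ncard_compl ({B} : Set C)
      rw [Set.ncard_singleton, e3] at e4
      omega
    rw [← e2, e1, h.hb]
  have hQ0 : 0 < Nat.card Q := by omega
  have hdeg := B6_deg J k' lam' hcard hk' hQ0 blk pair
  have hPc : 1 < Nat.card P := by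
    have := h.aff.two_le
    have := h.aff.k_lt
    omega
  obtain ⟨p, q, hpq⟩ := (Finite.one_lt_card_iff_nontrivial.1 hPc).exists_pair_ne
  have himg : ∀ (S : Bl → Prop) (T : C → Prop), (∀ c, S c ↔ T (ψ c).1) → ¬ T B →
      {c : C | T c}.ncard = {c : Bl | S c}.ncard := by
    intro S T hST hB
    have e1 : {c : C | T c} = (fun c : Bl => (ψ c).1) '' {c : Bl | S c} := by
      ext c
      constructor
      · intro hc
        have hcB : c ≠ B := fun h => hB (h ▸ hc)
        refine ⟨ψ.symm ⟨c, hcB⟩, ?_, ?_⟩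
        · show S _
          rw [hST, Equiv.apply_symm_apply]
          exact hc
        · show (ψ (ψ.symm ⟨c, hcB⟩)).1 = c
          rw [Equiv.apply_symm_apply]
      · rintro ⟨d, hd, rfl⟩
        exact (hST d).1 hd
    rw [e1, Set.ncard_image_of_injective]
    intro c d hcd
    exact ψ.injective (Subtype.ext hcd)
  have hk : k' = r := by
    rw [← hdeg (φ p).1, ← h.deg p]
    exact himg _ _ (fun c => hI p c) (φ p).2
  have hlam : lam' = lam := by
    have hne : (φ p).1 ≠ (φ q).1 := fun h => hpq (φ.injective (Subtype.ext h))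
    rw [← pair _ _ hne, ← h.aff.pair p q hpq]
    exact himg _ _ (fun c => and_congr (hI p c) (hI q c)) (fun h => (φ p).2 h.1)
  exact ⟨Q, C, J, hcard.trans hC, hC, fun c => (blk c).trans hk, fun x => (hdeg x).trans hk,
    fun x x' hx => (pair x x' hx).trans hlam⟩

theorem Par.ladder (h : Par I par k lam μ m r) (he : Embeddable I) {P2 Bl2 : Type} [Finite P2]
    [Finite Bl2] {I2 : P2 → Bl2 → Prop} {par2 : Bl2 → Bl2 → Prop} {k2 lam2 μ2 r2 : ℕ}
    (h2 : Par I2 par2 k2 lam2 μ2 m r2) (hmu : μ2 = m * μ) : Embeddable I2 := by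
  obtain ⟨X, Y, R, hR⟩ := h.isSym_of_embeddable he
  have hm := h.m2
  have e1 : lam2 = r := by
    have a1 := h2.hlam
    have a2 := h.hlam
    have a3 := h.hr
    obtain ⟨n, hn⟩ : ∃ n, m = n + 2 := ⟨m - 2, by omega⟩
    rw [hmu] at a1
    rw [hn] at a1 a2 a3
    have a4 : (n + 1) * lam2 = (n + 1) * r := by
      rw [a3]
      nlinarith
    exact Nat.eq_of_mul_eq_mul_left (Nat.succ_pos n) a4
  have e2 : r2 = m * r + 1 := by rw [h2.hr, e1]
  refine h2.embeddable R lam ?_ (by rw [e1, h.hr])
  rw [e2, e1]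
  exact hR

theorem Par.embeddable_plane (h : Par I par k lam μ m r) (hmu : μ = 1) : Embeddable I := by
  have hm := h.m2
  have hlam : lam = 1 := by
    have a1 := h.hlam
    have a0 := h.aff.lam_pos
    rw [hmu] at a1
    obtain ⟨n, hn⟩ : ∃ n, m = n + 2 := ⟨m - 2, by omega⟩
    rw [hn] at a1
    have a2 : (n + 1) * lam = (n + 1) * 1 := by nlinarith
    exact Nat.eq_of_mul_eq_mul_left (Nat.succ_pos n) a2
  refine h.embeddable (X := Fin r) (Y := Fin r) (fun x y => x = y) 0 ?_ (by rw [hlam, mul_zero])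
  rw [hlam]
  refine ⟨Nat.card_fin r, Nat.card_fin r, ?_, ?_, ?_⟩
  · intro y
    have : {x : Fin r | x = y} = {y} := rfl
    rw [this, Set.ncard_singleton]
  · intro x
    have : {y : Fin r | x = y} = {x} := by
      ext y
      simp [eq_comm]
    rw [this, Set.ncard_singleton]
  · intro x x' hx
    have : {y : Fin r | x = y ∧ x' = y} = ∅ := by
      ext y
      simp only [Set.mem_ofPred_eq, Set.mem_empty_iff_false, iff_false]
      rintro ⟨rfl, h'⟩
      exact hx h'.symm
    rw [this, Set.ncard_empty]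

end Pool.Agent.AF
end

section

/-!
# TASK AF A1: the standard parameters of an affine design

PROOF. Every parallel class `{d | par c d}` partitions `P` (axiom `euclid`, applied to `c` and `p`)
into blocks of size `k`, so `Nat.card P = k * (size of the class)`; hence all classes have the same
size `m := Nat.card P / k`, and `m ≥ 2` because `k < Nat.card P`.
There is a non-parallel pair `c, d`: take a point `p`, a class (blocks exist because `lam > 0` and
`Nat.card P ≥ 3`), points `p, q` in two different blocks of that class; `p, q` are in a common block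
`e` (`lam ≥ 1`); if `e` were parallel to the class, uniqueness in `euclid` gives a contradiction.
For such `c, d`: `c` is the disjoint union of its intersections with the `m` blocks parallel to `d`
(none of them is parallel to `c`), each of size `μ`: `k = m * μ`. So `Nat.card P = μ * m * m`.
`r := ` number of parallel classes `= Nat.card (Quotient ⟨par, h.equiv⟩)`; each class has exactly one
block through `p`, so `deg p = r`, and `Nat.card Bl = m * r`.
Fix a block `c` and a point `p` not on `c` (exists, `k < Nat.card P`).  Count pairs `(q, d)` with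
`I q c`, `I q d`, `I p d`: it is `k * lam`; on the other hand the blocks `d` through `p` are one
block parallel to `c` (no `q`) and `r - 1` non-parallel ones (`μ` points `q` each): so
`k * lam = (r - 1) * μ`, `r = m * lam + 1`.
Fix `p`, count pairs `(q, c)`, `q ≠ p`, `I p c`, `I q c`: `r * (k - 1) = lam * (Nat.card P - 1)`.
With `k = μ m`, `Nat.card P = μ m m`, `r = m lam + 1`: `lam * m + 1 = μ * m + lam`.
-/

namespace Pool.Agent.AF

private theorem a1_dc {A B : Type} (s : Finset A) (t : Finset B) (R : A → B → Prop)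
    [∀ a b, Decidable (R a b)] :
    ∑ a ∈ s, (t.filter fun b => R a b).card = ∑ b ∈ t, (s.filter fun a => R a b).card :=
  Finset.sum_card_bipartiteAbove_eq_sum_card_bipartiteBelow R

theorem IsAffine.exists_par {P Bl : Type} [Finite P] [Finite Bl] {I : P → Bl → Prop}
    {par : Bl → Bl → Prop} {k lam μ : ℕ} (h : IsAffine I par k lam μ) :
    ∃ m r : ℕ, Par I par k lam μ m r := by
  classical
  have := Fintype.ofFinite P
  have := Fintype.ofFinite Bl
  have hblock : ∀ c : Bl, (Finset.univ.filter fun p : P => I p c).card = k := fun c => by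
    rw [← h.block c, Set.ncard_eq_toFinset_card']
    congr 1
    ext p; simp
  have hpair : ∀ p q : P, p ≠ q → (Finset.univ.filter fun c : Bl => I p c ∧ I q c).card = lam :=
    fun p q hpq => by
      rw [← h.pair p q hpq, Set.ncard_eq_toFinset_card']
      congr 1
      ext c; simp
  have hmeet : ∀ c d : Bl, ¬ par c d →
      (Finset.univ.filter fun p : P => I p c ∧ I p d).card = μ := fun c d hcd => by
    rw [← h.meet c d hcd, Set.ncard_eq_toFinset_card']
    congr 1
    ext p; simp
  have hrefl : ∀ c, par c c := h.equiv.refl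
  have hsymm : ∀ {c d}, par c d → par d c := fun hcd => h.equiv.symm hcd
  have htrans : ∀ {c d e}, par c d → par d e → par c e := fun h1 h2 => h.equiv.trans h1 h2
  have huniq : ∀ (c d e : Bl) (p : P), par c d → I p d → par c e → I p e → d = e := by
    intro c d e p h1 h2 h3 h4
    exact (h.euclid c p).unique ⟨h1, h2⟩ ⟨h3, h4⟩
  have hk0 : 0 < k := lt_of_lt_of_le Nat.zero_lt_two h.two_le
  have hPk : k < Fintype.card P := by rw [← Nat.card_eq_fintype_card]; exact h.k_lt
  -- classes
  have hcls : ∀ c : Bl, (Finset.univ.filter fun d : Bl => par c d).card * k = Fintype.card P := by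
    intro c
    have h1 := a1_dc (Finset.univ : Finset P) (Finset.univ.filter fun d : Bl => par c d)
      (fun p d => I p d)
    have h2 : ∀ p : P, ((Finset.univ.filter fun d : Bl => par c d).filter fun d => I p d).card = 1 := by
      intro p
      obtain ⟨d, hd, hd'⟩ := h.euclid c p
      rw [Finset.card_eq_one]
      refine ⟨d, ?_⟩
      ext e
      simp only [Finset.mem_filter, Finset.mem_univ, true_and, Finset.mem_singleton]
      constructor
      · intro he; exact hd' e he
      · rintro rfl; exact hd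
    rw [Finset.sum_congr rfl fun p _ => h2 p, Finset.sum_congr rfl fun d _ => hblock d] at h1
    simp only [Finset.sum_const, smul_eq_mul, mul_one] at h1
    rw [← h1]
    rfl
  -- a block
  have hne : ∃ p : P, ∃ q : P, p ≠ q := by
    have h2 : 1 < Fintype.card P := lt_of_le_of_lt (le_trans one_le_two h.two_le) hPk
    obtain ⟨p, q, hpq⟩ := Fintype.one_lt_card_iff.mp h2
    exact ⟨p, q, hpq⟩
  obtain ⟨p0, q0, hpq0⟩ := hne
  have hex : ∀ p q : P, p ≠ q → ∃ c : Bl, I p c ∧ I q c := by
    intro p q hpq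
    have h1 := hpair p q hpq
    have h2 : 0 < (Finset.univ.filter fun c : Bl => I p c ∧ I q c).card := by
      rw [h1]; exact h.lam_pos
    obtain ⟨c, hc⟩ := Finset.card_pos.mp h2
    exact ⟨c, (Finset.mem_filter.mp hc).2⟩
  obtain ⟨c0, hc0, -⟩ := hex p0 q0 hpq0
  set m := (Finset.univ.filter fun d : Bl => par c0 d).card with hm
  have hmk : m * k = Fintype.card P := hcls c0
  have hclsm : ∀ c : Bl, (Finset.univ.filter fun d : Bl => par c d).card = m := by
    intro c
    have h1 := hcls c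
    rw [← hmk] at h1
    exact Nat.eq_of_mul_eq_mul_right hk0 h1
  have hm2 : 2 ≤ m := by
    by_contra hlt
    have h1 : m ≤ 1 := by omega
    have h2 : m * k ≤ 1 * k := Nat.mul_le_mul_right k h1
    omega
  have hnot : ∀ c : Bl, ∃ q : P, ¬ I q c := by
    intro c
    by_contra hall
    push Not at hall
    have h1 := hblock c
    rw [Finset.filter_true_of_mem fun q _ => hall q, Finset.card_univ] at h1
    omega
  have hon : ∀ c : Bl, ∃ q : P, I q c := by
    intro c
    have h1 := hblock c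
    have h2 : 0 < (Finset.univ.filter fun p : P => I p c).card := by rw [h1]; exact hk0
    obtain ⟨q, hq⟩ := Finset.card_pos.mp h2
    exact ⟨q, (Finset.mem_filter.mp hq).2⟩
  -- nonparallel pair
  obtain ⟨e0, he0⟩ : ∃ e : Bl, ¬ par c0 e := by
    obtain ⟨p, hp⟩ := hon c0
    obtain ⟨q, hq⟩ := hnot c0
    have hpq : p ≠ q := fun he => hq (he ▸ hp)
    obtain ⟨e, he1, he2⟩ := hex p q hpq
    refine ⟨e, fun hpar => hq ?_⟩
    rw [huniq c0 c0 e p (hrefl c0) hp hpar he1]
    exact he2
  have hkm : k = μ * m := by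
    have h1 := a1_dc (Finset.univ.filter fun p : P => I p c0)
      (Finset.univ.filter fun d : Bl => par e0 d) (fun p d => I p d)
    have h2 : ∀ p : P, ((Finset.univ.filter fun d : Bl => par e0 d).filter fun d => I p d).card = 1 := by
      intro p
      obtain ⟨d, hd, hd'⟩ := h.euclid e0 p
      rw [Finset.card_eq_one]
      refine ⟨d, ?_⟩
      ext e
      simp only [Finset.mem_filter, Finset.mem_univ, true_and, Finset.mem_singleton]
      constructor
      · intro he; exact hd' e he
      · rintro rfl; exact hd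
    have h3 : ∀ d ∈ (Finset.univ.filter fun d : Bl => par e0 d),
        ((Finset.univ.filter fun p : P => I p c0).filter fun p => I p d).card = μ := by
      intro d hd
      rw [Finset.filter_filter]
      refine hmeet c0 d fun hcd => he0 ?_
      exact htrans hcd (hsymm (Finset.mem_filter.mp hd).2)
    rw [Finset.sum_congr rfl fun p _ => h2 p, Finset.sum_congr rfl h3] at h1
    simp only [Finset.sum_const, smul_eq_mul, mul_one] at h1
    rw [hblock c0, hclsm e0] at h1
    rw [h1, mul_comm]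
  have hmu := h.mu_pos
  -- degree
  have hdeg : ∀ p : P, (Finset.univ.filter fun c : Bl => I p c).card = m * lam + 1 := by
    intro p
    obtain ⟨c, hc⟩ : ∃ c : Bl, ¬ I p c := by
      by_contra hall
      push Not at hall
      have h1 : (Finset.univ.filter fun d : Bl => par c0 d) ⊆ {c0} := by
        intro d hd
        rw [Finset.mem_singleton]
        exact (huniq c0 c0 d p (hrefl c0) (hall c0) (Finset.mem_filter.mp hd).2 (hall d)).symm
      have h2 := Finset.card_le_card h1
      rw [Finset.card_singleton] at h2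
      omega
    obtain ⟨d0, ⟨hd0, hd0'⟩, hd0u⟩ := h.euclid c p
    have h1 := a1_dc (Finset.univ.filter fun q : P => I q c)
      (Finset.univ.filter fun d : Bl => I p d) (fun q d => I q d)
    have h2 : ∀ q ∈ (Finset.univ.filter fun q : P => I q c),
        ((Finset.univ.filter fun d : Bl => I p d).filter fun d => I q d).card = lam := by
      intro q hq
      rw [Finset.filter_filter]
      refine hpair p q fun he => hc ?_
      rw [he]
      exact (Finset.mem_filter.mp hq).2
    have h3 : ∀ d ∈ (Finset.univ.filter fun d : Bl => I p d).erase d0,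
        ((Finset.univ.filter fun q : P => I q c).filter fun q => I q d).card = μ := by
      intro d hd
      rw [Finset.filter_filter]
      refine hmeet c d fun hcd => ?_
      exact Finset.ne_of_mem_erase hd
        (hd0u d ⟨hcd, (Finset.mem_filter.mp (Finset.mem_of_mem_erase hd)).2⟩)
    have h4 : ((Finset.univ.filter fun q : P => I q c).filter fun q => I q d0).card = 0 := by
      rw [Finset.card_eq_zero, Finset.filter_filter, Finset.filter_eq_empty_iff]
      rintro q - ⟨hq1, hq2⟩
      refine hc ?_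
      rw [huniq c c d0 q (hrefl c) hq1 hd0 hq2]
      exact hd0'
    have h5 : d0 ∈ (Finset.univ.filter fun d : Bl => I p d) :=
      Finset.mem_filter.mpr ⟨Finset.mem_univ _, hd0'⟩
    rw [Finset.sum_congr rfl h2, ← Finset.add_sum_erase _ _ h5, Finset.sum_congr rfl h3, h4] at h1
    simp only [Finset.sum_const, smul_eq_mul, zero_add] at h1
    rw [hblock c, Finset.card_erase_of_mem h5, hkm] at h1
    have h6 : 0 < (Finset.univ.filter fun d : Bl => I p d).card := Finset.card_pos.mpr ⟨d0, h5⟩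
    obtain ⟨n, hn⟩ : ∃ n, (Finset.univ.filter fun d : Bl => I p d).card = n + 1 :=
      ⟨(Finset.univ.filter fun d : Bl => I p d).card - 1, by omega⟩
    rw [hn, Nat.add_sub_cancel] at h1
    rw [hn]
    have h7 : μ * (m * lam) = μ * n := by rw [← mul_assoc, h1, mul_comm]
    rw [Nat.eq_of_mul_eq_mul_left hmu h7]
  have hcardP : Nat.card P = μ * m * m := by
    rw [Nat.card_eq_fintype_card, ← hmk, hkm, mul_comm]
  refine ⟨m, m * lam + 1, h, hm2, fun c => ?_, hkm, hcardP, rfl, ?_, fun p => ?_, ?_⟩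
  · rw [← hclsm c, Set.ncard_eq_toFinset_card']
    congr 1
    ext p; simp
  · -- hlam
    have h1 := a1_dc (Finset.univ : Finset P)
      (Finset.univ.filter fun c : Bl => I p0 c) (fun q c => I q c)
    have h2 : ∀ q ∈ (Finset.univ : Finset P).erase p0,
        ((Finset.univ.filter fun c : Bl => I p0 c).filter fun c => I q c).card = lam := by
      intro q hq
      rw [Finset.filter_filter]
      exact hpair p0 q (Finset.ne_of_mem_erase hq).symm
    have h3 : ((Finset.univ.filter fun c : Bl => I p0 c).filter fun c => I p0 c).card =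
        m * lam + 1 := by
      rw [Finset.filter_filter]
      simp only [and_self]
      exact hdeg p0
    rw [← Finset.add_sum_erase _ _ (Finset.mem_univ p0), Finset.sum_congr rfl h2, h3,
      Finset.sum_congr rfl fun c _ => hblock c] at h1
    simp only [Finset.sum_const, smul_eq_mul] at h1
    rw [hdeg p0, Finset.card_erase_of_mem (Finset.mem_univ p0), Finset.card_univ,
      ← Nat.card_eq_fintype_card, hcardP, hkm] at h1
    have hpos : 0 < μ * m * m := Nat.mul_pos (Nat.mul_pos hmu (by omega)) (by omega)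
    obtain ⟨n, hn⟩ : ∃ n, μ * m * m = n + 1 := ⟨μ * m * m - 1, by omega⟩
    rw [hn, Nat.add_sub_cancel] at h1
    have h4 : (m * lam + 1) * (μ * m) + lam = (m * lam + 1) + lam * (n + 1) := by
      rw [← h1]; ring
    rw [← hn] at h4
    have h5 : lam * (μ * m * m) + (lam * m + 1) = lam * (μ * m * m) + (μ * m + lam) := by
      have h6 : (m * lam + 1) * (μ * m) + lam = lam * (μ * m * m) + (μ * m + lam) := by ring
      have h7 : (m * lam + 1) + lam * (μ * m * m) = lam * (μ * m * m) + (lam * m + 1) := by ring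
      rw [← h6, ← h7, h4]
    exact Nat.add_left_cancel h5
  · rw [← hdeg p, Set.ncard_eq_toFinset_card']
    congr 1
    ext p; simp
  · have h1 := a1_dc (Finset.univ : Finset P) (Finset.univ : Finset Bl) (fun q c => I q c)
    rw [Finset.sum_congr rfl fun p _ => hdeg p, Finset.sum_congr rfl fun c _ => hblock c] at h1
    simp only [Finset.sum_const, smul_eq_mul, Finset.card_univ] at h1
    rw [← Nat.card_eq_fintype_card (α := P), hcardP, ← Nat.card_eq_fintype_card (α := Bl), hkm] at h1
    have hpos : 0 < μ * m := Nat.mul_pos hmu (by omega)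
    have h2 : μ * m * Nat.card Bl = μ * m * (m * (m * lam + 1)) := by
      rw [mul_comm, ← h1]; ring
    exact Nat.eq_of_mul_eq_mul_left hpos h2

end Pool.Agent.AF
end

section

/-!
# TASK AF A12: partitions of a finite commutative group into sets `U i \ W i` with `|U i| = m |W i|`

Let `X` be a finite commutative group with a family of subgroups `W i ≤ U i`, `|U i| = m |W i|`,
such that every `x ≠ 1` lies in `U i \ W i` for some `i`, and the pair `(U i, W i)` is unique.

PROOF of `beta`.  First (alpha): let `x ∈ U i \ W i` have order a power of `ℓ` and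
`y ∈ U j \ W j` order a power of `ℓ'`, `ℓ ≠ ℓ'` primes, pairs `i`, `j` different.  `x, y ≠ 1`, and
`x`, `y` are powers of `x * y` (coprime orders), `x y ≠ 1`.  `x y ∈ U t \ W t`; then `x, y ∈ U t`,
not both in `W t`.  If `x ∉ W t` then pair `t` = pair `i`, `y ∈ U i`, and `y ∈ W i` since otherwise
pair `i` = pair `j`.  If `y ∉ W t`: pair `t` = pair `j`, `x ∈ U j`, and `x ∈ W j`.  So
`y ∈ W i ∨ x ∈ W j`.
Next: if `ℓ ∣ m` then `U i` contains an element of order a power of `ℓ` which is not in `W i`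
(`ℓ`-part of `|U i|` is larger than that of `|W i|`: Sylow; or Cauchy in `U i / W i` and take a
suitable power).  Now suppose there is `y0 ∈ U j` of `ℓ'`-power order, `y0 ∉ W i`.  Let
`z ∈ U j \ W j` be of `ℓ'`-power order.  One of `y0` (if `y0 ∉ W j`), `z`, `z y0` is in `U j`, not in
`W j`, not in `W i`, of `ℓ'`-power order (if `y0 ∈ W j`: `z, z y0 ∉ W j` and not both in `W i`);
call it `y`.  By (alpha) every `x ∈ U i \ W i` of `ℓ`-power order is in `W j`.  If `x ∈ W i` is of
`ℓ`-power order, take `z' ∈ U i \ W i` of `ℓ`-power order, `z', z' x ∈ W j`, so `x ∈ W j`.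

PROOF of `comparable`.  (gamma): for a prime `ℓ ∣ m` it is impossible that all elements of
`ℓ`-power order of `U j` are in `W i` and all those of `U i` are in `W j`: take `z ∈ U j \ W j` of
`ℓ`-power order: `z ∈ W i ≤ U i`, so `z ∈ W j`.
`beta` with `(ℓ, ℓ') = (p, q)` and `(q, p)`: write `A ℓ` for 'all elements of `ℓ`-power order of
`U j` are in `W i`', `B ℓ` for '... of `U i` are in `W j`'.  `A q ∨ B p`, `A p ∨ B q`, never
`A ℓ ∧ B ℓ`: so `A p ∧ A q` or `B p ∧ B q`.  In the first case let `ℓ` be any prime: if `ℓ = p`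
or `q` done; if `ℓ ∤ m` there is no element of order `ℓ` in `X` (such an `x` lies in `U t \ W t`, so
`U t / W t`, of order `m`, has an element of order `ℓ`), so elements of `ℓ`-power order are `1`;
otherwise `beta (p, ℓ)`: `A ℓ ∨ B p`, so `A ℓ`.  Every element of `U j` is a product of powers of
itself of prime power order (induction on the order), so `U j ≤ W i`.  Second case: `U i ≤ W j`.

PROOF of `exists_card_W`.  Choose `i` with `|U i|` minimal (there is one: `X ≠ 1`).  Then
`W i = 1`: if `1 ≠ w ∈ W i`, `w ∈ U j \ W j`, the pairs differ, `U i ≤ W j` gives `w ∈ W j`, and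
`U j ≤ W i` gives `|U j| < |U i|`.  So `|U i| = m < |X|`.  Take `x ∉ U i`, it is in some
`U j \ W j`, `U j ≠ U i`.  Among the `j` with `U j ≠ U i` choose one with `|U j|` minimal.
`U j ≤ W i = 1` is impossible, so `U i ≤ W j`.  If `w ∈ W j \ U i`, `w ∈ U l \ W l`; `U l ≠ U i`;
pair `l` ≠ pair `j`; `U l ≤ W j` contradicts minimality and `U j ≤ W l` gives `w ∈ W l`.  So
`W j = U i` has `m` elements.
-/

namespace Pool.Agent.AF

private theorem pp_iff {X : Type} [Monoid X] {l : ℕ} (hl : l.Prime) (x : X) :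
    (∃ n, orderOf x = l ^ n) ↔ ∃ n, x ^ (l ^ n) = 1 := by
  constructor
  · rintro ⟨n, hn⟩
    exact ⟨n, by rw [← hn]; exact pow_orderOf_eq_one x⟩
  · rintro ⟨n, hn⟩
    obtain ⟨k, -, hk⟩ := (Nat.dvd_prime_pow hl).1 (orderOf_dvd_of_pow_eq_one hn)
    exact ⟨k, hk⟩

private theorem pp_mul {X : Type} [CommGroup X] {l : ℕ} (hl : l.Prime) {x y : X}
    (hx : ∃ n, orderOf x = l ^ n) (hy : ∃ n, orderOf y = l ^ n) :
    ∃ n, orderOf (x * y) = l ^ n := by
  rw [pp_iff hl] at hx hy ⊢
  obtain ⟨a, ha⟩ := hx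
  obtain ⟨b, hb⟩ := hy
  refine ⟨a + b, ?_⟩
  rw [mul_pow, pow_add, pow_mul, ha, one_pow, one_mul, mul_comm, pow_mul, hb, one_pow]

private theorem mem_of_cop {X : Type} [Group X] (K : Subgroup X) (y : X) (a b : ℕ)
    (h : Nat.Coprime a b) (ha : y ^ a ∈ K) (hb : y ^ b ∈ K) : y ∈ K := by
  have h1 : y = (y ^ a) ^ (Nat.gcdA a b) * (y ^ b) ^ (Nat.gcdB a b) := by
    rw [← zpow_natCast, ← zpow_natCast, ← zpow_mul, ← zpow_mul, ← zpow_add,
      ← Nat.gcd_eq_gcd_ab, h.gcd_eq_one]
    simp
  rw [h1]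
  exact K.mul_mem (K.zpow_mem ha _) (K.zpow_mem hb _)

/-- `x` is in any subgroup which contains `x * y`, if the orders are coprime. -/
private theorem left_mem {X : Type} [CommGroup X] (K : Subgroup X) {x y : X}
    (h : Nat.Coprime (orderOf x) (orderOf y)) (hK : x * y ∈ K) : x ∈ K := by
  refine mem_of_cop K x (orderOf y) (orderOf x) h.symm ?_ ?_
  · have h1 : (x * y) ^ orderOf y = x ^ orderOf y := by
      rw [mul_pow, pow_orderOf_eq_one, mul_one]
    rw [← h1]
    exact K.pow_mem hK _
  · rw [pow_orderOf_eq_one]; exact K.one_mem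

/-- an element of `l`-power order of `U`, not in `W`. -/
private theorem exists_pp {X : Type} [CommGroup X] [Finite X] (U W : Subgroup X) (m : ℕ)
    (hcard : Nat.card U = m * Nat.card W) (l : ℕ) (hl : l.Prime) (hlm : l ∣ m) :
    ∃ z ∈ U, (∃ n, orderOf z = l ^ n) ∧ z ∉ W := by
  have : Fact l.Prime := ⟨hl⟩
  by_contra hcon
  push Not at hcon
  obtain ⟨P⟩ : Nonempty (Sylow l U) := inferInstance
  have hP := P.card_eq_multiplicity
  have hle : ((P : Subgroup U).map U.subtype) ≤ W := by
    rintro x ⟨y, hy, rfl⟩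
    refine hcon _ y.2 ?_
    have h1 : IsPGroup l P := P.isPGroup'
    obtain ⟨k, hk⟩ := h1 ⟨y, hy⟩
    rw [pp_iff hl]
    refine ⟨k, ?_⟩
    have h2 := congrArg (fun z : P => ((z : U) : X)) hk
    simpa using h2
  have h3 := Subgroup.card_dvd_of_le hle
  have h4 : Nat.card ((P : Subgroup U).map U.subtype) = Nat.card P :=
    Nat.card_congr ((P : Subgroup U).equivMapOfInjective U.subtype
      (Subgroup.subtype_injective U)).toEquiv.symm
  rw [h4, hP, hcard] at h3
  have hU : Nat.card U ≠ 0 := Nat.card_pos.ne'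
  have hW : Nat.card W ≠ 0 := Nat.card_pos.ne'
  have hm0 : m ≠ 0 := by
    rintro rfl
    rw [zero_mul] at hcard
    exact hU hcard
  have h5 := (hl.pow_dvd_iff_le_factorization hW).1 h3
  rw [Nat.factorization_mul hm0 hW] at h5
  have h6 : 0 < m.factorization l := hl.factorization_pos_of_dvd hm0 hlm
  simp only [Finsupp.coe_add, Pi.add_apply] at h5
  omega

/-- elements of prime power order generate -/
private theorem le_of_pp {X : Type} [CommGroup X] [Finite X] (H K : Subgroup X)
    (h : ∀ l : ℕ, l.Prime → ∀ y ∈ H, (∃ n, orderOf y = l ^ n) → y ∈ K) : H ≤ K := by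
  have key : ∀ n : ℕ, ∀ y ∈ H, orderOf y = n → y ∈ K := by
    intro n
    induction n using Nat.strong_induction_on with
    | _ n ih =>
      intro y hy hn
      by_cases h1 : n = 1
      · rw [h1, orderOf_eq_one_iff] at hn
        rw [hn]; exact K.one_mem
      have hn0 : n ≠ 0 := by
        rw [← hn]; exact (orderOf_pos y).ne'
      obtain ⟨l, hl, hln⟩ := Nat.exists_prime_and_dvd h1
      obtain ⟨a, b, hb, hab⟩ := Nat.exists_eq_pow_mul_and_not_dvd hn0 l hl.ne_one
      have ha : a ≠ 0 := by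
        rintro rfl
        rw [pow_zero, one_mul] at hab
        exact hb (hab ▸ hln)
      have hb0 : 0 < b := by
        rcases Nat.eq_zero_or_pos b with h0 | h0
        · rw [h0, mul_zero] at hab; exact absurd hab hn0
        · exact h0
      have hcop : Nat.Coprime b (l ^ a) :=
        (((Nat.Prime.coprime_iff_not_dvd hl).2 hb).pow_left a).symm
      refine mem_of_cop K y b (l ^ a) hcop ?_ ?_
      · refine h l hl _ (H.pow_mem hy _) ((pp_iff hl _).2 ⟨a, ?_⟩)
        rw [← pow_mul, mul_comm, ← hab, ← hn, pow_orderOf_eq_one]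
      · refine ih (orderOf (y ^ l ^ a)) ?_ _ (H.pow_mem hy _) rfl
        have h2 : orderOf (y ^ l ^ a) ∣ b := by
          apply orderOf_dvd_of_pow_eq_one
          rw [← pow_mul, ← hab, ← hn, pow_orderOf_eq_one]
        have h3 := Nat.le_of_dvd hb0 h2
        have h4 : b < n := by
          rw [hab]
          have : 1 < l ^ a := Nat.one_lt_pow ha hl.one_lt
          nlinarith
        omega
  intro y hy
  exact key _ y hy rfl

private theorem alpha {X ι : Type} [CommGroup X] (U W : ι → Subgroup X)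
    (hex : ∀ x : X, x ≠ 1 → ∃ i, x ∈ U i ∧ x ∉ W i)
    (huniq : ∀ (x : X) (i j : ι), x ∈ U i → x ∉ W i → x ∈ U j → x ∉ W j → U i = U j ∧ W i = W j)
    (l l' : ℕ) (hl : l.Prime) (hl' : l'.Prime) (hne : l ≠ l')
    (i j : ι) (hij : ¬ (U i = U j ∧ W i = W j)) (x y : X) (hx : x ∈ U i) (hx' : x ∉ W i)
    (hxo : ∃ n, orderOf x = l ^ n) (hy : y ∈ U j) (hy' : y ∉ W j)
    (hyo : ∃ n, orderOf y = l' ^ n) : y ∈ W i ∨ x ∈ W j := by
  obtain ⟨a, ha⟩ := hxo
  obtain ⟨b, hb⟩ := hyo
  have hcop : Nat.Coprime (orderOf x) (orderOf y) := by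
    rw [ha, hb]
    exact Nat.Coprime.pow _ _ ((Nat.coprime_primes hl hl').2 hne)
  have hxy : x * y ≠ 1 := by
    intro h1
    have h2 : x ∈ (⊥ : Subgroup X) := left_mem ⊥ hcop (by rw [h1]; exact Subgroup.one_mem _)
    rw [Subgroup.mem_bot] at h2
    exact hx' (h2 ▸ (W i).one_mem)
  obtain ⟨t, ht, ht'⟩ := hex _ hxy
  have hxt : x ∈ U t := left_mem _ hcop ht
  have hyt : y ∈ U t := left_mem _ hcop.symm (by rw [mul_comm]; exact ht)
  by_cases h1 : x ∈ W t
  · have h2 : y ∉ W t := fun h3 => ht' ((W t).mul_mem h1 h3)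
    obtain ⟨e1, e2⟩ := huniq y j t hy hy' hyt h2
    right
    by_contra h4
    exact hij (huniq x i j hx hx' (e1 ▸ hxt) h4)
  · obtain ⟨e1, e2⟩ := huniq x i t hx hx' hxt h1
    left
    by_contra h4
    exact hij (huniq y i j (e1 ▸ hyt) h4 hy hy')

theorem beta {X ι : Type} [CommGroup X] [Finite X] (U W : ι → Subgroup X) (m : ℕ)
    (hWU : ∀ i, W i ≤ U i) (hcard : ∀ i, Nat.card (U i) = m * Nat.card (W i))
    (hex : ∀ x : X, x ≠ 1 → ∃ i, x ∈ U i ∧ x ∉ W i)
    (huniq : ∀ (x : X) (i j : ι), x ∈ U i → x ∉ W i → x ∈ U j → x ∉ W j → U i = U j ∧ W i = W j)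
    (l l' : ℕ) (hl : l.Prime) (hl' : l'.Prime) (hne : l ≠ l') (hlm : l ∣ m) (hlm' : l' ∣ m)
    (i j : ι) (hij : ¬ (U i = U j ∧ W i = W j)) :
    (∀ y ∈ U j, (∃ n, orderOf y = l' ^ n) → y ∈ W i) ∨
      (∀ x ∈ U i, (∃ n, orderOf x = l ^ n) → x ∈ W j) := by
  by_cases hA : ∀ y ∈ U j, (∃ n, orderOf y = l' ^ n) → y ∈ W i
  · exact Or.inl hA
  right
  push Not at hA
  obtain ⟨y0, hy0, hy0o, hy0W⟩ := hA
  have hy : ∃ y ∈ U j, (∃ n, orderOf y = l' ^ n) ∧ y ∉ W j ∧ y ∉ W i := by
    obtain ⟨z, hz, hzo, hzW⟩ := exists_pp (U j) (W j) m (hcard j) l' hl' hlm'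
    by_cases h1 : y0 ∈ W j
    · by_cases h2 : z ∈ W i
      · refine ⟨z * y0, (U j).mul_mem hz hy0, pp_mul hl' hzo hy0o, ?_, ?_⟩
        · intro h3
          exact hzW (((W j).mul_mem_cancel_right h1).1 h3)
        · intro h3
          exact hy0W (((W i).mul_mem_cancel_left h2).1 h3)
      · exact ⟨z, hz, hzo, hzW, h2⟩
    · exact ⟨y0, hy0, hy0o, h1, hy0W⟩
  obtain ⟨y, hyU, hyo, hyj, hyi⟩ := hy
  have key : ∀ x ∈ U i, x ∉ W i → (∃ n, orderOf x = l ^ n) → x ∈ W j := by
    intro x hx hx' hxo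
    rcases alpha U W hex huniq l l' hl hl' hne i j hij x y hx hx' hxo hyU hyj hyo with h | h
    · exact absurd h hyi
    · exact h
  intro x hx hxo
  by_cases hxW : x ∈ W i
  · obtain ⟨z, hz, hzo, hzW⟩ := exists_pp (U i) (W i) m (hcard i) l hl hlm
    have h1 := key z hz hzW hzo
    have h2 := key (z * x) ((U i).mul_mem hz hx)
      (fun h3 => hzW (((W i).mul_mem_cancel_right hxW).1 h3)) (pp_mul hl hzo hxo)
    exact ((W j).mul_mem_cancel_left h1).1 h2
  · exact key x hx hxW hxo

theorem comparable {X ι : Type} [CommGroup X] [Finite X] (U W : ι → Subgroup X) (m : ℕ)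
    (hWU : ∀ i, W i ≤ U i) (hcard : ∀ i, Nat.card (U i) = m * Nat.card (W i))
    (hex : ∀ x : X, x ≠ 1 → ∃ i, x ∈ U i ∧ x ∉ W i)
    (huniq : ∀ (x : X) (i j : ι), x ∈ U i → x ∉ W i → x ∈ U j → x ∉ W j → U i = U j ∧ W i = W j)
    (p q : ℕ) (hp : p.Prime) (hq : q.Prime) (hpq : p ≠ q) (hpm : p ∣ m) (hqm : q ∣ m)
    (i j : ι) (hij : ¬ (U i = U j ∧ W i = W j)) : U i ≤ W j ∨ U j ≤ W i := by
  have hb := beta U W m hWU hcard hex huniq
  -- `gamma`
  have gam : ∀ l : ℕ, l.Prime → l ∣ m → (∀ y ∈ U j, (∃ n, orderOf y = l ^ n) → y ∈ W i) →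
      (∀ x ∈ U i, (∃ n, orderOf x = l ^ n) → x ∈ W j) → False := by
    intro l hl hlm hA hB
    obtain ⟨z, hz, hzo, hzW⟩ := exists_pp (U j) (W j) m (hcard j) l hl hlm
    exact hzW (hB z (hWU i (hA z hz hzo)) hzo)
  -- elements of `l`-power order, `l` not dividing `m`
  have triv : ∀ l : ℕ, l.Prime → ¬ l ∣ m → ∀ x : X, (∃ n, orderOf x = l ^ n) → x = 1 := by
    intro l hl hlm x hx
    obtain ⟨n, hn⟩ := hx
    by_contra hx1
    obtain ⟨t, ht, ht'⟩ := hex x hx1
    apply ht'
    have hidx : (W t).relIndex (U t) = m := by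
      have h1 := Subgroup.relIndex_mul_relIndex ⊥ (W t) (U t) bot_le (hWU t)
      rw [Subgroup.relIndex_bot_left, Subgroup.relIndex_bot_left, hcard t, mul_comm] at h1
      exact Nat.eq_of_mul_eq_mul_right Nat.card_pos h1
    have h2 : x ^ m ∈ W t := by
      have h3 := Subgroup.pow_index_mem ((W t).subgroupOf (U t)) ⟨x, ht⟩
      have h4 : ((W t).subgroupOf (U t)).index = m := hidx
      rw [h4, Subgroup.mem_subgroupOf] at h3
      simpa using h3
    refine mem_of_cop (W t) x m (l ^ n) ?_ h2 ?_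
    · exact (((Nat.Prime.coprime_iff_not_dvd hl).2 hlm).pow_left n).symm
    · rw [← hn, pow_orderOf_eq_one]; exact (W t).one_mem
  have hij' : ¬ (U j = U i ∧ W j = W i) := fun h => hij ⟨h.1.symm, h.2.symm⟩
  -- the two conclusions, from one prime
  have concl1 : (∀ y ∈ U j, (∃ n, orderOf y = p ^ n) → y ∈ W i) → U j ≤ W i := by
    intro hA
    apply le_of_pp
    intro l hl y hy hyo
    by_cases hlm : l ∣ m
    · by_cases hlp : l = p
      · subst hlp
        exact hA y hy hyo
      · rcases hb p l hp hl (Ne.symm hlp) hpm hlm i j hij with h | h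
        · exact h y hy hyo
        · exact (gam p hp hpm hA h).elim
    · rw [triv l hl hlm y hyo]
      exact (W i).one_mem
  have concl2 : (∀ x ∈ U i, (∃ n, orderOf x = p ^ n) → x ∈ W j) → U i ≤ W j := by
    intro hB
    apply le_of_pp
    intro l hl x hx hxo
    by_cases hlm : l ∣ m
    · by_cases hlp : l = p
      · subst hlp
        exact hB x hx hxo
      · rcases hb l p hl hp hlp hlm hpm i j hij with h | h
        · exact (gam p hp hpm h hB).elim
        · exact h x hx hxo
    · rw [triv l hl hlm x hxo]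
      exact (W j).one_mem
  rcases hb q p hq hp (Ne.symm hpq) hqm hpm i j hij with h | h
  · exact Or.inr (concl1 h)
  · -- `B q`
    rcases hb p q hp hq hpq hpm hqm i j hij with h' | h'
    · exact (gam q hq hqm h' h).elim
    · exact Or.inl (concl2 h')

theorem exists_card_W {X ι : Type} [CommGroup X] [Finite X] (U W : ι → Subgroup X) (m : ℕ)
    (hWU : ∀ i, W i ≤ U i) (hcard : ∀ i, Nat.card (U i) = m * Nat.card (W i))
    (hex : ∀ x : X, x ≠ 1 → ∃ i, x ∈ U i ∧ x ∉ W i)
    (huniq : ∀ (x : X) (i j : ι), x ∈ U i → x ∉ W i → x ∈ U j → x ∉ W j → U i = U j ∧ W i = W j)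
    (p q : ℕ) (hp : p.Prime) (hq : q.Prime) (hpq : p ≠ q) (hpm : p ∣ m) (hqm : q ∣ m)
    (hX : m < Nat.card X) (hm : 0 < m) : ∃ j, Nat.card (W j) = m := by
  have hcomp := comparable U W m hWU hcard hex huniq p q hp hq hpq hpm hqm
  have hX1 : 1 < Nat.card X := by omega
  have : Nontrivial X := Finite.one_lt_card_iff_nontrivial.1 hX1
  obtain ⟨x0, hx0⟩ := exists_ne (1 : X)
  obtain ⟨i0, -, -⟩ := hex x0 hx0
  -- choose `i` with `|U i|` minimal
  obtain ⟨i, hi⟩ : ∃ i, ∀ j, Nat.card (U i) ≤ Nat.card (U j) := by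
    have : Nonempty ι := ⟨i0⟩
    exact ⟨Function.argmin (fun i => Nat.card (U i)), fun j =>
      Function.argmin_le (fun i => Nat.card (U i)) j⟩
  have hm2 : 2 ≤ m := le_trans hp.two_le (Nat.le_of_dvd hm hpm)
  have hlt : ∀ i, Nat.card (W i) < Nat.card (U i) := by
    intro i
    rw [hcard i]
    have : 0 < Nat.card (W i) := Nat.card_pos
    nlinarith
  have hWi : W i = ⊥ := by
    rw [eq_bot_iff]
    intro w hw
    rw [Subgroup.mem_bot]
    by_contra hw1
    obtain ⟨j, hj, hj'⟩ := hex w hw1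
    have hpair : ¬ (U i = U j ∧ W i = W j) := fun h => hj' (h.2 ▸ hw)
    rcases hcomp i j hpair with h | h
    · exact hj' (h (hWU i hw))
    · have h1 := Subgroup.card_le_of_le h
      have h2 := hi j
      have h3 := hlt i
      omega
  have hUi : Nat.card (U i) = m := by
    rw [hcard i, hWi]
    simp
  obtain ⟨x, hx⟩ : ∃ x : X, x ∉ U i := by
    by_contra hcon
    push Not at hcon
    have h1 : U i = ⊤ := by
      rw [eq_top_iff]
      intro x _
      exact hcon x
    rw [h1, Subgroup.card_top] at hUi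
    omega
  have hx1 : x ≠ 1 := by
    rintro rfl
    exact hx (U i).one_mem
  obtain ⟨j0, hj0, hj0'⟩ := hex x hx1
  have hj0U : U j0 ≠ U i := fun h => hx (h ▸ hj0)
  obtain ⟨j, hjU, hj⟩ : ∃ j, U j ≠ U i ∧ ∀ t, U t ≠ U i → Nat.card (U j) ≤ Nat.card (U t) := by
    have : Nonempty {j : ι // U j ≠ U i} := ⟨⟨j0, hj0U⟩⟩
    refine ⟨(Function.argmin (fun j : {j : ι // U j ≠ U i} => Nat.card (U j.1))).1,
      (Function.argmin (fun j : {j : ι // U j ≠ U i} => Nat.card (U j.1))).2, ?_⟩
    intro t ht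
    exact Function.argmin_le (fun j : {j : ι // U j ≠ U i} => Nat.card (U j.1)) ⟨t, ht⟩
  have hle : U i ≤ W j := by
    rcases hcomp i j (fun h => hjU h.1.symm) with h | h
    · exact h
    · exfalso
      have h1 := Subgroup.card_le_of_le h
      have h2 := hlt j
      rw [hWi] at h1
      have h3 : Nat.card (W j) ≠ 0 := Nat.card_pos.ne'
      simp at h1
      omega
  have hle' : W j ≤ U i := by
    intro w hw
    by_contra hwi
    have hw1 : w ≠ 1 := by
      rintro rfl
      exact hwi (U i).one_mem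
    obtain ⟨t, ht, ht'⟩ := hex w hw1
    have htU : U t ≠ U i := fun h => hwi (h ▸ ht)
    have hpair : ¬ (U j = U t ∧ W j = W t) := fun h => ht' (h.2 ▸ hw)
    rcases hcomp j t hpair with h | h
    · exact ht' (h (hWU j hw))
    · have h1 := Subgroup.card_le_of_le h
      have h2 := hj t htU
      have h3 := hlt j
      omega
  refine ⟨j, ?_⟩
  rw [le_antisymm hle' hle, hUi]

end Pool.Agent.AF
end

section

/-!
# TASK AF A13: if `m` has two prime divisors, some class orbit has length `m`; the quotient is an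
`(m,m,m,1)` relative difference set

PROOF of `exists_cstab`.  Apply `exists_card_W` to `X = (G →* ℂˣ)`, `ι = Bl`,
`U c = ann (bstab G c)`, `W c = ann (h.cstab ha c)`.  `bstab ≤ cstab`, so `W c ≤ U c`.
`|U c| |bstab c| = |G| = |W c| |cstab c|` (`card_ann`) and `|cstab c| = m |bstab c|` give
`|U c| = m |W c|`.  `hex` is `Par.exists_block`; `huniq`: by `Par.unique_orbit` the two blocks are
in the same orbit, and `G` is commutative so `bstab` and `cstab` are the same (`par_smul`).
`|X| = |G| = μ m m > m` (`card_dual`, `card_G`; `m ≥ 2`, `μ ≥ 1`).  The result is `c` with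
`|W c| = m`, and `|W c| |cstab c| = |G|`.

PROOF of `exists_rds`.  Let `c` be such a block, `K := bstab G c`, `N := cstab c`,
`|N| = |G|/m = μ m`, `|K| = |N|/m = μ`.  Fix a point `p0`; `S := {g : G | I (g • p0) c}`;
`|S| = k = μ m` (`g ↦ g • p0` is a bijection `G → P`); `K S = S`.
`Q := G ⧸ K`, of order `m m`; `N' :=` image of `N` in `Q`, order `m`; `R :=` image of `S`, order
`μ m / μ = m`.
For `g ∉ N`: the blocks `c` and `g • c` are not parallel and have `μ` common points; `g' • p0` is on
`g • c` iff `g⁻¹ g' ∈ S`; so the number of `s ∈ S` with `g * s ∈ S` is `μ = |K|`; this set is a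
union of `K`-cosets, so exactly one coset: exactly one `s̄ ∈ R` with `ḡ s̄ ∈ R` (if `s̄ ∈ R` and
`ḡ s̄ ∈ R` then `s ∈ S` and `g s ∈ S K = S`).
For `g ∈ N \ K`: `c` and `g • c` are parallel and different, no common point: no `s ∈ S` with
`g s ∈ S`.
-/

namespace Pool.Agent.AF

/-- `(m, m, m, 1)` relative difference set `R` in `Q` relative to `N`. -/
structure IsRDS {Q : Type} [CommGroup Q] (N : Subgroup Q) (R : Finset Q) (m : ℕ) : Prop where
  cardQ : Nat.card Q = m * m
  cardN : Nat.card N = m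
  cardR : R.card = m
  out : ∀ h : Q, h ∉ N → ∃! s : Q, s ∈ R ∧ h * s ∈ R
  inn : ∀ h ∈ N, h ≠ 1 → ∀ s ∈ R, h * s ∉ R

variable {P Bl : Type} [Finite P] [Finite Bl] {I : P → Bl → Prop} {par : Bl → Bl → Prop}
  {k lam μ m r : ℕ}

private theorem A13_bc (h : Par I par k lam μ m r) {G : Type} [CommGroup G] [MulAction G P]
    [MulAction G Bl] (ha : ∀ (g : G) (p : P) (c : Bl), I (g • p) (g • c) ↔ I p c) (c : Bl) :
    bstab G c ≤ h.cstab ha c := by
  intro g hg
  rw [h.mem_cstab ha]
  have h1 : g • c = c := hg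
  rw [h1]
  exact h.aff.equiv.refl c

private theorem A13_smul (h : Par I par k lam μ m r) {G : Type} [CommGroup G] [MulAction G P]
    [MulAction G Bl] (ha : ∀ (g : G) (p : P) (c : Bl), I (g • p) (g • c) ↔ I p c) (g : G)
    (c : Bl) : bstab G (g • c) = bstab G c ∧ h.cstab ha (g • c) = h.cstab ha c := by
  have h1 : ∀ x : G, x • g • c = g • x • c := fun x => by rw [smul_smul, smul_smul, mul_comm]
  constructor
  · ext x
    change x • g • c = g • c ↔ x • c = c
    rw [h1, smul_left_cancel_iff]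
  · ext x
    rw [h.mem_cstab ha, h.mem_cstab ha, h1, h.par_smul ha]

theorem Par.exists_cstab (h : Par I par k lam μ m r) {G : Type} [CommGroup G] [Finite G]
    [MulAction G P] [MulAction G Bl]
    (ha : ∀ (g : G) (p : P) (c : Bl), I (g • p) (g • c) ↔ I p c)
    (hfree : ∀ (g : G) (p : P), g • p = p → g = 1) (htr : ∀ p q : P, ∃ g : G, g • p = q)
    (p q : ℕ) (hp : p.Prime) (hq : q.Prime) (hpq : p ≠ q) (hpm : p ∣ m) (hqm : q ∣ m) :
    ∃ c : Bl, Nat.card (h.cstab ha c) = μ * m := by
  classical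
  have hfin : Finite (G →* ℂˣ) := finite_dual
  have hm2 := h.m2
  have hmu := h.aff.mu_pos
  have hG := h.card_G hfree htr
  obtain ⟨c, hc⟩ := exists_card_W (X := (G →* ℂˣ)) (fun c : Bl => ann (bstab G c))
    (fun c : Bl => ann (h.cstab ha c)) m (fun c L hL g hg => hL g (A13_bc h ha c hg))
    (fun c => by
      have h1 := card_ann (bstab G c)
      have h2 := card_ann (h.cstab ha c)
      have h3 := h.card_cstab ha hfree htr c
      have h4 : 0 < Nat.card (bstab G c) := Nat.card_pos
      refine Nat.eq_of_mul_eq_mul_right h4 ?_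
      rw [h1, ← h2, h3]
      ring)
    (fun L hL => h.exists_block ha hfree htr L hL)
    (fun L c d h1 h2 h3 h4 => by
      obtain ⟨g, rfl⟩ := h.unique_orbit ha hfree htr L c d h1 h2 h3 h4
      obtain ⟨h5, h6⟩ := A13_smul h ha g c
      rw [h5, h6]
      exact ⟨rfl, rfl⟩)
    p q hp hq hpq hpm hqm (by
      rw [card_dual, hG]
      nlinarith [Nat.mul_le_mul hmu (le_refl (m * m))]) (by omega)
  refine ⟨c, ?_⟩
  have h1 := card_ann (h.cstab ha c)
  rw [hc, hG] at h1
  refine Nat.eq_of_mul_eq_mul_left (show 0 < m by omega) ?_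
  rw [h1]
  ring

theorem Par.exists_rds (h : Par I par k lam μ m r) {G : Type} [CommGroup G] [Finite G]
    [MulAction G P] [MulAction G Bl]
    (ha : ∀ (g : G) (p : P) (c : Bl), I (g • p) (g • c) ↔ I p c)
    (hfree : ∀ (g : G) (p : P), g • p = p → g = 1) (htr : ∀ p q : P, ∃ g : G, g • p = q)
    (c : Bl) (hc : Nat.card (h.cstab ha c) = μ * m) :
    ∃ (Q : Type) (_ : CommGroup Q) (_ : Finite Q) (N : Subgroup Q) (R : Finset Q),
      IsRDS N R m := by
  classical
  have hm2 := h.m2
  have hmu := h.aff.mu_pos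
  have hG := h.card_G hfree htr
  have hK : Nat.card (bstab G c) = μ := by
    have h1 := h.card_cstab ha hfree htr c
    rw [hc] at h1
    refine Nat.eq_of_mul_eq_mul_left (show 0 < m by omega) ?_
    rw [← h1]
    ring
  have hP : 0 < Nat.card P := (Nat.zero_le _).trans_lt h.aff.k_lt
  obtain ⟨p0⟩ : Nonempty P := (Nat.card_pos_iff.1 hP).1
  -- the orbit map
  have hinj : Function.Injective (fun g : G => g • p0) := by
    intro g g' hgg
    have h1 : (g'⁻¹ * g) • p0 = p0 := by
      rw [mul_smul]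
      have h2 : g • p0 = g' • p0 := hgg
      rw [h2, inv_smul_smul]
    have h3 := hfree _ _ h1
    exact (inv_mul_eq_one.1 h3).symm
  have hsurj : Function.Surjective (fun g : G => g • p0) := fun q => htr p0 q
  have hpre : ∀ T : Set P, ((fun g : G => g • p0) ⁻¹' T).ncard = T.ncard := fun T =>
    Set.ncard_preimage_of_injective_subset_range hinj fun q _ => hsurj q
  set K : Subgroup G := bstab G c with hKdef
  obtain ⟨S, hS⟩ : ∃ S : Set G, S = {g : G | I (g • p0) c} := ⟨_, rfl⟩
  have hSm : ∀ g, g ∈ S ↔ I (g • p0) c := fun g => by rw [hS]; rfl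
  have hScard : S.ncard = μ * m := by
    rw [hS, ← h.hk, ← h.aff.block c]
    exact hpre {p : P | I p c}
  -- `S` is a union of cosets of `K`
  have hSK : (QuotientGroup.mk : G → G ⧸ K) ⁻¹' (QuotientGroup.mk '' S) = S := by
    refine Set.Subset.antisymm ?_ (Set.subset_preimage_image _ _)
    rintro g ⟨g', hg', hgg⟩
    have h1 : g'⁻¹ * g ∈ K := QuotientGroup.eq.1 hgg
    have h2 : (g'⁻¹ * g) • c = c := h1
    rw [hSm] at hg' ⊢
    have h3 : g • p0 = (g'⁻¹ * g) • (g' • p0) := by
      rw [smul_smul]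
      congr 1
      rw [mul_comm g'⁻¹ g, inv_mul_cancel_right]
    rw [h3, ← h2, ha]
    exact hg'
  have hmem : ∀ g : G, (g : G ⧸ K) ∈ (QuotientGroup.mk '' S : Set (G ⧸ K)) ↔ g ∈ S := by
    intro g
    constructor
    · intro h1
      rw [← hSK]
      exact h1
    · intro h1
      exact ⟨g, h1, rfl⟩
  obtain ⟨R, hR⟩ : ∃ R : Finset (G ⧸ K), ∀ x, x ∈ R ↔ x ∈ (QuotientGroup.mk '' S : Set (G ⧸ K)) :=
    ⟨(Set.toFinite (QuotientGroup.mk '' S : Set (G ⧸ K))).toFinset, fun x => by
      rw [Set.Finite.mem_toFinset]⟩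
  have hRm : ∀ g : G, (g : G ⧸ K) ∈ R ↔ g ∈ S := fun g => (hR _).trans (hmem g)
  have hcQ : Nat.card (G ⧸ K) = m * m := by
    have h1 := Subgroup.card_eq_card_quotient_mul_card_subgroup K
    rw [hG, hK] at h1
    refine Nat.eq_of_mul_eq_mul_right hmu ?_
    rw [← h1]
    ring
  refine ⟨G ⧸ K, inferInstance, inferInstance, (h.cstab ha c).map (QuotientGroup.mk' K), R, hcQ,
    ?_, ?_, ?_, ?_⟩
  · have h1 : ((h.cstab ha c).map (QuotientGroup.mk' K)).comap (QuotientGroup.mk' K) =
        h.cstab ha c :=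
      Subgroup.comap_map_eq_self (by
        rw [QuotientGroup.ker_mk']
        exact A13_bc h ha c)
    have h2 := Subgroup.index_comap_of_surjective ((h.cstab ha c).map (QuotientGroup.mk' K))
      (QuotientGroup.mk'_surjective K)
    rw [h1] at h2
    have h3 := Subgroup.card_mul_index (h.cstab ha c)
    rw [hc, hG] at h3
    have h4 : (h.cstab ha c).index = m :=
      Nat.eq_of_mul_eq_mul_left (Nat.mul_pos hmu (by omega)) h3
    have h5 := Subgroup.card_mul_index ((h.cstab ha c).map (QuotientGroup.mk' K))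
    rw [← h2, h4, hcQ] at h5
    exact Nat.eq_of_mul_eq_mul_right (by omega) h5
  · have h1 := QuotientGroup.card_preimage_mk K (QuotientGroup.mk '' S)
    rw [hSK, hK, Nat.card_coe_set_eq, Nat.card_coe_set_eq, hScard] at h1
    have h2 : (QuotientGroup.mk '' S : Set (G ⧸ K)).ncard = R.card := by
      rw [← Set.ncard_coe_finset]
      congr 1
      ext x
      rw [Finset.mem_coe, hR]
    rw [h2] at h1
    exact (Nat.eq_of_mul_eq_mul_left hmu h1).symm
  · intro x hx
    obtain ⟨g, rfl⟩ := QuotientGroup.mk_surjective x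
    have hg : ¬ par c (g • c) := fun h1 => hx ⟨g, h1, rfl⟩
    have h1 := h.aff.meet c (g • c) hg
    have h2 : ((fun s : G => (g * s) • p0) ⁻¹' {p : P | I p c ∧ I p (g • c)}).ncard = μ := by
      rw [← h1]
      refine Set.ncard_preimage_of_injective_subset_range ?_ ?_
      · intro s s' hss
        exact mul_left_cancel (hinj hss)
      · intro q _
        obtain ⟨s, hs⟩ := hsurj q
        refine ⟨g⁻¹ * s, ?_⟩
        change (g * (g⁻¹ * s)) • p0 = q
        rw [mul_inv_cancel_left]
        exact hs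
    have h3 : ((fun s : G => (g * s) • p0) ⁻¹' {p : P | I p c ∧ I p (g • c)}) =
        (QuotientGroup.mk : G → G ⧸ K) ⁻¹' {y : G ⧸ K | y ∈ R ∧ (g : G ⧸ K) * y ∈ R} := by
      ext s
      have h4 : (g : G ⧸ K) * (s : G ⧸ K) = ((g * s : G) : G ⧸ K) := rfl
      change (I ((g * s) • p0) c ∧ I ((g * s) • p0) (g • c)) ↔
        ((s : G ⧸ K) ∈ R ∧ (g : G ⧸ K) * (s : G ⧸ K) ∈ R)
      rw [h4, hRm, hRm, hSm, hSm, mul_smul, ha]
      exact and_comm
    have h5 := QuotientGroup.card_preimage_mk K {y : G ⧸ K | y ∈ R ∧ (g : G ⧸ K) * y ∈ R}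
    rw [← h3, Nat.card_coe_set_eq, Nat.card_coe_set_eq, h2, hK] at h5
    have h6 : {y : G ⧸ K | y ∈ R ∧ (g : G ⧸ K) * y ∈ R}.ncard = 1 := by
      refine Nat.eq_of_mul_eq_mul_left hmu ?_
      rw [← h5, mul_one]
    obtain ⟨y, hy⟩ := Set.ncard_eq_one.1 h6
    have h7 : ∀ z : G ⧸ K, (z ∈ R ∧ (g : G ⧸ K) * z ∈ R) ↔ z = y := fun z => by
      have h8 : z ∈ {y : G ⧸ K | y ∈ R ∧ (g : G ⧸ K) * y ∈ R} ↔ z ∈ ({y} : Set (G ⧸ K)) := by
        rw [hy]
      exact h8
    exact ⟨y, (h7 y).2 rfl, fun z hz => (h7 z).1 hz⟩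
  · rintro x ⟨g, hg, rfl⟩ hx y hy hxy
    obtain ⟨s, rfl⟩ := QuotientGroup.mk_surjective y
    have h1 : par c (g • c) := hg
    have h2 : g • c ≠ c := fun h3 => hx ((QuotientGroup.eq_one_iff g).2 h3)
    have h4 : (QuotientGroup.mk' K) g * (s : G ⧸ K) = ((g * s : G) : G ⧸ K) := rfl
    rw [h4, hRm, hSm] at hxy
    rw [hRm, hSm] at hy
    have h5 : I ((g * s) • p0) (g • c) := by
      rw [mul_smul, ha]
      exact hy
    obtain ⟨d, -, hd⟩ := h.aff.euclid c ((g * s) • p0)
    exact h2 ((hd _ ⟨h1, h5⟩).trans (hd _ ⟨h.aff.equiv.refl c, hxy⟩).symm)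

end Pool.Agent.AF
end
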