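import Mathlib
import Pool.Agent.Lib.MP_c0e0de_co.AF.A2
import Pool.Agent.Lib.MP_c0e0de_co.AF.Defs

section

/-!
# TASK AF A16: replace a commutative group acting on points and blocks by a finite one that is
faithful on points

PROOF. Let `f : G →* Equiv.Perm P × Equiv.Perm Bl := (MulAction.toPermHom G P).prod
(MulAction.toPermHom G Bl)` and `G' := f.range`, a finite group (subgroup of a finite group),
commutative because `G` is.  `G'` acts on `P` by the first and on `Bl` by the second component.
Incidence is preserved and the orbits on `P` are the same.  Faithful on points: if `(σ, τ) ∈ G'`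
and `σ = 1` then `I p (τ c) ↔ I p c` for all `p` so `τ c = c` by `hext`, and `τ = 1`.
(`CommGroup` instance on `f.range`: from `mul_comm` in `G`, e.g.
`{ (inferInstance : Group f.range) with mul_comm := ... }`; take care that the actions use the same
group structure.)
-/

namespace Pool.Agent.AF

theorem reduce {P Bl : Type} [Finite P] [Finite Bl] (I : P → Bl → Prop)
    (hext : ∀ c d : Bl, (∀ p, I p c ↔ I p d) → c = d) (G : Type) [CommGroup G] [MulAction G P]
    [MulAction G Bl] (ha : ∀ (g : G) (p : P) (c : Bl), I (g • p) (g • c) ↔ I p c) :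
    ∃ (G' : Type) (_ : CommGroup G') (_ : Finite G') (_ : MulAction G' P) (_ : MulAction G' Bl),
      (∀ (g : G') (p : P) (c : Bl), I (g • p) (g • c) ↔ I p c) ∧
      (∀ p q : P, (∃ g : G', g • p = q) ↔ ∃ g : G, g • p = q) ∧
      (∀ g : G', (∀ p : P, g • p = p) → g = 1) := by
  classical
  let f : G →* Equiv.Perm P × Equiv.Perm Bl :=
    (MulAction.toPermHom G P).prod (MulAction.toPermHom G Bl)
  let cg : CommGroup f.range := { (inferInstance : Group f.range) with
    mul_comm := by
      rintro ⟨a, g, rfl⟩ ⟨b, h, rfl⟩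
      apply Subtype.ext
      change f g * f h = f h * f g
      rw [← map_mul, mul_comm, map_mul] }
  let a1 : MulAction f.range P :=
    { smul := fun x p => x.1.1 p
      one_smul := fun p => rfl
      mul_smul := fun x y p => rfl }
  let a2 : MulAction f.range Bl :=
    { smul := fun x p => x.1.2 p
      one_smul := fun p => rfl
      mul_smul := fun x y p => rfl }
  have hfin : Finite f.range := inferInstance
  have hinc : ∀ (g : f.range) (p : P) (c : Bl), I (g.1.1 p) (g.1.2 c) ↔ I p c := by
    rintro ⟨_, g, rfl⟩ p c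
    exact ha g p c
  refine ⟨f.range, cg, hfin, a1, a2, hinc, ?_, ?_⟩
  · intro p q
    constructor
    · rintro ⟨⟨_, g, rfl⟩, h⟩
      exact ⟨g, h⟩
    · rintro ⟨g, h⟩
      exact ⟨⟨f g, g, rfl⟩, h⟩
  · intro g hg
    have h1 : g.1.1 = 1 := Equiv.ext fun p => hg p
    have h2 : g.1.2 = 1 := by
      refine Equiv.ext fun c => ?_
      apply hext
      intro p
      have h3 := hinc g p c
      rw [h1] at h3
      exact h3
    exact Subtype.ext (Prod.ext h1 h2)

end Pool.Agent.AF
end

section

/-!
# TASK AF A7: abelian groups transitive on all points but one contain `m - 1` homotheties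

`G` is a finite commutative group of automorphisms that fixes `x`, is transitive on the other
points and acts freely on them.

PROOF. `|G| = Nat.card P - 1 = (m - 1) r` (free and transitive on `{p // p ≠ x}`, which is not
empty; the arithmetic is `hv`, `hr`, `hlam`).
Let `g ≠ 1`.  The only fixed point is `x`, so `Par.fix` (for `MulAction.toPerm g`) reads
`E = m B`, where `E = {c | par c (g • c)}.ncard`, `B = {c | g • c = c}.ncard`.
If `par c (g • c)`, let `d` be the block through `x` parallel to `c`; `g • d` is parallel to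
`g • c`, so to `d`, and contains `g • x = x`: `g • d = d`.  So every class fixed by `g` contains a
fixed block, namely its block through `x`.  The number of fixed classes is `E / m = B`: hence every
fixed class contains exactly one fixed block: a block fixed by `g ≠ 1` contains `x`. (*)
(Formally: the map `{c | g • c = c} → {d | I x d ∧ g • d = d}`, `c ↦` the block through `x`
parallel to `c`; the fibres of `E → {d | I x d ∧ g • d = d}` have `m` elements, so
`#{d | I x d ∧ g • d = d} = E / m = B = #{c | g • c = c}` and the first set is contained in the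
second, so they are equal.)
Fix a block `c0` through `x` and let `H := {g | g • c0 = c0}` (the stabiliser).  Choose a block
`c1 ≠ c0` parallel to `c0` (`m ≥ 2`).  For `g ∈ H`, `g • c1` is parallel to `c0`, and `≠ c0`; by (*)
`g ↦ g • c1` is injective on `H` (if `g • c1 = g' • c1` then `g⁻¹ g'` fixes `c1 ∌ x`).
So `|H| ≤ m - 1`.  The orbit of `c0` under `G` consists of blocks through `x`, so it has at most
`r` elements (`h.deg`); `|G| = |orbit| * |H| ≤ r (m - 1) = |G|`; so `|H| = m - 1` and the orbit is
the set of ALL blocks through `x`.  `G` is commutative, so `H` fixes every block of the orbit of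
`c0`.
-/

namespace Pool.Agent.AF

variable {P Bl : Type} [Finite P] [Finite Bl] {I : P → Bl → Prop} {par : Bl → Bl → Prop}
  {k lam μ m r : ℕ}

theorem Par.singer (h : Par I par k lam μ m r) (G : Type) [CommGroup G] [Finite G]
    [MulAction G P] [MulAction G Bl] (ha : ∀ (g : G) (p : P) (c : Bl), I (g • p) (g • c) ↔ I p c)
    (x : P) (hx : ∀ g : G, g • x = x)
    (hfree : ∀ (g : G) (p : P), p ≠ x → g • p = p → g = 1)
    (htr : ∀ p q : P, p ≠ x → q ≠ x → ∃ g : G, g • p = q) :
    ∃ H : Subgroup G, Nat.card H + 1 = m ∧ ∀ g ∈ H, ∀ c : Bl, I x c → g • c = c := by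
  classical
  have : Fintype P := Fintype.ofFinite P
  have : Fintype Bl := Fintype.ofFinite Bl
  have hm2 := h.m2
  have hmu := h.aff.mu_pos
  -- the map `σ g`, `τ g` are automorphisms
  have ha' : ∀ (g : G) (p : P) (c : Bl), I (MulAction.toPerm g p) (MulAction.toPerm g c) ↔ I p c :=
    fun g p c => ha g p c
  have hpar : ∀ (g : G) (c d : Bl), par (g • c) (g • d) ↔ par c d := fun g c d =>
    h.par_map (MulAction.toPerm g) (MulAction.toPerm g) (ha' g) c d
  -- a second point
  have hP2 : 1 < Nat.card P := by
    rw [h.hv]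
    have h1 : 1 * 2 ≤ μ * m := Nat.mul_le_mul hmu hm2
    have h2 : 1 * 2 * 2 ≤ μ * m * m := Nat.mul_le_mul h1 hm2
    omega
  have : Nontrivial P := Finite.one_lt_card_iff_nontrivial.1 hP2
  obtain ⟨y, hy⟩ := exists_ne x
  -- the order of `G`
  have hGP : Nat.card G = Nat.card {p : P // p ≠ x} := by
    refine Nat.card_congr (Equiv.ofBijective (fun g : G => (⟨g • y, fun e => hy ?_⟩ :
      {p : P // p ≠ x})) ⟨?_, ?_⟩)
    · have h1 : g • y = g • x := by rw [e, hx]
      exact MulAction.injective g h1
    · intro g g' e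
      have e1 : g • y = g' • y := congrArg Subtype.val e
      have e2 : (g'⁻¹ * g) • y = y := by rw [mul_smul, e1, inv_smul_smul]
      have e3 := hfree _ y hy e2
      exact (inv_mul_eq_one.1 e3).symm
    · rintro ⟨q, hq⟩
      obtain ⟨g, hg⟩ := htr y q hy hq
      exact ⟨g, Subtype.ext hg⟩
  have hcc : Nat.card {p : P // p ≠ x} + 1 = Nat.card P := by
    rw [Nat.card_eq_fintype_card, Nat.card_eq_fintype_card, Fintype.card_subtype_compl,
      Fintype.card_subtype_eq]
    have : 0 < Fintype.card P := Fintype.card_pos_iff.2 ⟨x⟩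
    omega
  have hG : Nat.card G = (m - 1) * r := by
    obtain ⟨n, rfl⟩ : ∃ n, m = n + 1 := ⟨m - 1, by omega⟩
    have h1 := h.hlam
    have h2 := h.hr
    have h3 := h.hv
    have h4 : Nat.card G + 1 = μ * (n + 1) * (n + 1) := by rw [hGP, hcc, h3]
    have h5 : lam * n + 1 = μ * (n + 1) := by nlinarith
    rw [Nat.add_sub_cancel, h2]
    have h6 : μ * (n + 1) * (n + 1) = n * ((n + 1) * lam + 1) + 1 := by
      rw [← h5]
      ring
    omega
  -- the blocks fixed by `g ≠ 1` contain `x`
  have hstar : ∀ g : G, g ≠ 1 → ∀ c : Bl, g • c = c → I x c := by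
    intro g hg
    have hF : {p : P | MulAction.toPerm g p = p} = {x} := by
      ext p
      simp only [Set.mem_ofPred_eq, Set.mem_singleton_iff, MulAction.toPerm_apply]
      constructor
      · intro hp
        by_contra hne
        exact hg (hfree g p hne hp)
      · rintro rfl
        exact hx g
    have hfix := h.fix (MulAction.toPerm g) (MulAction.toPerm g) (ha' g)
    rw [hF, Set.ncard_singleton] at hfix
    simp only [MulAction.toPerm_apply] at hfix
    have hEB : {c : Bl | par c (g • c)}.ncard = m * {c : Bl | g • c = c}.ncard := by omega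
    -- the class of a fixed class contains a fixed block through `x`
    have hED : {c : Bl | par c (g • c)}.ncard ≤ m * {d : Bl | I x d ∧ g • d = d}.ncard := by
      have hsub : {c : Bl | par c (g • c)}.toFinset ⊆
          {d : Bl | I x d ∧ g • d = d}.toFinset.biUnion fun d => {c : Bl | par d c}.toFinset := by
        intro c hc
        rw [Set.mem_toFinset] at hc
        obtain ⟨d, ⟨hd1, hd2⟩, hd3⟩ := h.aff.euclid c x
        have hgd : g • d = d := by
          refine hd3 _ ⟨?_, ?_⟩
          · exact h.aff.equiv.trans hc ((hpar g c d).2 hd1)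
          · have h1 := (ha g x d).2 hd2
            rwa [hx] at h1
        rw [Finset.mem_biUnion]
        refine ⟨d, ?_, ?_⟩
        · rw [Set.mem_toFinset]
          exact ⟨hd2, hgd⟩
        · rw [Set.mem_toFinset]
          exact h.aff.equiv.symm hd1
      rw [Set.ncard_eq_toFinset_card', Set.ncard_eq_toFinset_card']
      refine (Finset.card_le_card hsub).trans (Finset.card_biUnion_le.trans ?_)
      refine (Finset.sum_le_card_nsmul _ _ m fun d _ => ?_).trans (by rw [smul_eq_mul, mul_comm])
      rw [← Set.ncard_eq_toFinset_card']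
      exact (h.cls d).le
    have hBD : {c : Bl | g • c = c}.ncard ≤ {d : Bl | I x d ∧ g • d = d}.ncard := by
      rw [hEB] at hED
      exact Nat.le_of_mul_le_mul_left hED (by omega)
    have hsub : {d : Bl | I x d ∧ g • d = d} ⊆ {c : Bl | g • c = c} := fun d hd => hd.2
    have heq := Set.eq_of_subset_of_ncard_le hsub hBD (Set.toFinite _)
    intro c hc
    have hc' : c ∈ {d : Bl | I x d ∧ g • d = d} := by
      rw [heq]
      exact hc
    exact hc'.1
  -- a block through `x`
  have hr0 : 0 < r := by rw [h.hr]; omega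
  obtain ⟨c0, hc0⟩ : {c : Bl | I x c}.Nonempty := by
    rw [← Set.ncard_pos (Set.toFinite _), h.deg x]
    exact hr0
  -- a parallel block
  have hcls : {d : Bl | par c0 d ∧ d ≠ c0}.ncard = m - 1 := by
    have h1 : {d : Bl | par c0 d ∧ d ≠ c0} = {d : Bl | par c0 d} \ {c0} := by
      ext d
      simp
    have h2 : c0 ∈ {d : Bl | par c0 d} := h.aff.equiv.refl c0
    rw [h1, Set.ncard_sdiff_singleton_of_mem h2, h.cls]
  obtain ⟨c1, hc1, hc1'⟩ : {d : Bl | par c0 d ∧ d ≠ c0}.Nonempty := by
    rw [← Set.ncard_pos (Set.toFinite _), hcls]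
    omega
  have hxc1 : ¬ I x c1 := by
    intro hI
    rcases (h.par_iff c0 c1).1 hc1 with e | e
    · exact hc1' e.symm
    · exact e x ⟨hc0, hI⟩
  let H : Subgroup G := MulAction.stabilizer G c0
  have hHle : Nat.card H ≤ m - 1 := by
    rw [← hcls, ← Nat.card_coe_set_eq]
    refine Nat.card_le_card_of_injective (fun g : H => (⟨g.1 • c1, ?_, ?_⟩ :
      {d : Bl | par c0 d ∧ d ≠ c0})) ?_
    · have h1 : g.1 • c0 = c0 := g.2
      have h2 := (hpar g.1 c0 c1).2 hc1
      rwa [h1] at h2
    · intro e
      have h1 : g.1 • c0 = c0 := g.2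
      exact hc1' (MulAction.injective g.1 (e.trans h1.symm))
    · intro g g' e
      have e1 : g.1 • c1 = g'.1 • c1 := congrArg Subtype.val e
      have e2 : (g'.1⁻¹ * g.1) • c1 = c1 := by rw [mul_smul, e1, inv_smul_smul]
      by_contra hne
      refine hxc1 (hstar (g'.1⁻¹ * g.1) (fun e3 => hne ?_) c1 e2)
      exact Subtype.ext (inv_mul_eq_one.1 e3).symm
  have horb : MulAction.orbit G c0 ⊆ {c : Bl | I x c} := by
    rintro _ ⟨g, rfl⟩
    have h1 := (ha g x c0).2 hc0
    rwa [hx] at h1
  have horble : (MulAction.orbit G c0).ncard ≤ r := by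
    rw [← h.deg x]
    exact Set.ncard_le_ncard horb (Set.toFinite _)
  have hprod : (MulAction.orbit G c0).ncard * Nat.card H = (m - 1) * r := by
    rw [← hG, ← Nat.card_coe_set_eq]
    have : Fintype G := Fintype.ofFinite G
    have h1 := MulAction.card_orbit_mul_card_stabilizer_eq_card_group G c0
    rw [← Nat.card_eq_fintype_card, ← Nat.card_eq_fintype_card, ← Nat.card_eq_fintype_card] at h1
    exact h1
  have hm1 : 0 < m - 1 := by omega
  have hH : Nat.card H = m - 1 := by
    refine le_antisymm hHle ?_
    by_contra hlt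
    rw [not_le] at hlt
    have h1 : (MulAction.orbit G c0).ncard * Nat.card H ≤ r * Nat.card H :=
      Nat.mul_le_mul_right _ horble
    have h2 : r * Nat.card H < r * (m - 1) := Nat.mul_lt_mul_of_pos_left hlt hr0
    rw [hprod, mul_comm (m - 1) r] at h1
    omega
  have horbr : (MulAction.orbit G c0).ncard = r := by
    rw [hH, mul_comm] at hprod
    exact Nat.eq_of_mul_eq_mul_left hm1 hprod
  have heq : MulAction.orbit G c0 = {c : Bl | I x c} :=
    Set.eq_of_subset_of_ncard_le horb (by rw [h.deg x, horbr]) (Set.toFinite _)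
  refine ⟨H, by rw [hH]; omega, fun g hg c hc => ?_⟩
  have hc' : c ∈ MulAction.orbit G c0 := by
    rw [heq]
    exact hc
  obtain ⟨g', rfl⟩ := hc'
  have hg' : g • c0 = c0 := hg
  show g • g' • c0 = g' • c0
  rw [← mul_smul, mul_comm, mul_smul, hg']

end Pool.Agent.AF
end

section

/-!
# TASK AF A9: the symmetric design of points and hyperplanes of `PG(n-1, q)`

PROOF. Let `F` be a field with `q` elements (`GaloisField`, `Nat.card`), `V = Fin n → F`, and let
`X = Y` be the set of one-dimensional subspaces, e.g. `ℙ F V` (`Projectivization F V`), or the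
quotient of the non-zero vectors by scaling.  `R [x] [y] := ∑ i, x i * y i = 0` (well defined)
(`dotProduct x y = 0`).  Number of points: `(q^n - 1)/(q - 1)`.
For `y ≠ 0` the vectors `x` with `x ⬝ᵥ y = 0` form a subspace of dimension `n - 1`, so `q^(n-1)`
vectors, and the number of `[x]` is `(q^(n-1) - 1)/(q-1)` (every point has `q - 1` representatives);
the relation is symmetric, so this is both `blk` and `deg`.  For `[x] ≠ [x']` the vectors `x, x'`
are linearly independent and `y ↦ (x ⬝ᵥ y, x' ⬝ᵥ y)` is a surjective linear map `V → F × F`, the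
kernel has `q^(n-2)` elements, so `(q^(n-2) - 1)/(q-1)` points.
-/

namespace Pool.Agent.AF

open scoped LinearAlgebra.Projectivization

section
variable {F : Type} [Field F] [Finite F] {n : ℕ}

/-- number of points in a submodule -/
private theorem A9_count (W : Submodule F (Fin n → F)) :
    (Nat.card F - 1) * {x : ℙ F (Fin n → F) | x.rep ∈ W}.ncard + 1 = Nat.card W := by
  have e1 : {x : ℙ F (Fin n → F) | x.rep ∈ W} =
      Set.range (Projectivization.map W.subtype W.injective_subtype) := by
    ext x
    constructor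
    · intro hx
      have h0 : (⟨x.rep, hx⟩ : W) ≠ 0 := fun h => x.rep_nonzero (congrArg Subtype.val h)
      refine ⟨Projectivization.mk F (⟨x.rep, hx⟩ : W) h0, ?_⟩
      rw [Projectivization.map_mk]
      exact x.mk_rep
    · rintro ⟨w, rfl⟩
      induction w using Projectivization.ind with
      | h v hv =>
        rw [Projectivization.map_mk]
        obtain ⟨a, ha⟩ := Projectivization.exists_smul_eq_mk_rep F (W.subtype v)
          (fun h => hv (Subtype.ext h))
        show (Projectivization.mk F (W.subtype v) _).rep ∈ W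
        rw [← ha]
        exact W.smul_mem _ v.2
  have e2 := Projectivization.card' F W
  rw [e1, ← Nat.card_coe_set_eq, Nat.card_range_of_injective (Projectivization.map_injective _ _),
    e2, mul_comm]

omit [Finite F] in
/-- the kernel of a surjective linear map -/
private theorem A9_ker {M : Type} [AddCommGroup M] [Module F M] [Module.Finite F M]
    (φ : (Fin n → F) →ₗ[F] M) (hφ : Function.Surjective φ) :
    Nat.card (LinearMap.ker φ) = Nat.card F ^ (n - Module.finrank F M) := by
  have h1 := LinearMap.finrank_range_add_finrank_ker φ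
  rw [LinearMap.range_eq_top.2 hφ, finrank_top, Module.finrank_fin_fun] at h1
  rw [Module.natCard_eq_pow_finrank (K := F)]
  congr 1
  omega

/-- the linear form `x ↦ x ⬝ y` -/
private def A9_f (y : Fin n → F) : (Fin n → F) →ₗ[F] F where
  toFun x := x ⬝ᵥ y
  map_add' a b := add_dotProduct a b y
  map_smul' c a := smul_dotProduct c a y

omit [Finite F] in
private theorem A9_f_surj {y : Fin n → F} (hy : y ≠ 0) : Function.Surjective (A9_f y) := by
  obtain ⟨i, hi⟩ := Function.ne_iff.1 hy
  intro a
  refine ⟨Pi.single i (a / y i), ?_⟩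
  show Pi.single i (a / y i) ⬝ᵥ y = a
  rw [single_dotProduct]
  exact div_mul_cancel₀ a hi

omit [Finite F] in
private theorem A9_g_surj {y z : Fin n → F} (hy : y ≠ 0) (hyz : ∀ c : F, c • y ≠ z) :
    Function.Surjective ((A9_f y).prod (A9_f z)) := by
  obtain ⟨i, hi⟩ := Function.ne_iff.1 hy
  rw [Pi.zero_apply] at hi
  obtain ⟨j, hj⟩ := Function.ne_iff.1 (hyz (z i / y i))
  have hD : y i * z j - y j * z i ≠ 0 := by
    intro h
    apply hj
    rw [Pi.smul_apply, smul_eq_mul, div_mul_eq_mul_div, div_eq_iff hi]
    linear_combination -h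
  rintro ⟨a, b⟩
  refine ⟨Pi.single i ((a * z j - b * y j) / (y i * z j - y j * z i)) +
    Pi.single j ((b * y i - a * z i) / (y i * z j - y j * z i)), ?_⟩
  show (_ ⬝ᵥ y, _ ⬝ᵥ z) = (a, b)
  rw [add_dotProduct, add_dotProduct, single_dotProduct, single_dotProduct, single_dotProduct,
    single_dotProduct]
  rw [Prod.mk.injEq]
  constructor
  · rw [div_mul_eq_mul_div, div_mul_eq_mul_div, ← add_div, div_eq_iff hD]
    ring
  · rw [div_mul_eq_mul_div, div_mul_eq_mul_div, ← add_div, div_eq_iff hD]
    ring

end

theorem exists_pg (q n : ℕ) (hq : IsPrimePow q) (hn : 2 ≤ n) :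
    ∃ (X Y : Type) (R : X → Y → Prop) (r s t : ℕ), IsSym X Y R r s t ∧
      (q - 1) * r + 1 = q ^ n ∧ (q - 1) * s + 1 = q ^ (n - 1) ∧ (q - 1) * t + 1 = q ^ (n - 2) := by
  obtain ⟨p, k, hp, hk, hpk⟩ := (isPrimePow_nat_iff q).1 hq
  have : Fact p.Prime := ⟨hp⟩
  have hF : Nat.card (GaloisField p k) = q := by
    rw [GaloisField.card p k hk.ne', hpk]
  have hq1 : 0 < q - 1 := by
    have := hq.one_lt
    omega
  generalize hFF : GaloisField p k = F' at hF
  revert hF
  have main : ∀ (F : Type) [Field F] [Finite F], Nat.card F = q →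
      ∃ (X Y : Type) (R : X → Y → Prop) (r s t : ℕ), IsSym X Y R r s t ∧
      (q - 1) * r + 1 = q ^ n ∧ (q - 1) * s + 1 = q ^ (n - 1) ∧ (q - 1) * t + 1 = q ^ (n - 2) := by
    intro F _ _ hF
    have hcard : ∀ d : ℕ, (q - 1) * Nat.card (ℙ F (Fin d → F)) + 1 = q ^ d := by
      intro d
      have e1 := Projectivization.card' F (Fin d → F)
      rw [hF] at e1
      rw [mul_comm, ← e1, Nat.card_fun, hF, Nat.card_eq_fintype_card, Fintype.card_fin]
    have hone : ∀ y : ℙ F (Fin n → F),
        {x : ℙ F (Fin n → F) | x.rep ⬝ᵥ y.rep = 0}.ncard = Nat.card (ℙ F (Fin (n - 1) → F)) := by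
      intro y
      have e1 := A9_count (LinearMap.ker (A9_f y.rep))
      rw [A9_ker _ (A9_f_surj y.rep_nonzero), hF, Module.finrank_self, ← hcard (n - 1)] at e1
      exact Nat.eq_of_mul_eq_mul_left hq1 (Nat.succ_injective e1)
    refine ⟨ℙ F (Fin n → F), ℙ F (Fin n → F), fun x y => x.rep ⬝ᵥ y.rep = 0,
      Nat.card (ℙ F (Fin n → F)), Nat.card (ℙ F (Fin (n - 1) → F)),
      Nat.card (ℙ F (Fin (n - 2) → F)), ⟨rfl, rfl, hone, ?_, ?_⟩, hcard _, hcard _, hcard _⟩
    · intro x
      have e1 := hone x
      have e2 : {y : ℙ F (Fin n → F) | x.rep ⬝ᵥ y.rep = 0} =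
          {y : ℙ F (Fin n → F) | y.rep ⬝ᵥ x.rep = 0} := by
        ext y
        show x.rep ⬝ᵥ y.rep = 0 ↔ y.rep ⬝ᵥ x.rep = 0
        rw [dotProduct_comm]
      rw [e2]
      exact e1
    · intro x x' hxx
      have hne : ∀ c : F, c • x.rep ≠ x'.rep := by
        intro c hc
        apply hxx
        rw [← x.mk_rep, ← x'.mk_rep]
        exact ((Projectivization.mk_eq_mk_iff' F _ _ x'.rep_nonzero x.rep_nonzero).2
          ⟨c, hc⟩).symm
      have e1 := A9_count (LinearMap.ker ((A9_f x.rep).prod (A9_f x'.rep)))
      rw [A9_ker _ (A9_g_surj x.rep_nonzero hne), hF, Module.finrank_prod, Module.finrank_self,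
        ← hcard (n - 2)] at e1
      have e2 := Nat.eq_of_mul_eq_mul_left hq1 (Nat.succ_injective e1)
      rw [← e2]
      congr 1
      ext y
      show (x.rep ⬝ᵥ y.rep = 0 ∧ x'.rep ⬝ᵥ y.rep = 0) ↔
        (y.rep ⬝ᵥ x.rep, y.rep ⬝ᵥ x'.rep) = ((0 : F), (0 : F))
      rw [Prod.mk.injEq, dotProduct_comm x.rep, dotProduct_comm x'.rep]
  subst hFF
  intro hF
  exact main _ hF

end Pool.Agent.AF
end
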