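import Pool.Agent.Lib.MP_c0e0de_co.Mg.G002
import Pool.Agent.Lib.MP_c0e0de_co.Mg.G001
import Pool.Agent.Lib.MP_c0e0de_co.Mg.G004
import Pool.Agent.Lib.MP_c0e0de_co.AF.A8

section

/-!
# TASK AF A14: abelian `(m,m,m,1)` relative difference sets, odd prime divisors of `m`

(Blokhuis-Jungnickel-Schmidt.)  For `g : Q` let `cnt p g` be the number of pairs `(a, b) ∈ R × R`
with `b ^ p = a * g`.

FACTS. `R` meets every coset of `N` in exactly one element (`inn` says at most one, `|R| = m =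
|Q / N|`).  In the group ring (any coefficient ring): `R^(-1) R = m + Q - N` where
`R^(-1) = ∑_{a ∈ R} a⁻¹`, `Q`, `N` the sums of all elements: the coefficient of `R^(-1) R` at `g` is
`#{(a, b) : b = a g}`, which is `m` for `g = 1`, `0` for `g ∈ N \ 1` and `1` for `g ∉ N`.
`Q R = m Q`, `N R = Q`.

PROOF of `dvd_cnt` (`p` odd prime, `p ∣ m`): in `MonoidAlgebra (ZMod p) Q` (commutative, char `p`)
`R^p = ∑_{b ∈ R} b^p` (Frobenius).  So the coefficient of `R^(-1) R^p` at `g` is `cnt p g mod p`.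
But `R^(-1) R^p = (m + Q - N) R^{p-1} = m R^{p-1} + m^{p-1} Q - m^{p-2} Q = 0 mod p`, because
`N R^{p-1} = Q R^{p-2} = m^{p-2} Q` and `p - 2 ≥ 1`, `m = 0` in `ZMod p`.

PROOF of `odd_prime` : `∑_g cnt p g = m^2` (every pair `(a, b)` determines `g`) and `p ∣ cnt p g`,
so `∑_g (cnt p g)^2 ≥ p ∑_g cnt p g = p m^2`.  On the other hand
`∑_g (cnt p g)^2 = #{(a, b, a', b') : b^p a⁻¹ = b'^p a'⁻¹} = ∑_{(b, b')} #{(a,a') : a' = (b'/b)^p a}`.
The inner number is `m` if `(b'/b)^p = 1` and at most `1` otherwise (`out`, `inn`).  The pairs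
`(b, b')` with `b' = b`: `m` of them.  For `h ≠ 1` there is at most one pair with `b'/b = h`
(none if `h ∈ N`).  So
`∑_g (cnt p g)^2 ≤ m * m + m * #{h ≠ 1 : h^p = 1} + #{(b,b') : b ≠ b'}
 ≤ m^2 + m (T - 1) + (m^2 - m)`, `T = #{h : h^p = 1}`.
Hence `p m^2 ≤ 2 m^2 + m T - 2 m`, `(p - 2) m + 2 ≤ T`; with `p ≥ 3`: `m < T`.
-/

namespace Pool.Agent.AF

open scoped Classical in
/-- number of pairs `(a, b) ∈ R × R` with `b ^ p = a * g` -/
noncomputable def cnt {Q : Type} [CommGroup Q] (R : Finset Q) (p : ℕ) (g : Q) : ℕ :=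
  ((R ×ˢ R).filter (fun ab : Q × Q => ab.2 ^ p = ab.1 * g)).card

private theorem A14_pos {Q : Type} [CommGroup Q] [Finite Q] {N : Subgroup Q} {R : Finset Q} {m : ℕ}
    (h : IsRDS N R m) : 0 < m := by
  rcases Nat.eq_zero_or_pos m with h0 | h0
  · have h1 := h.cardQ
    rw [h0, mul_zero] at h1
    have h2 : 0 < Nat.card Q := Nat.card_pos
    omega
  · exact h0

/-- At most one element of `R` is moved into `R` by `t ≠ 1`. -/
private theorem A14_one {Q : Type} [CommGroup Q] {N : Subgroup Q} {R : Finset Q} {m : ℕ}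
    (h : IsRDS N R m) {t : Q} (ht : t ≠ 1) {a c : Q} (ha : a ∈ R) (ha' : t * a ∈ R) (hc : c ∈ R)
    (hc' : t * c ∈ R) : a = c := by
  by_cases hN : t ∈ N
  · exact absurd ha' (h.inn t hN ht a ha)
  · obtain ⟨s, _, hs⟩ := h.out t hN
    rw [hs a ⟨ha, ha'⟩, hs c ⟨hc, hc'⟩]

private theorem A14_alg {Q : Type} [CommGroup Q] [Fintype Q] {N : Subgroup Q} {R : Finset Q} {m : ℕ}
    (h : IsRDS N R m) (p : ℕ) [Fact p.Prime] (hp2 : p ≠ 2) (hpm : p ∣ m) :
    (∑ a ∈ R, MonoidAlgebra.single a⁻¹ (1 : ZMod p)) * (∑ b ∈ R, MonoidAlgebra.single b (1 : ZMod p)) ^ p = 0 := by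
  classical
  have hm0 : ((m : ℕ) : ZMod p) = 0 := (ZMod.natCast_eq_zero_iff m p).2 hpm
  have hmpos := A14_pos h
  set Ri : MonoidAlgebra (ZMod p) Q := ∑ a ∈ R, MonoidAlgebra.single a⁻¹ 1 with hRi
  set Rs : MonoidAlgebra (ZMod p) Q := ∑ b ∈ R, MonoidAlgebra.single b 1 with hRs
  set Qs : MonoidAlgebra (ZMod p) Q := ∑ q : Q, MonoidAlgebra.single q 1 with hQs
  set Ns : MonoidAlgebra (ZMod p) Q := ∑ n : N, MonoidAlgebra.single (n : Q) 1 with hNs
  -- Qs * Rs = 0
  have h1 : Qs * Rs = 0 := by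
    have h2 : ∀ b : Q, Qs * MonoidAlgebra.single b 1 = Qs := by
      intro b
      rw [hQs, Finset.sum_mul]
      simp only [MonoidAlgebra.single_mul_single, mul_one]
      exact Fintype.sum_equiv (Equiv.mulRight b) _ _ (fun q => rfl)
    rw [hRs, Finset.mul_sum]
    simp only [h2]
    rw [Finset.sum_const, h.cardR, ← Nat.cast_smul_eq_nsmul (ZMod p), hm0, zero_smul]
  -- Ns * Rs = Qs
  have h3 : Ns * Rs = Qs := by
    have hbij : Function.Bijective (fun x : N × R => (x.1 : Q) * (x.2 : Q)) := by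
      rw [Fintype.bijective_iff_injective_and_card]
      constructor
      · rintro ⟨⟨n, hn⟩, ⟨b, hb⟩⟩ ⟨⟨n', hn'⟩, ⟨b', hb'⟩⟩ hxy
        simp only at hxy
        have h4 : (n'⁻¹ * n) * b = b' := by
          rw [mul_assoc, hxy, inv_mul_cancel_left]
        by_cases h5 : n'⁻¹ * n = 1
        · rw [h5, one_mul] at h4
          have h6 : n = n' := by
            rw [inv_mul_eq_one] at h5
            exact h5.symm
          subst h4
          subst h6
          rfl
        · have h6 := h.inn (n'⁻¹ * n) (N.mul_mem (N.inv_mem hn') hn) h5 b hb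
          rw [h4] at h6
          exact absurd hb' h6
      · rw [Fintype.card_prod, Fintype.card_coe, h.cardR, ← Nat.card_eq_fintype_card, h.cardN,
          ← Nat.card_eq_fintype_card, h.cardQ]
    rw [hNs, hRs, hQs, ← Finset.sum_coe_sort R, Finset.sum_mul_sum, ← Fintype.sum_prod_type']
    simp only [MonoidAlgebra.single_mul_single, mul_one]
    exact Fintype.sum_bijective _ hbij _ _ (fun x => rfl)
  -- Ri * Rs = Qs - Ns
  have h4 : Ri * Rs = Qs - Ns := by
    rw [hRi, hRs, Finset.sum_mul_sum]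
    simp only [MonoidAlgebra.single_mul_single, mul_one]
    ext g
    have e1 : (∑ i ∈ R, ∑ j ∈ R, MonoidAlgebra.single (i⁻¹ * j) (1 : ZMod p)).coeff g =
        ((R.filter (fun a => g * a ∈ R)).card : ZMod p) := by
      rw [Finset.card_filter, Nat.cast_sum]
      rw [MonoidAlgebra.coeff_sum, Finsupp.finsetSum_apply]
      refine Finset.sum_congr rfl fun i _ => ?_
      rw [MonoidAlgebra.coeff_sum, Finsupp.finsetSum_apply]
      have e2 : ∀ j, (MonoidAlgebra.single (i⁻¹ * j) (1 : ZMod p)).coeff g = if g * i = j then 1 else 0 := by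
        intro j
        rw [MonoidAlgebra.coeff_single, Finsupp.single_apply]
        have : i⁻¹ * j = g ↔ g * i = j := by
          rw [inv_mul_eq_iff_eq_mul, mul_comm i g, eq_comm]
        simp only [this]
      simp only [e2]
      rw [Finset.sum_ite_eq]
      split_ifs <;> simp
    have e3 : Qs.coeff g = 1 := by
      rw [hQs, MonoidAlgebra.coeff_sum, Finsupp.finsetSum_apply]
      simp
    have e4 : Ns.coeff g = if g ∈ N then 1 else 0 := by
      rw [hNs, MonoidAlgebra.coeff_sum, Finsupp.finsetSum_apply]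
      simp only [MonoidAlgebra.coeff_single, Finsupp.single_apply]
      split_ifs with hg
      · rw [Finset.sum_eq_single (⟨g, hg⟩ : N)]
        · simp
        · intro b _ hb
          rw [if_neg]
          intro hcon
          exact hb (Subtype.ext hcon)
        · intro hcon
          exact absurd (Finset.mem_univ _) hcon
      · apply Finset.sum_eq_zero
        intro b _
        rw [if_neg]
        intro hcon
        exact hg (hcon ▸ b.2)
    have e5 : (Qs - Ns).coeff g = Qs.coeff g - Ns.coeff g := by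
      simp
    rw [e1, e5, e3, e4]
    by_cases hg : g ∈ N
    · rw [if_pos hg, sub_self]
      by_cases hg1 : g = 1
      · subst hg1
        simp only [one_mul]
        rw [Finset.filter_true_of_mem (fun a ha => ha), h.cardR, hm0]
      · rw [Finset.filter_false_of_mem (fun a ha => h.inn g hg hg1 a ha)]
        simp
    · rw [if_neg hg, sub_zero]
      obtain ⟨s, hs, huniq⟩ := h.out g hg
      have : R.filter (fun a => g * a ∈ R) = {s} := by
        ext a
        rw [Finset.mem_filter, Finset.mem_singleton]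
        constructor
        · intro ha
          exact huniq a ha
        · rintro rfl
          exact hs
      rw [this]
      simp
  have hp3 : 3 ≤ p := by
    have := (Fact.out : p.Prime).two_le
    omega
  obtain ⟨q, hq⟩ : ∃ q, p = q + 3 := ⟨p - 3, by omega⟩
  have e : Rs ^ p = Rs * (Rs * (Rs * Rs ^ q)) := by
    have e0 : Rs ^ p = Rs ^ (q + 3) := congrArg (fun k => Rs ^ k) hq
    rw [e0]; ring
  rw [e, ← mul_assoc, h4, sub_mul, ← mul_assoc Qs, h1, zero_mul, ← mul_assoc Ns, h3, ← mul_assoc Qs, h1, zero_mul,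
    sub_zero]

private theorem A14_coeff {Q : Type} [CommGroup Q] [Fintype Q] {R : Finset Q} (p : ℕ) [Fact p.Prime] (g : Q) :
    ((∑ a ∈ R, MonoidAlgebra.single a⁻¹ (1 : ZMod p)) * (∑ b ∈ R, MonoidAlgebra.single b (1 : ZMod p)) ^ p).coeff g =
      (cnt R p g : ZMod p) := by
  classical
  have : CharP (MonoidAlgebra (ZMod p) Q) p :=
    charP_of_injective_algebraMap (FaithfulSMul.algebraMap_injective (ZMod p) (MonoidAlgebra (ZMod p) Q)) p
  rw [sum_pow_char]
  simp only [MonoidAlgebra.single_pow, one_pow]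
  rw [Finset.sum_mul_sum]
  simp only [MonoidAlgebra.single_mul_single, mul_one]
  unfold cnt
  rw [Finset.card_filter, Nat.cast_sum, Finset.sum_product, MonoidAlgebra.coeff_sum, Finsupp.finsetSum_apply]
  refine Finset.sum_congr rfl fun i _ => ?_
  rw [MonoidAlgebra.coeff_sum, Finsupp.finsetSum_apply]
  refine Finset.sum_congr rfl fun j _ => ?_
  rw [MonoidAlgebra.coeff_single, Finsupp.single_apply]
  have : i⁻¹ * j ^ p = g ↔ j ^ p = i * g := inv_mul_eq_iff_eq_mul
  simp only [this]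
  split_ifs <;> simp

theorem IsRDS.dvd_cnt {Q : Type} [CommGroup Q] [Finite Q] {N : Subgroup Q} {R : Finset Q} {m : ℕ}
    (h : IsRDS N R m) (p : ℕ) (hp : p.Prime) (hp2 : p ≠ 2) (hpm : p ∣ m) (g : Q) :
    p ∣ cnt R p g := by
  have : Fact p.Prime := ⟨hp⟩
  have : Fintype Q := Fintype.ofFinite Q
  have h1 := A14_alg h p hp2 hpm
  have h2 := A14_coeff (R := R) p g
  rw [h1] at h2
  have h3 : ((cnt R p g : ℕ) : ZMod p) = 0 := h2.symm
  exact (ZMod.natCast_eq_zero_iff _ p).1 h3

theorem IsRDS.odd_prime {Q : Type} [CommGroup Q] [Finite Q] {N : Subgroup Q} {R : Finset Q}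
    {m : ℕ} (h : IsRDS N R m) (p : ℕ) (hp : p.Prime) (hp2 : p ≠ 2) (hpm : p ∣ m) :
    m < Nat.card {x : Q // x ^ p = 1} := by
  classical
  have : Fintype Q := Fintype.ofFinite Q
  have hmpos := A14_pos h
  obtain ⟨T, hT⟩ : ∃ T, T = Nat.card {x : Q // x ^ p = 1} := ⟨_, rfl⟩
  rw [← hT]
  have hp3 : 3 ≤ p := by
    have := hp.two_le
    omega
  -- the counts as sums
  have hc : ∀ g, cnt R p g = ∑ x ∈ R ×ˢ R, if x.1⁻¹ * x.2 ^ p = g then 1 else 0 := by
    intro g
    unfold cnt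
    rw [Finset.card_filter]
    refine Finset.sum_congr rfl fun x _ => ?_
    have : x.1⁻¹ * x.2 ^ p = g ↔ x.2 ^ p = x.1 * g := inv_mul_eq_iff_eq_mul
    simp only [this]
  have hsum : ∑ g : Q, cnt R p g = m * m := by
    simp only [hc]
    rw [Finset.sum_comm]
    simp [h.cardR]
  have hsq : p * (m * m) ≤ ∑ g : Q, cnt R p g * cnt R p g := by
    rw [← hsum, Finset.mul_sum]
    refine Finset.sum_le_sum fun g _ => ?_
    obtain ⟨c, hcg⟩ := h.dvd_cnt p hp hp2 hpm g
    rcases Nat.eq_zero_or_pos (cnt R p g) with h0 | h0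
    · rw [h0, mul_zero, mul_zero]
    · exact Nat.mul_le_mul_right _ (Nat.le_of_dvd h0 ⟨c, hcg⟩)
  have hsq2 : ∑ g : Q, cnt R p g * cnt R p g =
      ∑ b ∈ R, ∑ b' ∈ R, ∑ a ∈ R, ∑ a' ∈ R, if a⁻¹ * b ^ p = a'⁻¹ * b' ^ p then 1 else 0 := by
    simp only [hc, Finset.sum_mul_sum]
    rw [Finset.sum_comm]
    have e1 : ∀ x ∈ R ×ˢ R, (∑ g : Q, ∑ y ∈ R ×ˢ R, (if x.1⁻¹ * x.2 ^ p = g then 1 else 0) *
        (if y.1⁻¹ * y.2 ^ p = g then 1 else 0)) =
        ∑ y ∈ R ×ˢ R, if x.1⁻¹ * x.2 ^ p = y.1⁻¹ * y.2 ^ p then 1 else 0 := by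
      intro x _
      rw [Finset.sum_comm]
      refine Finset.sum_congr rfl fun y _ => ?_
      rw [Finset.sum_eq_single (x.1⁻¹ * x.2 ^ p)]
      · simp only [if_true, one_mul]
        by_cases h7 : x.1⁻¹ * x.2 ^ p = y.1⁻¹ * y.2 ^ p
        · rw [if_pos h7, if_pos h7.symm]
        · rw [if_neg h7, if_neg (fun h => h7 h.symm)]
      · intro g _ hg
        rw [if_neg (fun h => hg h.symm), zero_mul]
      · intro hcon
        exact absurd (Finset.mem_univ _) hcon
    rw [Finset.sum_congr rfl e1]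
    simp only [Finset.sum_product]
    rw [Finset.sum_comm]
    refine Finset.sum_congr rfl fun b _ => ?_
    have e2 : ∀ a ∈ R, (∑ a' ∈ R, ∑ b' ∈ R, if a⁻¹ * b ^ p = a'⁻¹ * b' ^ p then 1 else 0) =
        ∑ b' ∈ R, ∑ a' ∈ R, if a⁻¹ * b ^ p = a'⁻¹ * b' ^ p then 1 else 0 := fun a _ => Finset.sum_comm
    rw [Finset.sum_congr rfl e2, Finset.sum_comm]
  have hinner : ∀ b ∈ R, ∀ b' ∈ R, (∑ a ∈ R, ∑ a' ∈ R, if a⁻¹ * b ^ p = a'⁻¹ * b' ^ p then 1 else 0) ≤
      if (b' * b⁻¹) ^ p = 1 then m else 1 := by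
    intro b _ b' _
    have e0 : ∀ a a' : Q, a⁻¹ * b ^ p = a'⁻¹ * b' ^ p ↔ (b' * b⁻¹) ^ p * a = a' := by
      intro a a'
      rw [mul_pow, inv_pow]
      constructor
      · intro h1
        have h2 : b' ^ p = a' * (a⁻¹ * b ^ p) := by rw [h1, mul_inv_cancel_left]
        rw [h2]
        rw [show a' * (a⁻¹ * b ^ p) * (b ^ p)⁻¹ * a = a' * ((a⁻¹ * a) * (b ^ p * (b ^ p)⁻¹)) by
          simp only [mul_comm, mul_left_comm, mul_assoc]]
        simp
      · intro h1
        rw [← h1, mul_inv]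
        rw [show ((b' ^ p * (b ^ p)⁻¹)⁻¹ * a⁻¹) * b' ^ p = a⁻¹ * b ^ p * ((b' ^ p)⁻¹ * b' ^ p) by
          rw [mul_inv, inv_inv]
          simp only [mul_comm, mul_left_comm, mul_assoc]]
        simp
    have e1 : (∑ a ∈ R, ∑ a' ∈ R, if a⁻¹ * b ^ p = a'⁻¹ * b' ^ p then 1 else 0) =
        (R.filter (fun a => (b' * b⁻¹) ^ p * a ∈ R)).card := by
      rw [Finset.card_filter]
      refine Finset.sum_congr rfl fun a _ => ?_
      simp only [e0]
      rw [Finset.sum_ite_eq]
    rw [e1]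
    split_ifs with h1
    · rw [← h.cardR]
      exact Finset.card_le_card (Finset.filter_subset _ _)
    · rw [Finset.card_le_one]
      intro a ha c hc'
      rw [Finset.mem_filter] at ha hc'
      exact A14_one h h1 ha.1 ha.2 hc'.1 hc'.2
  obtain ⟨E, hE⟩ : ∃ E, E = ((R ×ˢ R).filter (fun x : Q × Q => (x.2 * x.1⁻¹) ^ p = 1)).card := ⟨_, rfl⟩
  have hE2 : ∑ g : Q, cnt R p g * cnt R p g + E ≤ m * E + m * m := by
    rw [hsq2]
    have e1 : (∑ b ∈ R, ∑ b' ∈ R, ∑ a ∈ R, ∑ a' ∈ R, if a⁻¹ * b ^ p = a'⁻¹ * b' ^ p then 1 else 0) ≤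
        ∑ b ∈ R, ∑ b' ∈ R, if (b' * b⁻¹) ^ p = 1 then m else 1 :=
      Finset.sum_le_sum fun b hb => Finset.sum_le_sum fun b' hb' => hinner b hb b' hb'
    have e2 : (∑ b ∈ R, ∑ b' ∈ R, if (b' * b⁻¹) ^ p = 1 then m else 1) =
        ∑ x ∈ R ×ˢ R, if (x.2 * x.1⁻¹) ^ p = 1 then m else 1 := by
      rw [Finset.sum_product]
    have e3 : (∑ x ∈ R ×ˢ R, if (x.2 * x.1⁻¹) ^ p = 1 then m else 1) + E = m * E + m * m := by
      have e4 : E = ∑ x ∈ R ×ˢ R, if (x.2 * x.1⁻¹) ^ p = 1 then 1 else 0 := by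
        rw [hE, Finset.card_filter]
      have e5 : m * m = ∑ x ∈ R ×ˢ R, 1 := by
        simp [h.cardR]
      rw [e4, e5, Finset.mul_sum, ← Finset.sum_add_distrib, ← Finset.sum_add_distrib]
      refine Finset.sum_congr rfl fun x _ => ?_
      split_ifs <;> simp
    omega
  have hE3 : E + 1 ≤ m + T := by
    have e1 : (R ×ˢ R).filter (fun x : Q × Q => (x.2 * x.1⁻¹) ^ p = 1) ⊆
        (R.image (fun b => (b, b))) ∪ ((R ×ˢ R).filter (fun x : Q × Q => (x.2 * x.1⁻¹) ^ p = 1 ∧ x.1 ≠ x.2)) := by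
      intro x hx
      rw [Finset.mem_filter, Finset.mem_product] at hx
      rw [Finset.mem_union]
      by_cases h1 : x.1 = x.2
      · left
        rw [Finset.mem_image]
        exact ⟨x.1, hx.1.1, Prod.ext rfl h1⟩
      · right
        rw [Finset.mem_filter, Finset.mem_product]
        exact ⟨hx.1, hx.2, h1⟩
    have e2 := (Finset.card_le_card e1).trans (Finset.card_union_le _ _)
    have e3 : (R.image (fun b => (b, b))).card ≤ m := Finset.card_image_le.trans h.cardR.le
    have e4 : ((R ×ˢ R).filter (fun x : Q × Q => (x.2 * x.1⁻¹) ^ p = 1 ∧ x.1 ≠ x.2)).card ≤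
        ((Finset.univ.filter (fun x : Q => x ^ p = 1)).erase 1).card := by
      refine Finset.card_le_card_of_injOn (fun x => x.2 * x.1⁻¹) ?_ ?_
      · intro x hx
        rw [Finset.mem_coe, Finset.mem_filter] at hx
        rw [Finset.mem_coe, Finset.mem_erase, Finset.mem_filter]
        refine ⟨?_, Finset.mem_univ _, hx.2.1⟩
        intro h1
        exact hx.2.2 (mul_inv_eq_one.1 h1).symm
      · intro x hx y hy hxy
        rw [Finset.mem_coe, Finset.mem_filter, Finset.mem_product] at hx hy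
        simp only at hxy
        have h1 : x.2 * x.1⁻¹ ≠ 1 := fun h1 => hx.2.2 (mul_inv_eq_one.1 h1).symm
        have h2 : x.1 = y.1 := A14_one h h1 hx.1.1 (by rw [inv_mul_cancel_right]; exact hx.1.2) hy.1.1
          (by rw [hxy, inv_mul_cancel_right]; exact hy.1.2)
        have h3 : x.2 = y.2 := by
          rw [h2] at hxy
          exact mul_right_cancel hxy
        exact Prod.ext h2 h3
    have e5 : (Finset.univ.filter (fun x : Q => x ^ p = 1)).card = T := by
      rw [hT, Nat.card_eq_fintype_card, Fintype.card_subtype]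
    have e6 : ((Finset.univ.filter (fun x : Q => x ^ p = 1)).erase 1).card = T - 1 := by
      rw [Finset.card_erase_of_mem, e5]
      rw [Finset.mem_filter]
      exact ⟨Finset.mem_univ _, one_pow p⟩
    have e7 : 0 < T := by
      rw [← e5, Finset.card_pos]
      exact ⟨1, by rw [Finset.mem_filter]; exact ⟨Finset.mem_univ _, one_pow p⟩⟩
    rw [← hE] at e2
    omega
  by_contra hcon
  push Not at hcon
  have f1 : 3 * (m * m) ≤ p * (m * m) := Nat.mul_le_mul_right _ hp3
  have f2 : 3 * (m * m) + E ≤ m * E + m * m := by omega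
  have f3 : E + 1 ≤ 2 * m := by omega
  obtain ⟨k, rfl⟩ : ∃ k, m = k + 1 := ⟨m - 1, by omega⟩
  nlinarith

end Pool.Agent.AF
end

section

/-!
# TASK AF A15: abelian `(m,m,m,1)` relative difference sets with `m` even; conclusion

PROOF of `two_pow` (`2 ∣ m`).  In `MonoidAlgebra (ZMod 2) Q` (notation of `A14`):
`R^(-1) R^2 = (m + Q - N) R = m R + m Q - Q = Q mod 2` (`-1 = 1`), and `R^2 = ∑ b^2`; so `cnt R 2 g`
is odd for every `g`; the sum over `g` of `cnt R 2 g` is `m^2 = |Q|`, so `cnt R 2 g = 1` for every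
`g`: (*) for every `g` there is exactly one pair `(a, b) ∈ R × R` with `b^2 = a g`.
Now work in `MonoidAlgebra ℤ Q` or count directly: `R^(-1) ∑ b^2 = Q`, multiply by `R`:
`(m + Q - N) ∑ b^2 = m Q`, so `m ∑ b^2 + m Q - N ∑ b^2 = m Q`, `m ∑ b^2 = N ∑ b^2`: for every `g`:
`m * #{b ∈ R : b^2 = g} = #{b ∈ R : b^2 ∈ g N}` (right side at most `m`).  Take `b0 ∈ R`,
`g = b0^2`: all `b ∈ R` have `b^2 ∈ b0^2 N`.  `R` meets every coset of `N`, so all elements of
`Q ⧸ N` have the same square, which is `1`.  `Q ⧸ N` is a group of exponent dividing `2` and order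
`m`; so `m` is a power of `2` (`IsPGroup`).

PROOF of `isPrimePow`.  If `m` is even: `two_pow`, `m ≥ 2`.  If `m` is odd: let `p` be a prime
divisor and `m = p^a u` with `p ∤ u`; we claim `u = 1`.  Otherwise let `q` be a prime divisor of
`u`, `m = q^b w`, `q ∤ w`.  The elements `x` with `x^p = 1` form a `p`-group, a subgroup of `Q`,
`|Q| = m^2`, so `#{x | x^p = 1}` is a power of `p` dividing `m^2`, hence `≤ p^(2a)`; `odd_prime`:
`p^a u = m < p^(2a)`, so `u < p^a`; in the same way `w < q^b`.  But `q^b ∣ u` and `p^a ∣ w`, so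
`q^b ≤ u < p^a ≤ w < q^b`, a contradiction.
-/

namespace Pool.Agent.AF

section
open scoped Classical

/-- number of pairs in `R × R` with quotient `h` -/
private noncomputable def A15_w {Q : Type} [CommGroup Q] (R : Finset Q) (h : Q) : ℕ :=
  (R.filter fun a => a * h ∈ R).card

variable {Q : Type} [CommGroup Q] [Finite Q] {N : Subgroup Q} {R : Finset Q} {m : ℕ}

omit [Finite Q] in
private theorem A15_w_one (h : IsRDS N R m) : A15_w R 1 = m := by
  unfold A15_w
  rw [Finset.filter_true_of_mem, h.cardR]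
  intro a ha
  rwa [mul_one]

omit [Finite Q] in
private theorem A15_w_in (h : IsRDS N R m) {g : Q} (hg : g ∈ N) (h1 : g ≠ 1) :
    A15_w R g = 0 := by
  unfold A15_w
  rw [Finset.card_eq_zero, Finset.filter_eq_empty_iff]
  intro a ha hc
  refine h.inn g hg h1 a ha ?_
  rwa [mul_comm]

omit [Finite Q] in
private theorem A15_w_out (h : IsRDS N R m) {g : Q} (hg : g ∉ N) : A15_w R g = 1 := by
  unfold A15_w
  obtain ⟨s, ⟨hs1, hs2⟩, hu⟩ := h.out g hg
  rw [Finset.card_eq_one]
  refine ⟨s, ?_⟩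
  ext a
  rw [Finset.mem_filter, Finset.mem_singleton]
  constructor
  · rintro ⟨ha, hag⟩
    exact hu a ⟨ha, by rwa [mul_comm]⟩
  · rintro rfl
    exact ⟨hs1, by rwa [mul_comm]⟩

/-- `R` meets every coset of `N` exactly once -/
private theorem A15_coset (h : IsRDS N R m) (g : Q) :
    (R.filter fun c => g * c⁻¹ ∈ N).card = 1 := by
  have hinj : Set.InjOn (fun c : Q => (c : Q ⧸ N)) R := by
    intro c hc c' hc' hcc
    by_contra hne
    have h1 : c⁻¹ * c' ∈ N := QuotientGroup.eq.1 hcc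
    refine h.inn _ h1 ?_ c hc ?_
    · intro h2
      exact hne (inv_mul_eq_one.1 h2)
    · have : c⁻¹ * c' * c = c' := by
        rw [mul_comm, mul_inv_cancel_left]
      rw [this]
      exact hc'
  have hcard : Nat.card (Q ⧸ N) = m := by
    have h1 := Subgroup.card_eq_card_quotient_mul_card_subgroup N
    rw [h.cardQ, h.cardN] at h1
    have hm : 0 < m := by
      rw [← h.cardN]
      exact Nat.card_pos
    exact (Nat.eq_of_mul_eq_mul_right hm h1).symm
  have : Fintype (Q ⧸ N) := Fintype.ofFinite _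
  have hsurj : R.image (fun c : Q => (c : Q ⧸ N)) = Finset.univ := by
    apply Finset.eq_univ_of_card
    rw [Finset.card_image_of_injOn hinj, h.cardR, ← hcard, Nat.card_eq_fintype_card]
  have h2 : (g : Q ⧸ N) ∈ R.image (fun c : Q => (c : Q ⧸ N)) := by
    rw [hsurj]
    exact Finset.mem_univ _
  rw [Finset.mem_image] at h2
  obtain ⟨c, hc, hcg⟩ := h2
  rw [Finset.card_eq_one]
  refine ⟨c, ?_⟩
  ext c'
  rw [Finset.mem_filter, Finset.mem_singleton]
  constructor
  · rintro ⟨hc', hg⟩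
    refine hinj hc' hc ?_
    show (c' : Q ⧸ N) = c
    rw [hcg]
    refine QuotientGroup.eq.2 ?_
    rwa [mul_comm]
  · rintro rfl
    refine ⟨hc, ?_⟩
    have := QuotientGroup.eq.1 hcg
    rwa [mul_comm]

/-- the number of triples `(a, b, c)` with `b c = a g` is odd (for `m` even) -/
private theorem A15_cnt_odd (h : IsRDS N R m) (h2 : 2 ∣ m) (g : Q) : cnt R 2 g % 2 = 1 := by
  -- the sum of `w (g c⁻¹)`
  have e1 : ∑ c ∈ R, A15_w R (g * c⁻¹) = (if g ∈ R then m else 0) + (m - 1) := by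
    have e2 : ∀ c ∈ R, A15_w R (g * c⁻¹) =
        (if c = g then m else 0) + (if g * c⁻¹ ∈ N then 0 else 1) := by
      intro c _
      by_cases hc : c = g
      · rw [if_pos hc, hc, mul_inv_cancel, A15_w_one h, if_pos N.one_mem, add_zero]
      · rw [if_neg hc]
        by_cases hN : g * c⁻¹ ∈ N
        · rw [if_pos hN, A15_w_in h hN]
          intro h3
          exact hc (mul_inv_eq_one.1 h3).symm
        · rw [if_neg hN, A15_w_out h hN]
    rw [Finset.sum_congr rfl e2, Finset.sum_add_distrib]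
    congr 1
    · rw [Finset.sum_ite_eq' R g]
    · have e3 := A15_coset h g
      have e4 := Finset.card_filter_add_card_filter_not (s := R) (fun c => g * c⁻¹ ∈ N)
      rw [e3, h.cardR] at e4
      have e5 : ∑ c ∈ R, (if g * c⁻¹ ∈ N then 0 else 1) =
          (R.filter fun c => ¬ (g * c⁻¹ ∈ N)).card := by
        rw [Finset.card_filter]
        refine Finset.sum_congr rfl fun c _ => ?_
        by_cases hN : g * c⁻¹ ∈ N
        · rw [if_pos hN, if_neg (not_not.2 hN)]
        · rw [if_neg hN, if_pos hN]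
      rw [e5]
      omega
  -- the triples
  have e6 : ((∑ c ∈ R, A15_w R (g * c⁻¹) : ℕ) : ZMod 2) =
      ∑ a ∈ R, ∑ b ∈ R, ∑ c ∈ R, (if b * c = a * g then (1 : ZMod 2) else 0) := by
    have e7 : ∀ c ∈ R, ((A15_w R (g * c⁻¹) : ℕ) : ZMod 2) =
        ∑ a ∈ R, ∑ b ∈ R, (if b * c = a * g then (1 : ZMod 2) else 0) := by
      intro c _
      unfold A15_w
      rw [Finset.card_filter]
      push_cast
      refine Finset.sum_congr rfl fun a _ => ?_
      have e8 : ∀ b ∈ R, (if b * c = a * g then (1 : ZMod 2) else 0) =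
          if b = a * (g * c⁻¹) then 1 else 0 := by
        intro b _
        congr 1
        apply propext
        rw [← mul_assoc, eq_mul_inv_iff_mul_eq]
      rw [Finset.sum_congr rfl e8, Finset.sum_ite_eq' R]
    push_cast
    rw [Finset.sum_congr rfl e7, Finset.sum_comm]
    refine Finset.sum_congr rfl fun a _ => ?_
    rw [Finset.sum_comm]
  have e9 : ∀ a : Q, ∑ b ∈ R, ∑ c ∈ R, (if b * c = a * g then (1 : ZMod 2) else 0) =
      ∑ b ∈ R, (if b ^ 2 = a * g then (1 : ZMod 2) else 0) := by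
    intro a
    have f1 : ∀ b ∈ R, ∑ c ∈ R, (if b * c = a * g then (1 : ZMod 2) else 0) =
        (if b ^ 2 = a * g then (1 : ZMod 2) else 0) +
        ∑ c ∈ R, (if b * c = a * g ∧ b ≠ c then (1 : ZMod 2) else 0) := by
      intro b hb
      have f2 : ∀ c ∈ R, (if b * c = a * g then (1 : ZMod 2) else 0) =
          (if c = b then (if b ^ 2 = a * g then (1 : ZMod 2) else 0) else 0) +
          (if b * c = a * g ∧ b ≠ c then (1 : ZMod 2) else 0) := by
        intro c _
        by_cases hbc : c = b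
        · subst hbc
          rw [if_pos rfl, if_neg (show ¬ (c * c = a * g ∧ c ≠ c) from fun h3 => h3.2 rfl), add_zero,
            sq]
        · rw [if_neg hbc, zero_add]
          congr 1
          apply propext
          exact ⟨fun h3 => ⟨h3, fun h4 => hbc h4.symm⟩, fun h3 => h3.1⟩
      rw [Finset.sum_congr rfl f2, Finset.sum_add_distrib, Finset.sum_ite_eq' R, if_pos hb]
    rw [Finset.sum_congr rfl f1, Finset.sum_add_distrib]
    have f3 : ∑ b ∈ R, ∑ c ∈ R, (if b * c = a * g ∧ b ≠ c then (1 : ZMod 2) else 0) = 0 := by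
      rw [← Finset.sum_product']
      refine Finset.sum_involution (fun x _ => (x.2, x.1)) ?_ ?_ ?_ ?_
      · rintro ⟨b, c⟩ _
        show (if b * c = a * g ∧ b ≠ c then (1 : ZMod 2) else 0) +
          (if c * b = a * g ∧ c ≠ b then (1 : ZMod 2) else 0) = 0
        have : (c * b = a * g ∧ c ≠ b) = (b * c = a * g ∧ b ≠ c) := by
          rw [mul_comm c b]
          apply propext
          exact ⟨fun h3 => ⟨h3.1, h3.2.symm⟩, fun h3 => ⟨h3.1, h3.2.symm⟩⟩
        rw [if_congr (Iff.of_eq this) rfl rfl]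
        exact CharTwo.add_self_eq_zero _
      · rintro ⟨b, c⟩ _ h3 h4
        apply h3
        show (if b * c = a * g ∧ b ≠ c then (1 : ZMod 2) else 0) = 0
        rw [if_neg]
        rintro ⟨-, h5⟩
        exact h5 (congrArg Prod.snd h4)
      · rintro ⟨b, c⟩ h3
        rw [Finset.mem_product] at h3 ⊢
        exact ⟨h3.2, h3.1⟩
      · rintro ⟨b, c⟩ _
        rfl
    rw [f3, add_zero]
  have e10 : ((cnt R 2 g : ℕ) : ZMod 2) =
      ∑ a ∈ R, ∑ b ∈ R, (if b ^ 2 = a * g then (1 : ZMod 2) else 0) := by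
    unfold cnt
    rw [Finset.card_filter]
    push_cast
    rw [Finset.sum_product]
  have e11 : ((cnt R 2 g : ℕ) : ZMod 2) = (((if g ∈ R then m else 0) + (m - 1) : ℕ) : ZMod 2) := by
    rw [e10, ← e1, e6]
    exact (Finset.sum_congr rfl fun a _ => (e9 a)).symm
  have e12 := (ZMod.natCast_eq_natCast_iff _ _ 2).1 e11
  have hm : 0 < m := by
    rw [← h.cardN]
    exact Nat.card_pos
  have e13 : ((if g ∈ R then m else 0) + (m - 1)) % 2 = 1 := by
    split_ifs
    · omega
    · omega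
  rw [Nat.ModEq, e13] at e12
  exact e12

private theorem A15_cnt_one (h : IsRDS N R m) (h2 : 2 ∣ m) (g : Q) : cnt R 2 g = 1 := by
  have : Fintype Q := Fintype.ofFinite _
  have e1 : ∑ g : Q, cnt R 2 g = m * m := by
    have e2 := Finset.card_eq_sum_card_fiberwise (s := R ×ˢ R) (t := Finset.univ)
      (f := fun ab : Q × Q => ab.1⁻¹ * ab.2 ^ 2) (fun _ _ => Finset.mem_coe.2 (Finset.mem_univ _))
    rw [Finset.card_product, h.cardR] at e2
    rw [e2]
    refine Finset.sum_congr rfl fun g _ => ?_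
    unfold cnt
    congr 1
    ext ab
    rw [Finset.mem_filter, Finset.mem_filter]
    rw [inv_mul_eq_iff_eq_mul]
  have e2 : ∑ g : Q, 1 = m * m := by
    rw [Finset.sum_const, Finset.card_univ, smul_eq_mul, mul_one, ← Nat.card_eq_fintype_card,
      h.cardQ]
  have e3 : ∀ g ∈ (Finset.univ : Finset Q), 1 ≤ cnt R 2 g := by
    intro g _
    have := A15_cnt_odd h h2 g
    omega
  have e4 := (Finset.sum_eq_sum_iff_of_le e3).1 (e2.trans e1.symm)
  exact (e4 g (Finset.mem_univ g)).symm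

/-- `m = ∑ w (b² g⁻¹)` -/
private theorem A15_sum_w (h : IsRDS N R m) (h2 : 2 ∣ m) (g : Q) :
    ∑ b ∈ R, A15_w R (b ^ 2 * g⁻¹) = m := by
  have e1 : ∑ r ∈ R, cnt R 2 (r⁻¹ * g) = m := by
    rw [Finset.sum_congr rfl fun r _ => A15_cnt_one h h2 (r⁻¹ * g), Finset.sum_const, h.cardR,
      smul_eq_mul, mul_one]
  rw [← e1]
  have e2 : ∀ r ∈ R, cnt R 2 (r⁻¹ * g) =
      ∑ b ∈ R, ∑ a ∈ R, (if a = r * (b ^ 2 * g⁻¹) then 1 else 0) := by
    intro r _
    unfold cnt
    rw [Finset.card_filter, Finset.sum_product, Finset.sum_comm]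
    refine Finset.sum_congr rfl fun b _ => Finset.sum_congr rfl fun a _ => ?_
    congr 1
    apply propext
    show b ^ 2 = a * (r⁻¹ * g) ↔ _
    constructor
    · intro h3
      rw [h3]
      rw [mul_assoc a, mul_inv_cancel_right, mul_comm a, mul_inv_cancel_left]
    · intro h3
      rw [h3, mul_comm r, mul_assoc, mul_inv_cancel_left, inv_mul_cancel_right]
  have e3 : ∀ b ∈ R, A15_w R (b ^ 2 * g⁻¹) =
      ∑ r ∈ R, ∑ a ∈ R, (if a = r * (b ^ 2 * g⁻¹) then 1 else 0) := by
    intro b _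
    unfold A15_w
    rw [Finset.card_filter]
    refine Finset.sum_congr rfl fun r _ => ?_
    rw [Finset.sum_ite_eq' R]
  rw [Finset.sum_congr rfl e2, Finset.sum_congr rfl e3, Finset.sum_comm]

end

theorem IsRDS.two_pow {Q : Type} [CommGroup Q] [Finite Q] {N : Subgroup Q} {R : Finset Q} {m : ℕ}
    (h : IsRDS N R m) (hm : 2 ≤ m) (h2 : 2 ∣ m) : ∃ n : ℕ, m = 2 ^ n := by
  classical
  -- all squares of elements of `R` are in one coset
  have h1 : ∀ b ∈ R, ∀ b0 ∈ R, b ^ 2 * (b0 ^ 2)⁻¹ ∈ N := by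
    intro b hb b0 hb0
    by_cases hbb : b = b0
    · rw [hbb, mul_inv_cancel]
      exact N.one_mem
    by_contra hN
    have e1 := A15_sum_w h h2 (b0 ^ 2)
    have e2 := A15_w_out h hN
    have e3 : A15_w R (b0 ^ 2 * (b0 ^ 2)⁻¹) = m := by
      rw [mul_inv_cancel]
      exact A15_w_one h
    have e4 : A15_w R (b ^ 2 * (b0 ^ 2)⁻¹) + A15_w R (b0 ^ 2 * (b0 ^ 2)⁻¹) ≤
        ∑ b ∈ R, A15_w R (b ^ 2 * (b0 ^ 2)⁻¹) := by
      rw [← Finset.sum_pair (f := fun b => A15_w R (b ^ 2 * (b0 ^ 2)⁻¹)) hbb]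
      refine Finset.sum_le_sum_of_subset ?_
      intro x hx
      rw [Finset.mem_insert, Finset.mem_singleton] at hx
      rcases hx with rfl | rfl
      · exact hb
      · exact hb0
    rw [e1, e2, e3] at e4
    omega
  -- a member of `R` in `N`
  have h3 : ∀ g : Q, ∃ c ∈ R, g * c⁻¹ ∈ N := by
    intro g
    have e1 := A15_coset h g
    obtain ⟨c, hc⟩ := Finset.card_pos.1 (by rw [e1]; exact Nat.one_pos)
    rw [Finset.mem_filter] at hc
    exact ⟨c, hc.1, hc.2⟩
  obtain ⟨c, hc, hcN⟩ := h3 1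
  have hcN' : c ∈ N := by
    rw [one_mul] at hcN
    exact (Subgroup.inv_mem_iff N).1 hcN
  have h4 : ∀ g : Q, g ^ 2 ∈ N := by
    intro g
    obtain ⟨b, hb, hbN⟩ := h3 g
    have e1 := N.mul_mem (N.mul_mem (N.pow_mem hbN 2) (h1 b hb c hc)) (N.pow_mem hcN' 2)
    have e2 : (g * b⁻¹) ^ 2 * (b ^ 2 * (c ^ 2)⁻¹) * c ^ 2 = g ^ 2 := by
      rw [mul_assoc, inv_mul_cancel_right, mul_pow, inv_pow, inv_mul_cancel_right]
    rwa [e2] at e1
  have h5 : IsPGroup 2 (Q ⧸ N) := by
    intro x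
    refine ⟨1, ?_⟩
    obtain ⟨g, rfl⟩ := QuotientGroup.mk_surjective x
    rw [pow_one, ← QuotientGroup.mk_pow]
    exact (QuotientGroup.eq_one_iff _).2 (h4 g)
  obtain ⟨n, hn⟩ := IsPGroup.iff_card.1 h5
  refine ⟨n, ?_⟩
  rw [← hn]
  have e1 := Subgroup.card_eq_card_quotient_mul_card_subgroup N
  rw [h.cardQ, h.cardN] at e1
  exact Nat.eq_of_mul_eq_mul_right (by omega) e1

private theorem A15_bound {Q : Type} [CommGroup Q] [Finite Q] {N : Subgroup Q} {R : Finset Q}
    {m : ℕ} (h : IsRDS N R m) (hodd : ¬ 2 ∣ m) {p a u : ℕ} (hp : p.Prime) (hm : m = p ^ a * u)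
    (hpm : p ∣ m) (hu : ¬ p ∣ u) : u < p ^ a := by
  have hp2 : p ≠ 2 := by
    rintro rfl
    exact hodd hpm
  have h1 := h.odd_prime p hp hp2 hpm
  have h2 : IsPGroup p ((powMonoidHom p : Q →* Q).ker) := by
    rintro ⟨x, hx⟩
    refine ⟨1, Subtype.ext ?_⟩
    rw [pow_one]
    exact hx
  have : Fact p.Prime := ⟨hp⟩
  obtain ⟨j, hj⟩ := IsPGroup.iff_card.1 h2
  have h3 : Nat.card {x : Q // x ^ p = 1} = p ^ j := hj
  have h4 : p ^ j ∣ m * m := by
    rw [← hj, ← h.cardQ]
    exact Subgroup.card_subgroup_dvd_card _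
  have h5 : p ^ j ∣ p ^ (2 * a) := by
    have e1 : m * m = p ^ (2 * a) * (u * u) := by
      rw [hm, two_mul, pow_add]
      ring
    rw [e1] at h4
    refine Nat.Coprime.dvd_of_dvd_mul_right ?_ h4
    refine Nat.Coprime.pow_left _ ?_
    rw [Nat.coprime_mul_iff_right]
    have := (Nat.Prime.coprime_iff_not_dvd hp).2 hu
    exact ⟨this, this⟩
  have h6 : p ^ j ≤ p ^ (2 * a) := Nat.le_of_dvd (pow_pos hp.pos _) h5
  rw [h3] at h1
  have h7 : p ^ a * u < p ^ a * p ^ a := by
    rw [← hm, ← pow_add, ← two_mul]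
    exact h1.trans_le h6
  exact Nat.lt_of_mul_lt_mul_left h7

theorem IsRDS.isPrimePow {Q : Type} [CommGroup Q] [Finite Q] {N : Subgroup Q} {R : Finset Q}
    {m : ℕ} (h : IsRDS N R m) (hm : 2 ≤ m) : IsPrimePow m := by
  by_cases h2 : 2 ∣ m
  · obtain ⟨n, hn⟩ := h.two_pow hm h2
    rw [isPrimePow_nat_iff]
    refine ⟨2, n, Nat.prime_two, ?_, hn.symm⟩
    rcases Nat.eq_zero_or_pos n with h0 | h0
    · rw [h0, pow_zero] at hn
      omega
    · exact h0
  · obtain ⟨p, hp, hpm⟩ := Nat.exists_prime_and_dvd (n := m) (by omega)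
    obtain ⟨a, u, hu, hmu⟩ := Nat.exists_eq_pow_mul_and_not_dvd (n := m) (by omega) p
      hp.ne_one
    have ha : 0 < a := by
      rcases Nat.eq_zero_or_pos a with h0 | h0
      · rw [h0, pow_zero, one_mul] at hmu
        rw [hmu] at hpm
        exact absurd hpm hu
      · exact h0
    by_cases hu1 : u = 1
    · rw [isPrimePow_nat_iff]
      refine ⟨p, a, hp, ha, ?_⟩
      rw [hmu, hu1, mul_one]
    · exfalso
      have hu0 : u ≠ 0 := by
        rintro rfl
        exact hu (dvd_zero p)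
      obtain ⟨q, hq, hqu⟩ := Nat.exists_prime_and_dvd hu1
      have hqm : q ∣ m := by
        rw [hmu]
        exact Dvd.dvd.mul_left hqu _
      have hpq : p ≠ q := by
        rintro rfl
        exact hu hqu
      obtain ⟨b, w, hw, hmw⟩ := Nat.exists_eq_pow_mul_and_not_dvd (n := m) (by omega) q
        hq.ne_one
      have b1 := A15_bound h h2 hp hmu hpm hu
      have b2 := A15_bound h h2 hq hmw hqm hw
      have hcop : Nat.Coprime (p ^ a) (q ^ b) :=
        Nat.Coprime.pow _ _ ((Nat.coprime_primes hp hq).2 hpq)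
      have c1 : q ^ b ∣ u := by
        refine Nat.Coprime.dvd_of_dvd_mul_left hcop.symm ?_
        rw [← hmu, hmw]
        exact Dvd.intro _ rfl
      have c2 : p ^ a ∣ w := by
        refine Nat.Coprime.dvd_of_dvd_mul_left hcop ?_
        rw [← hmw, hmu]
        exact Dvd.intro _ rfl
      have hw0 : w ≠ 0 := by
        rintro rfl
        exact hw (dvd_zero q)
      have d1 := Nat.le_of_dvd (Nat.pos_of_ne_zero hu0) c1
      have d2 := Nat.le_of_dvd (Nat.pos_of_ne_zero hw0) c2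
      omega

end Pool.Agent.AF
end

section

namespace Pool.Agent.AF

variable {P Bl : Type} [Finite P] [Finite Bl] {I : P → Bl → Prop} {par : Bl → Bl → Prop}
  {k lam μ m r : ℕ}

theorem Par.nonempty_points (h : Par I par k lam μ m r) : Nonempty P := by
  have h1 := h.aff.k_lt
  have : 0 < Nat.card P := by omega
  exact (Nat.card_pos_iff.1 this).1

theorem Par.nonempty_blocks (h : Par I par k lam μ m r) : Nonempty Bl := by
  have h2 := h.m2
  have h1 : 0 < Nat.card Bl := by
    rw [h.hb, h.hr]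
    exact Nat.mul_pos (by omega) (Nat.succ_pos _)
  exact (Nat.card_pos_iff.1 h1).1

/-- prime power `m`, `μ` a power of `m`: embeddable, by the projective geometry. -/
theorem Par.embeddable_of_pow (h : Par I par k lam μ m r) (hm : IsPrimePow m) (n : ℕ)
    (hn : μ = m ^ n) : Embeddable I := by
  obtain ⟨lam0, hl, hmu⟩ := h.exists_lam0
  obtain ⟨X, Y, R, r', s, t, hS, h1, h2, h3⟩ := exists_pg m (n + 2) hm (by omega)
  have hm2 := h.m2
  obtain ⟨m', rfl⟩ : ∃ m', m = m' + 2 := ⟨m - 2, by omega⟩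
  have e1 : m' + 2 - 1 = m' + 1 := by omega
  have e2 : n + 2 - 1 = n + 1 := by omega
  have e3 : n + 2 - 2 = n := by omega
  rw [e1] at h1 h2 h3 hmu
  rw [e2] at h2
  rw [e3] at h3
  have ht : t = lam0 := by
    have : (m' + 1) * t = (m' + 1) * lam0 := by
      rw [← hn] at h3; omega
    exact Nat.eq_of_mul_eq_mul_left (Nat.succ_pos _) this
  have hs : s = lam := by
    have h4 := h.hlam
    have : (m' + 1) * s = (m' + 1) * lam := by
      rw [pow_succ, ← hn] at h2
      nlinarith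
    exact Nat.eq_of_mul_eq_mul_left (Nat.succ_pos _) this
  have hr : r' = r := by
    have h4 := h.hlam
    have h5 := h.hr
    have : (m' + 1) * r' = (m' + 1) * r := by
      rw [pow_add, ← hn] at h1
      rw [h5]
      nlinarith
    exact Nat.eq_of_mul_eq_mul_left (Nat.succ_pos _) this
  subst ht hs hr
  exact h.embeddable R t hS hl

theorem Par.card_points_pow (h : Par I par k lam μ m r) (n : ℕ) (hn : μ = m ^ n) :
    Nat.card P = m ^ (n + 2) := by
  rw [h.hv, hn]; ring

/-- abelian, regular on points -/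
theorem Par.abelian_regular (h : Par I par k lam μ m r) (G : Type) [CommGroup G] [Finite G]
    [MulAction G P] [MulAction G Bl]
    (ha : ∀ (g : G) (p : P) (c : Bl), I (g • p) (g • c) ↔ I p c)
    (hfree : ∀ (g : G) (p : P), g • p = p → g = 1) (htr : ∀ p q : P, ∃ g : G, g • p = q) :
    IsPrimePow m ∧ ∃ n : ℕ, μ = m ^ n := by
  have hm2 := h.m2
  have hpp : IsPrimePow m := by
    by_contra hno
    -- two different prime divisors
    obtain ⟨p, hp, hpm⟩ := Nat.exists_prime_and_dvd (n := m) (by omega)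
    have : ∃ q : ℕ, q.Prime ∧ q ∣ m ∧ q ≠ p := by
      by_contra hq
      push Not at hq
      have h1 : m = p ^ m.primeFactorsList.length :=
        Nat.eq_prime_pow_of_unique_prime_dvd (by omega) (fun {d} hd hdm => hq d hd hdm)
      apply hno
      rw [h1]
      refine hp.isPrimePow.pow ?_
      intro h0
      rw [h0] at h1
      simp at h1
      omega
    obtain ⟨q, hq, hqm, hqp⟩ := this
    obtain ⟨c, hc⟩ := h.exists_cstab ha hfree htr p q hp hq (Ne.symm hqp) hpm hqm
    obtain ⟨Q, _, _, N, R, hR⟩ := h.exists_rds ha hfree htr c hc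
    exact hno (hR.isPrimePow hm2)
  exact ⟨hpp, h.regular G ha hfree htr hpp⟩

theorem main {P Bl : Type} [Finite P] [Finite Bl] (I : P → Bl → Prop) (par : Bl → Bl → Prop)
    (k lam μ : ℕ) (hA : IsAffine I par k lam μ) (m : ℕ)
    (hm : ∀ c : Bl, {d : Bl | par c d}.ncard = m) :
    (∀ (G : Type) [CommGroup G] [MulAction G P] [MulAction G Bl],
      (∀ (g : G) (p : P) (c : Bl), I (g • p) (g • c) ↔ I p c) →
      (∀ p q : P, ∃ g : G, g • p = q) →
        IsPrimePow m ∧ (∃ n : ℕ, 2 ≤ n ∧ Nat.card P = m ^ n) ∧ Embeddable I) ∧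
    (∀ (G : Type) [CommGroup G] [MulAction G P] [MulAction G Bl],
      (∀ (g : G) (p : P) (c : Bl), I (g • p) (g • c) ↔ I p c) →
      ∀ x : P, (∀ g : G, g • x = x) → (∀ p q : P, p ≠ x → q ≠ x → ∃ g : G, g • p = q) →
        Embeddable I) ∧
    (∀ (G : Type) [Group G] [MulAction G P] [MulAction G Bl],
      (∀ (g : G) (p : P) (c : Bl), I (g • p) (g • c) ↔ I p c) →
      (∀ (g : G) (p : P), g • p = p → g = 1) →
      Nat.card (MulAction.orbitRel.Quotient G P) ≤ 4 → IsPrimePow m → 3 ≤ m →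
        (∃ n : ℕ, 2 ≤ n ∧ Nat.card P = m ^ n) ∧ Embeddable I) ∧
    (∀ (H : Type) [Group H] [MulAction H P] [MulAction H Bl],
      (∀ (g : H) (p : P) (c : Bl), I (g • p) (g • c) ↔ I p c) →
      (∀ g : H, (∀ p : P, g • p = p) → g = 1) →
      ∀ x : P, (∀ (g : H) (c : Bl), I x c → g • c = c) → Nat.card H + 1 = m →
        Embeddable I) := by
  obtain ⟨m', r, h⟩ := hA.exists_par
  obtain ⟨c0⟩ := h.nonempty_blocks
  obtain rfl : m' = m := by rw [← h.cls c0, hm c0]
  obtain ⟨lam0, hl, hmu⟩ := h.exists_lam0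
  have hext : ∀ c d : Bl, (∀ p, I p c ↔ I p d) → c = d := fun c d => h.ext_block c d
  have hom : ∀ (H : Type) [Group H] [MulAction H P] [MulAction H Bl],
      (∀ (g : H) (p : P) (c : Bl), I (g • p) (g • c) ↔ I p c) →
      (∀ g : H, (∀ p : P, g • p = p) → g = 1) →
      ∀ x : P, (∀ (g : H) (c : Bl), I x c → g • c = c) → Nat.card H + 1 = m' →
        Embeddable I := by
    intro H _ _ _ ha hfaith x hx hcard
    obtain ⟨X, Y, R, hS⟩ := h.homothety H ha hfaith x hx hcard lam0 hl hmu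
    exact h.embeddable R lam0 hS hl
  refine ⟨?_, ?_, ?_, hom⟩
  · intro G _ _ _ ha htr
    obtain ⟨G', _, _, _, _, ha', hor, hfaith⟩ := reduce I hext G ha
    have htr' : ∀ p q : P, ∃ g : G', g • p = q := fun p q => (hor p q).2 (htr p q)
    have hfree' : ∀ (g : G') (p : P), g • p = p → g = 1 := by
      intro g p hg
      apply hfaith
      intro q
      obtain ⟨g', rfl⟩ := htr' p q
      rw [smul_smul, mul_comm, ← smul_smul, hg]
    obtain ⟨hpp, n, hn⟩ := h.abelian_regular G' ha' hfree' htr'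
    exact ⟨hpp, ⟨n + 2, by omega, h.card_points_pow n hn⟩, h.embeddable_of_pow hpp n hn⟩
  · intro G _ _ _ ha x hx htr
    obtain ⟨G', _, _, _, _, ha', hor, hfaith⟩ := reduce I hext G ha
    have hx' : ∀ g : G', g • x = x := by
      intro g
      obtain ⟨g', hg'⟩ := (hor x (g • x)).1 ⟨g, rfl⟩
      rw [← hg', hx]
    have htr' : ∀ p q : P, p ≠ x → q ≠ x → ∃ g : G', g • p = q :=
      fun p q hp hq => (hor p q).2 (htr p q hp hq)
    have hfree' : ∀ (g : G') (p : P), p ≠ x → g • p = p → g = 1 := by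
      intro g p hp hg
      apply hfaith
      intro q
      by_cases hq : q = x
      · rw [hq, hx']
      · obtain ⟨g', rfl⟩ := htr' p q hp hq
        rw [smul_smul, mul_comm, ← smul_smul, hg]
    obtain ⟨H, hH, hHx⟩ := h.singer G' ha' x hx' hfree' htr'
    refine hom H (fun g p c => ha' g p c) ?_ x (fun g c hc => hHx g g.2 c hc) hH
    intro g hg
    apply Subtype.ext
    exact hfaith g (fun p => hg p)
  · intro G _ _ _ ha hfree hor hpp hm3
    obtain ⟨n, hn⟩ := h.semireg G ha hfree hor hpp hm3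
    exact ⟨⟨n + 2, by omega, h.card_points_pow n hn⟩, h.embeddable_of_pow hpp n hn⟩

end Pool.Agent.AF
end

section

namespace Pool.Agent.AF

variable {P Bl : Type} [Finite P] [Finite Bl] {I : P → Bl → Prop} {par : Bl → Bl → Prop}
  {k lam μ m r : ℕ}

/-- Every affine design with `m` blocks in each parallel class and with exactly `w` points is
embeddable. -/
def AllEmbeddable (m w : ℕ) : Prop :=
  ∀ (P' Bl' : Type) [Finite P'] [Finite Bl'] (I' : P' → Bl' → Prop) (par' : Bl' → Bl' → Prop)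
    (k' lam' μ' : ℕ), IsAffine I' par' k' lam' μ' → (∀ c : Bl', {d : Bl' | par' c d}.ncard = m) →
    Nat.card P' = w → Embeddable I'

theorem Par.of_class (h : IsAffine I par k lam μ) (hcl : ∀ c : Bl, {d : Bl | par c d}.ncard = m) :
    ∃ r, Par I par k lam μ m r := by
  obtain ⟨m', r, h'⟩ := h.exists_par
  obtain ⟨c0⟩ := h'.nonempty_blocks
  obtain rfl : m' = m := by rw [← h'.cls c0, hcl c0]
  exact ⟨r, h'⟩

theorem Par.embeddable_of_spread (h : Par I par k lam μ m r) {P' : Type} [Finite P']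
    (π : P → P') (hπ : ∀ a : P', {p : P | π p = a}.ncard = m)
    (hc : ∀ c : Bl, (∀ p p', π p = π p' → (I p c ↔ I p' c)) ∨
        (∀ a : P', {p : P | π p = a ∧ I p c}.ncard = 1))
    (hall : AllEmbeddable m (μ * m)) : Embeddable I := by
  rcases Nat.lt_or_ge 1 μ with h1 | h1
  · obtain ⟨Bl', _, I', par', k', lam', μ', hI', hμ, hcl, hlt⟩ := h.quotient h1 π hπ hc
    obtain ⟨r', h'⟩ := Par.of_class hI' hcl
    have hcard : Nat.card P' = μ * m := by
      rw [h'.hv, hμ]
      ring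
    have he : Embeddable I' := hall P' Bl' I' par' k' lam' μ' hI' hcl hcard
    exact h'.ladder he h hμ
  · have h2 := h.aff.mu_pos
    exact h.embeddable_plane (by omega)

theorem Par.embeddable_of_full (h : Par I par k lam μ m r) (x : P)
    (hx : ∀ q : P, q ≠ x → {z : P | ∀ c, I x c → I q c → I z c}.ncard = m) : Embeddable I := by
  obtain ⟨lam0, hl, hmu⟩ := h.exists_lam0
  obtain ⟨X, Y, R, hS⟩ := h.full_lines x hx lam0 hl hmu
  exact h.embeddable R lam0 hS hl

theorem Par.embeddable_of_translation (h : Par I par k lam μ m r) (hm : m.Prime)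
    (σ : Equiv.Perm P) (τ : Equiv.Perm Bl) (ha : ∀ p c, I (σ p) (τ c) ↔ I p c)
    (hd : ∀ c, par c (τ c)) (hfix : ∀ p, σ p ≠ p) (hall : AllEmbeddable m (μ * m)) :
    Embeddable I := by
  obtain ⟨P', _, π, h1, h2⟩ := h.exists_pi hm σ τ ha hd hfix
  exact h.embeddable_of_spread π h1 h2 hall

theorem main2 {P Bl : Type} [Finite P] [Finite Bl] (I : P → Bl → Prop) (par : Bl → Bl → Prop)
    (k lam μ : ℕ) (hA : IsAffine I par k lam μ) (m : ℕ)
    (hm : ∀ c : Bl, {d : Bl | par c d}.ncard = m) :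
    -- (A) commutative and transitive on the points
    (∀ (G : Type) [CommGroup G] [MulAction G P] [MulAction G Bl],
      (∀ (g : G) (p : P) (c : Bl), I (g • p) (g • c) ↔ I p c) →
      (∀ p q : P, ∃ g : G, g • p = q) →
        IsPrimePow m ∧ (∃ n : ℕ, 2 ≤ n ∧ Nat.card P = m ^ n) ∧ Embeddable I) ∧
    -- (B) commutative, fixes a point, transitive on the other points
    (∀ (G : Type) [CommGroup G] [MulAction G P] [MulAction G Bl],
      (∀ (g : G) (p : P) (c : Bl), I (g • p) (g • c) ↔ I p c) →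
      ∀ x : P, (∀ g : G, g • x = x) → (∀ p q : P, p ≠ x → q ≠ x → ∃ g : G, g • p = q) →
        Embeddable I) ∧
    -- (C) semiregular on the points with at most `m + p - 2` orbits, `m` a power of the prime `p`
    (∀ (G : Type) [Group G] [MulAction G P] [MulAction G Bl],
      (∀ (g : G) (p : P) (c : Bl), I (g • p) (g • c) ↔ I p c) →
      (∀ (g : G) (p : P), g • p = p → g = 1) →
      ∀ p a : ℕ, p.Prime → m = p ^ a → 3 ≤ m →
      Nat.card (MulAction.orbitRel.Quotient G P) + 2 ≤ m + p →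
        (∃ n : ℕ, 2 ≤ n ∧ Nat.card P = m ^ n) ∧ Embeddable I) ∧
    -- (D) nilpotent, transitive on the points, `m` a prime power
    (∀ (G : Type) [Group G] [Group.IsNilpotent G] [MulAction G P] [MulAction G Bl],
      (∀ (g : G) (p : P) (c : Bl), I (g • p) (g • c) ↔ I p c) →
      (∀ p q : P, ∃ g : G, g • p = q) → IsPrimePow m →
        (∃ n : ℕ, 2 ≤ n ∧ Nat.card P = m ^ n) ∧ Embeddable I) ∧
    -- (E) all lines through one point have `m` points
    (∀ x : P, (∀ q : P, q ≠ x → {z : P | ∀ c, I x c → I q c → I z c}.ncard = m) →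
        Embeddable I) ∧
    -- (F) `m - 1` is a prime and there is a nontrivial homothety
    (∀ (σ : Equiv.Perm P) (τ : Equiv.Perm Bl), (∀ p c, I (σ p) (τ c) ↔ I p c) →
      (m - 1).Prime → (∃ y, σ y ≠ y) → ∀ x : P, (∀ c, I x c → τ c = c) → Embeddable I) ∧
    -- (G) a spread of full parallel lines
    (∀ (P' : Type) [Finite P'] (π : P → P'), (∀ a : P', {p : P | π p = a}.ncard = m) →
      (∀ c : Bl, (∀ p p', π p = π p' → (I p c ↔ I p' c)) ∨
        (∀ a : P', {p : P | π p = a ∧ I p c}.ncard = 1)) →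
      AllEmbeddable m (μ * m) → Embeddable I) ∧
    -- (H) `m` is a prime and there is a translation
    (∀ (σ : Equiv.Perm P) (τ : Equiv.Perm Bl), (∀ p c, I (σ p) (τ c) ↔ I p c) →
      m.Prime → (∀ c, par c (τ c)) → (∀ p, σ p ≠ p) →
      AllEmbeddable m (μ * m) → Embeddable I) ∧
    -- (J) `m = 3` and there is a nontrivial dilatation
    (∀ (σ : Equiv.Perm P) (τ : Equiv.Perm Bl), (∀ p c, I (σ p) (τ c) ↔ I p c) →
      m = 3 → (∀ c, par c (τ c)) → (∃ p, σ p ≠ p) →
      AllEmbeddable m (μ * m) → Embeddable I) := by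
  obtain ⟨h1, h2, h3, h4⟩ := main I par k lam μ hA m hm
  obtain ⟨r, h⟩ := Par.of_class hA hm
  have hF : ∀ (σ : Equiv.Perm P) (τ : Equiv.Perm Bl), (∀ p c, I (σ p) (τ c) ↔ I p c) →
      (m - 1).Prime → (∃ y, σ y ≠ y) → ∀ x : P, (∀ c, I x c → τ c = c) → Embeddable I := by
    intro σ τ ha hpr hne x hx
    exact h.embeddable_of_full x (fun q hq => h.full_of_hom hpr σ τ ha x hx hne q hq)
  refine ⟨h1, h2, ?_, ?_, ?_, hF, ?_, ?_, ?_⟩
  · intro G _ _ _ ha hfree p a hp hpm hm3 hor
    have ha1 : 1 ≤ a := by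
      rcases Nat.eq_zero_or_pos a with h0 | h0
      · subst h0; simp at hpm; omega
      · exact h0
    obtain ⟨n, hn⟩ := h.semireg_gen G ha hfree p a hp ha1 hpm hm3 hor
    have hpp : IsPrimePow m := by
      rw [hpm]
      exact hp.isPrimePow.pow (by omega)
    exact ⟨⟨n + 2, by omega, h.card_points_pow n hn⟩, h.embeddable_of_pow hpp n hn⟩
  · intro G _ _ _ _ ha htr hpp
    obtain ⟨n, hn⟩ := h.nilpotent G ha htr hpp
    exact ⟨⟨n + 2, by omega, h.card_points_pow n hn⟩, h.embeddable_of_pow hpp n hn⟩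
  · intro x hx
    exact h.embeddable_of_full x hx
  · intro P' _ π hπ hc hall
    exact h.embeddable_of_spread π hπ hc hall
  · intro σ τ ha hpr hd hfix hall
    exact h.embeddable_of_translation hpr σ τ ha hd hfix hall
  · intro σ τ ha hm3 hd hne hall
    by_cases hfix : ∀ p, σ p ≠ p
    · exact h.embeddable_of_translation (by rw [hm3]; norm_num) σ τ ha hd hfix hall
    · push Not at hfix
      obtain ⟨x, hx⟩ := hfix
      exact hF σ τ ha (by rw [hm3]; norm_num) hne x (fun c hc => h.dil_fix σ τ ha hd x hx c hc)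

end Pool.Agent.AF
end
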